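import Pool.Agent.H87.FM.Uniq4

set_option autoImplicit false

/-!
# The four mark problem: uniqueness, limits at the marks, ratios
-/

open Complex Metric Set Topology Filter
open scoped ComplexConjugate

noncomputable section

namespace H87.FM

variable {x1 x2 x3 x4 : ℝ} {E E' : Finset ℝ} {f12 f23 f34 f14 g12 g23 g34 g14 : ℂ → ℂ}

lemma Sg_mono (h : E ⊆ E') : Sg x1 x2 x3 x4 E ⊆ Sg x1 x2 x3 x4 E' := by
  rintro z (h1 | h1 | h1 | h1 | ⟨e, he, h1⟩)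
  · exact Or.inl h1
  · exact Or.inr (Or.inl h1)
  · exact Or.inr (Or.inr (Or.inl h1))
  · exact Or.inr (Or.inr (Or.inr (Or.inl h1)))
  · exact Or.inr (Or.inr (Or.inr (Or.inr ⟨e, h he, h1⟩)))

/-- more exceptional points -/
lemma Sol4.mono (h : Sol4 x1 x2 x3 x4 E f12 f23 f34 f14) (hE : E ⊆ E') :
    Sol4 x1 x2 x3 x4 E' f12 f23 f34 f14 := by
  have hS : Sg x1 x2 x3 x4 E ⊆ Sg x1 x2 x3 x4 E' := Sg_mono hE
  have hc : CH \ Sg x1 x2 x3 x4 E' ⊆ CH \ Sg x1 x2 x3 x4 E := fun z hz => ⟨hz.1, fun h => hz.2 (hS h)⟩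
  refine ⟨h.h12, h.h23, h.h34, h.h14, h.c12.mono hc, h.c23.mono hc, h.c34.mono hc, h.c14.mono hc,
    h.rel, fun t ht => h.r12 t fun h => ht (hS h), fun t ht => h.l12 t fun h => ht (hS h),
    fun t ht => h.r23 t fun h => ht (hS h), fun t ht => h.l23 t fun h => ht (hS h),
    fun t ht => h.r34 t fun h => ht (hS h), fun t ht => h.l34 t fun h => ht (hS h),
    fun t ht => h.m14 t fun h => ht (hS h), ?_, h.bdd, h.inf⟩
  intro e _ g hg
  by_cases heS : e ∈ Sp x1 x2 x3 x4 E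
  · exact h.small heS hg
  · exact (pd_loc (h.hol hg) (h.cont hg) (t := e) (r := 0)
      (fun s _ _ => abs_nonneg _) fun h => absurd h heS).s

/-- **Uniqueness for the four mark problem.** -/
theorem Sol4.uniq (h12 : x1 < x2) (h23 : x2 < x3) (h34 : x3 < x4)
    (h : Sol4 x1 x2 x3 x4 E f12 f23 f34 f14) (k : Sol4 x1 x2 x3 x4 E' g12 g23 g34 g14) :
    ∃ a b : ℝ, (a ≠ 0 ∨ b ≠ 0) ∧ ∀ z ∈ HP, a * f12 z + b * g12 z = 0 ∧
      a * f23 z + b * g23 z = 0 ∧ a * f34 z + b * g34 z = 0 ∧ a * f14 z + b * g14 z = 0 := by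
  classical
  exact Sol4.uniq_same h12 h23 h34 (h.mono (Finset.subset_union_left (s₂ := E')))
    (k.mono (Finset.subset_union_right (s₁ := E)))

/-- The second solution is a real multiple of the first one if that one does not vanish. -/
theorem Sol4.uniq_smul (h12 : x1 < x2) (h23 : x2 < x3) (h34 : x3 < x4)
    (h : Sol4 x1 x2 x3 x4 E f12 f23 f34 f14) (k : Sol4 x1 x2 x3 x4 E' g12 g23 g34 g14)
    (hne : ∃ z ∈ HP, f12 z ≠ 0 ∨ f23 z ≠ 0 ∨ f34 z ≠ 0 ∨ f14 z ≠ 0) :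
    ∃ c : ℝ, ∀ z ∈ HP, g12 z = c * f12 z ∧ g23 z = c * f23 z ∧ g34 z = c * f34 z ∧
      g14 z = c * f14 z := by
  obtain ⟨a, b, hab, hz⟩ := Sol4.uniq h12 h23 h34 h k
  have hb : b ≠ 0 := by
    rintro rfl
    have ha : a ≠ 0 := by
      rcases hab with h1 | h1
      · exact h1
      · exact absurd rfl h1
    have haC : (a : ℂ) ≠ 0 := by exact_mod_cast ha
    obtain ⟨z, hzH, hz'⟩ := hne
    obtain ⟨e1, e2, e3, e4⟩ := hz z hzH
    simp only [Complex.ofReal_zero, zero_mul, add_zero] at e1 e2 e3 e4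
    rcases hz' with h1 | h1 | h1 | h1
    · exact h1 ((mul_eq_zero.1 e1).resolve_left haC)
    · exact h1 ((mul_eq_zero.1 e2).resolve_left haC)
    · exact h1 ((mul_eq_zero.1 e3).resolve_left haC)
    · exact h1 ((mul_eq_zero.1 e4).resolve_left haC)
  have hbC : (b : ℂ) ≠ 0 := by exact_mod_cast hb
  refine ⟨-a / b, fun z hzH => ?_⟩
  obtain ⟨e1, e2, e3, e4⟩ := hz z hzH
  push_cast
  refine ⟨?_, ?_, ?_, ?_⟩ <;> field_simp
  · linear_combination e1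
  · linear_combination e2
  · linear_combination e3
  · linear_combination e4

/-- the inverse frame: recover a vector -/
lemma inv_mulVec {N : Matrix (Fin 3) (Fin 3) ℂ} (hN : N.det ≠ 0) (v : Fin 3 → ℂ) :
    N⁻¹.mulVec (N.mulVec v) = v := by
  rw [Matrix.mulVec_mulVec, Matrix.nonsing_inv_mul _ (isUnit_iff_ne_zero.2 hN), Matrix.one_mulVec]

/-- **Limits at the marks.** -/
theorem Sol4.tendsto_mark (h12 : x1 < x2) (h23 : x2 < x3) (h34 : x3 < x4)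
    (h : Sol4 x1 x2 x3 x4 E f12 f23 f34 f14) {x : ℝ} (hx : x = x1 ∨ x = x2 ∨ x = x3 ∨ x = x4)
    {g : ℂ → ℂ} (hg : g ∈ ({f12, f23, f34, f14} : Set (ℂ → ℂ))) :
    ∃ v : ℂ, Tendsto g (𝓝[HP] (x : ℂ)) (𝓝 v) := by
  have hn := h.nice h12 h23 h34
  have hxS : x ∈ (FR x1 x2 x3 x4 h12 h23 h34).S := by
    show x ∈ ({x1, x2, x3, x4} : Finset ℝ)
    simpa using hx
  obtain ⟨r, hr, P0, P1, Q, κ, hP0, hP1, hQ, hz, e0, e1, e2⟩ := hn.mark x hxS
  have hdet := (FR x1 x2 x3 x4 h12 h23 h34).det_ne x hxS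
  set N := (FR x1 x2 x3 x4 h12 h23 h34).N x with hN
  have hlim : ∀ {P : ℂ → ℂ}, DifferentiableOn ℂ P (ball (x : ℂ) r) →
      Tendsto P (𝓝[HP] (x : ℂ)) (𝓝 (P x)) := fun {P} hP =>
    ((hP.differentiableAt (ball_mem_nhds _ hr)).continuousAt).tendsto.mono_left
      nhdsWithin_le_nhds
  have hev : ∀ {a b : ℂ → ℂ}, (∀ z ∈ ball (x : ℂ) r, z ∈ HP → a z = b z) →
      b =ᶠ[𝓝[HP] (x : ℂ)] a := by
    intro a b hab
    filter_upwards [self_mem_nhdsWithin, nhdsWithin_le_nhds (ball_mem_nhds (x : ℂ) hr)]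
      with z h3 h4
    exact (hab z h4 h3).symm
  set R : ℂ → ℂ := dslope P1 x with hR
  have hRd : DifferentiableOn ℂ R (ball (x : ℂ) r) := by
    rw [hR, Complex.differentiableOn_dslope (ball_mem_nhds _ hr)]
    exact hP1
  have hRe : ∀ z, P1 z = (z - x) * R z := by
    intro z
    have := sub_smul_dslope P1 (x : ℂ) z
    rw [hz, sub_zero, smul_eq_mul] at this
    exact this.symm
  have t2 : Tendsto (fun z => Q z + κ * R z * ((z - x) * Complex.log (z - x)))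
      (𝓝[HP] (x : ℂ)) (𝓝 (Q x + κ * R x * 0)) :=
    (hlim hQ).add ((tendsto_const_nhds.mul (hlim hRd)).mul (log_small x))
  have c0 := (hlim hP0).congr' (hev e0)
  have c1 := (hlim hP1).congr' (hev e1)
  have c2 : Tendsto (fun z => N.mulVec (vec f12 f23 f34 z) 2) (𝓝[HP] (x : ℂ))
      (𝓝 (Q x + κ * R x * 0)) := by
    refine t2.congr' (hev fun z hz hzH => ?_)
    rw [e2 z hz hzH, hRe z]
    ring
  have hvec : ∀ i, ∃ v, Tendsto (fun z => vec f12 f23 f34 z i) (𝓝[HP] (x : ℂ)) (𝓝 v) := by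
    intro i
    refine ⟨N⁻¹ i 0 * P0 x + N⁻¹ i 1 * P1 x + N⁻¹ i 2 * (Q x + κ * R x * 0), ?_⟩
    have h1 := ((c0.const_mul (N⁻¹ i 0)).add (c1.const_mul (N⁻¹ i 1))).add
      (c2.const_mul (N⁻¹ i 2))
    refine h1.congr fun z => ?_
    have h2 := congrFun (inv_mulVec hdet (vec f12 f23 f34 z)) i
    rw [← h2]
    simp only [Matrix.mulVec, dotProduct, Fin.sum_univ_three]
  obtain ⟨v0, hv0⟩ := hvec 0
  obtain ⟨v1, hv1⟩ := hvec 1
  obtain ⟨v2, hv2⟩ := hvec 2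
  have l23 : Tendsto f23 (𝓝[HP] (x : ℂ)) (𝓝 v0) := hv0
  have l34 : Tendsto f34 (𝓝[HP] (x : ℂ)) (𝓝 v1) := hv1
  have l12 : Tendsto f12 (𝓝[HP] (x : ℂ)) (𝓝 v2) := hv2
  rcases hg with rfl | rfl | rfl | rfl
  · exact ⟨_, l12⟩
  · exact ⟨_, l23⟩
  · exact ⟨_, l34⟩
  · refine ⟨-(w * v0 + v1 + w ^ 2 * v2), ?_⟩
    have h1 := (((l23.const_mul w).add l34).add (l12.const_mul (w ^ 2))).neg
    refine h1.congr' ?_
    filter_upwards [self_mem_nhdsWithin] with z hz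
    linear_combination -(h.rel z hz)

/-- **Ratios of the limits at a point do not depend on the solution.** -/
theorem Sol4.ratio (h12 : x1 < x2) (h23 : x2 < x3) (h34 : x3 < x4)
    (h : Sol4 x1 x2 x3 x4 E f12 f23 f34 f14) (k : Sol4 x1 x2 x3 x4 E' g12 g23 g34 g14)
    {x : ℝ} {A12 A23 B12 B23 : ℂ}
    (a12 : Tendsto f12 (𝓝[HP] (x : ℂ)) (𝓝 A12)) (a23 : Tendsto f23 (𝓝[HP] (x : ℂ)) (𝓝 A23))
    (b12 : Tendsto g12 (𝓝[HP] (x : ℂ)) (𝓝 B12)) (b23 : Tendsto g23 (𝓝[HP] (x : ℂ)) (𝓝 B23)) :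
    A12 * B23 = A23 * B12 := by
  obtain ⟨a, b, hab, hz⟩ := Sol4.uniq h12 h23 h34 h k
  have e1 : (a : ℂ) * A12 + b * B12 = 0 := by
    refine tendsto_nhds_unique ((a12.const_mul (a : ℂ)).add (b12.const_mul (b : ℂ))) ?_
    refine tendsto_const_nhds.congr' ?_
    filter_upwards [self_mem_nhdsWithin] with z hzH
    exact (hz z hzH).1.symm
  have e2 : (a : ℂ) * A23 + b * B23 = 0 := by
    refine tendsto_nhds_unique ((a23.const_mul (a : ℂ)).add (b23.const_mul (b : ℂ))) ?_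
    refine tendsto_const_nhds.congr' ?_
    filter_upwards [self_mem_nhdsWithin] with z hzH
    exact (hz z hzH).2.1.symm
  rcases hab with h1 | h1
  · have haC : (a : ℂ) ≠ 0 := by exact_mod_cast h1
    refine mul_left_cancel₀ haC ?_
    linear_combination B23 * e1 - B12 * e2
  · have hbC : (b : ℂ) ≠ 0 := by exact_mod_cast h1
    refine mul_left_cancel₀ hbC ?_
    linear_combination A12 * e2 - A23 * e1

end H87.FM
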