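import Mathlib
import Pool.Agent.H87.FM.LimA
import Pool.Agent.H21.FM.Inter

set_option autoImplicit false
open Set Filter Topology

/-! # The limit passage for the primitives on the tile grid (four marks)

`limOK`: from the Hoelder bound `HoldOK` and `N1` the normalised primitives of tile polygons converge
along ultrafilters to functions which are continuous on the closed polygon and holomorphic inside. -/

namespace Pool.Agent.H87.FM

open Pool.Agent.H75.Perc (dir dir_cases lab vx nxC in1 in2 Bx mem_Bx lab_in1 lab_in2)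
open Pool.Agent.H75.TwoArm (plab fi)
open Pool.Agent.Q1 (Env N1 AP PrimAt)
open Pool.Agent.Q1.M4
open Pool.Agent.H33.Q1 (lt tt ct TL tf tv)
open Pool.Agent.H21.FM (GPrim inG HoldOK IsLim4 LimOK bp)

/-- the unit grid -/
abbrev gx : ℤ → ℝ := fun i => (i : ℝ)

lemma gx_mono : StrictMono gx := fun a b h => by
  have : (a : ℝ) < (b : ℝ) := by exact_mod_cast h
  exact this

lemma plab_nxC' (c : ℤ × ℤ) : plab (nxC c) = Pool.Agent.H75.Perc.lab c := by
  obtain ⟨a, b⟩ := c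
  rcases Int.emod_two_eq_zero_or_one a with ha | ha <;>
    rcases Int.emod_two_eq_zero_or_one b with hb | hb <;>
    simp [plab, nxC, Pool.Agent.H75.Perc.lab, ha, hb] <;> omega

/-- `lat` of a vertex in the tile frame -/
lemma lat_tv (v : ℤ × ℤ) : lat (tv v) = (1 - Complex.I) * lat v := by
  apply Complex.ext <;> simp [lat, tv, Complex.mul_re, Complex.mul_im] <;> ring

/-- scale -/
noncomputable def Rs (hs : ℕ → ℕ) (j : ℕ) : ℝ := 2 * (hs j : ℝ)

lemma Rs_top {hs : ℕ → ℕ} (h : Tendsto hs atTop atTop) : Tendsto (Rs hs) atTop atTop := by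
  unfold Rs
  exact (tendsto_natCast_atTop_atTop.comp h).const_mul_atTop (by norm_num)

/-- the lattice grid lines -/
def Xs (hs : ℕ → ℕ) (j : ℕ) : ℤ → ℤ := fun i => 2 * (hs j : ℤ) * i

lemma approx_s {hs : ℕ → ℕ} (h : Tendsto hs atTop atTop) :
    Approx gx gx (Rs hs) (Xs hs) (Xs hs) := by
  have key : ∀ i : ℤ, Tendsto (fun j => ((Xs hs j i : ℤ) : ℝ) / Rs hs j) atTop (𝓝 (gx i)) := by
    intro i
    refine tendsto_const_nhds.congr' ?_
    filter_upwards [(Rs_top h).eventually_gt_atTop 0] with j hj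
    rw [eq_div_iff hj.ne']
    unfold Xs gx Rs
    push_cast
    ring
  exact ⟨Rs_top h, key, key⟩

/-- a tile whose centre is in the region is a tile of the region -/
lemma lt_mem_of_reg {Q : Finset Cell} {h : ℕ} (hh : 0 < h) {p : ℤ × ℤ}
    (hz : (lat p + ⟨1 / 2, 1 / 2⟩) / ((2 * (h : ℝ) : ℝ) : ℂ) ∈ Reg Q gx gx) :
    lt p ∈ TL Q (2 * h) := by
  have hR : (0 : ℝ) < 2 * (h : ℝ) := by positivity
  obtain ⟨c, hc, hzc⟩ := hz
  have hn : (0 : ℤ) < 2 * (h : ℤ) := by positivity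
  rw [Pool.Agent.H33.Q1.lt_mem_TL hn]
  have key : ∀ (a : ℤ) (k : ℤ), ((k : ℝ) ≤ ((a : ℝ) + 1 / 2) / (2 * (h : ℝ)) →
      k * (2 * (h : ℤ)) ≤ a) ∧ (((a : ℝ) + 1 / 2) / (2 * (h : ℝ)) ≤ ((k + 1 : ℤ) : ℝ) →
      a < k * (2 * (h : ℤ)) + 2 * (h : ℤ)) := by
    intro a k
    constructor
    · intro h1
      rw [le_div_iff₀ hR] at h1
      by_contra h2
      push Not at h2
      have h3 : a + 1 ≤ k * (2 * (h : ℤ)) := h2
      have h4 : (a : ℝ) + 1 ≤ k * (2 * (h : ℝ)) := by exact_mod_cast h3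
      linarith
    · intro h1
      rw [div_le_iff₀ hR] at h1
      by_contra h2
      push Not at h2
      have h4 : (k : ℝ) * (2 * (h : ℝ)) + 2 * (h : ℝ) ≤ a := by exact_mod_cast h2
      push_cast at h1
      linarith
  obtain ⟨⟨h1, h2⟩, h3, h4⟩ := hzc
  rw [Complex.div_ofReal_re] at h1 h2
  rw [Complex.div_ofReal_im] at h3 h4
  simp only [lat, Complex.add_re, Complex.add_im] at h1 h2 h3 h4
  have e : ct (2 * h) p = c :=
    Pool.Agent.H33.Q1.ct_of hn ((key _ _).1 h1) ((key _ _).2 h2) ((key _ _).1 h3) ((key _ _).2 h4)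
  rw [e]
  exact hc

/-- boxes of the primal lattice in the tile polygon -/
lemma Bx_sub {Q : Finset Cell} {h : ℕ} (hh : 0 < h) {w : ℤ × ℤ} {N : ℕ} {z : ℂ} {δ : ℝ}
    (hball : Metric.ball z δ ⊆ Reg Q gx gx)
    (hN : ‖lat (tv w) / ((2 * (h : ℝ) : ℝ) : ℂ) - z‖ + 4 * (N : ℝ) / (2 * (h : ℝ)) < δ) :
    Bx (w.1 - N) (w.1 + N) (w.2 - N) (w.2 + N) ⊆ TL Q (2 * h) := by
  intro e he
  rw [mem_Bx] at he
  obtain ⟨⟨h1, h2⟩, ⟨h3, h4⟩, h5⟩ := he
  rw [← Pool.Agent.H33.Q1.lt_tt h5]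
  apply lt_mem_of_reg hh
  apply hball
  rw [Metric.mem_ball, dist_eq_norm]
  have hR : (0 : ℝ) < 2 * (h : ℝ) := by positivity
  have e1 : (lat (tt e) + ⟨1 / 2, 1 / 2⟩) / ((2 * (h : ℝ) : ℝ) : ℂ) - z =
      (lat (tv w) / ((2 * (h : ℝ) : ℝ) : ℂ) - z) +
      ((lat (tt e) + ⟨1 / 2, 1 / 2⟩) - lat (tv w)) / ((2 * (h : ℝ) : ℝ) : ℂ) := by ring
  rw [e1]
  refine (norm_add_le _ _).trans_lt (lt_of_le_of_lt ?_ hN)
  refine add_le_add le_rfl ?_
  rw [norm_div, Complex.norm_real, Real.norm_of_nonneg hR.le]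
  refine div_le_div_of_nonneg_right ?_ hR.le
  refine (Complex.norm_le_abs_re_add_abs_im _).trans ?_
  have c1 : (2 : ℝ) * ((tt e).1 : ℝ) = e.1 + e.2 - 1 := by
    have : 2 * (tt e).1 = e.1 + e.2 - 1 := by unfold tt; simp only; omega
    exact_mod_cast this
  have c2 : (2 : ℝ) * ((tt e).2 : ℝ) = e.2 - e.1 - 1 := by
    have : 2 * (tt e).2 = e.2 - e.1 - 1 := by unfold tt; simp only; omega
    exact_mod_cast this
  have k1 : ((2 : ℝ) * (w.1 - N) ≤ e.1) ∧ ((e.1 : ℝ) ≤ 2 * (w.1 + N)) := by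
    constructor
    · exact_mod_cast h1
    · exact_mod_cast h2
  have k2 : ((2 : ℝ) * (w.2 - N) ≤ e.2) ∧ ((e.2 : ℝ) ≤ 2 * (w.2 + N)) := by
    constructor
    · exact_mod_cast h3
    · exact_mod_cast h4
  have a1 : |((lat (tt e) + ⟨1 / 2, 1 / 2⟩) - lat (tv w)).re| ≤ 2 * N := by
    simp only [lat, tv, Complex.sub_re, Complex.add_re]
    push_cast
    rw [abs_le]
    constructor <;> linarith [k1.1, k1.2, k2.1, k2.2]
  have a2 : |((lat (tt e) + ⟨1 / 2, 1 / 2⟩) - lat (tv w)).im| ≤ 2 * N := by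
    simp only [lat, tv, Complex.sub_im, Complex.add_im]
    push_cast
    rw [abs_le]
    constructor <;> linarith [k1.1, k1.2, k2.1, k2.2]
  linarith

/-- the restriction of a primitive on the tile grid to a box of the primal lattice -/
lemma prim_of_gprim {X : Env} {Ht : ℤ × ℤ → ℂ} (hG : GPrim X Ht) {a b c d : ℤ}
    (hB : Bx a b c d ⊆ X.E) : X.Prim a b c d (fun v => Ht (tv v)) (fun f => Ht (tf f)) := by
  intro e he k hk
  have ho : (e.1 + e.2) % 2 = 1 := (mem_Bx.1 he).2.2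
  apply hG
  rcases hk with rfl | rfl | rfl | rfl
  · left; rw [lab_in1 e ho]; exact hB he
  · left; rw [lab_in2 e ho]; exact hB he
  · right; rw [plab_nxC', lab_in1 e ho]; exact hB he
  · right; rw [plab_nxC', lab_in2 e ho]; exact hB he

/-- even lattice points near a point of the tile frame -/
noncomputable def ew (R : ℕ → ℝ) (z : ℂ) (j : ℕ) : ℤ × ℤ :=
  (⌊R j * ((z.re - z.im) / 2)⌋, ⌊R j * ((z.re + z.im) / 2)⌋)

lemma ew_tendsto {R : ℕ → ℝ} (hR : Tendsto R atTop atTop) (z : ℂ) :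
    Tendsto (fun j => lat (tv (ew R z j)) / (R j : ℂ)) atTop (𝓝 z) := by
  have h1 : Tendsto (fun j => lat (ew R z j) / (R j : ℂ)) atTop
      (𝓝 (⟨(z.re - z.im) / 2, (z.re + z.im) / 2⟩ : ℂ)) :=
    lat_div_tendsto (floor_div_tendsto hR _) (floor_div_tendsto hR _)
  have h2 := h1.const_mul (1 - Complex.I)
  have e : (1 - Complex.I) * (⟨(z.re - z.im) / 2, (z.re + z.im) / 2⟩ : ℂ) = z := by
    apply Complex.ext <;> simp [Complex.mul_re, Complex.mul_im] <;> ring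
  rw [e] at h2
  refine h2.congr fun j => ?_
  rw [lat_tv, mul_div_assoc]

/-- displacement by `(n, n)` -/
lemma lat_tv_add (w : ℤ × ℤ) (n : ℤ) : lat (tv (w.1 + n, w.2 + n)) = lat (tv w) + 2 * (n : ℂ) := by
  apply Complex.ext <;> simp [lat, tv] <;> ring

/-- displacement by `(n, -n)` -/
lemma lat_tv_sub (w : ℤ × ℤ) (n : ℤ) :
    lat (tv (w.1 + n, w.2 - n)) = lat (tv w) - 2 * (n : ℂ) * Complex.I := by
  apply Complex.ext <;> simp [lat, tv] <;> ring

/-- The data of the sequence. -/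
lemma hd_of {P : PType} {K : Env → Prop} (hH : HoldOK P K) {hs : ℕ → ℕ}
    (hs_top : Tendsto hs atTop atTop) {X : ℕ → Env} {Ht : ℕ → ℤ × ℤ → ℂ}
    (hX : ∀ᶠ j in atTop, K (X j) ∧ (X j).E = TL P.Q (2 * hs j) ∧ GPrim (X j) (Ht j)) :
    HD P gx gx (Rs hs) (Xs hs) (Xs hs) (fun j => Pool.Agent.H21.FM.nrm P (hs j) (Ht j)) where
  approx := approx_s hs_top
  base := fun j => by
    unfold Pool.Agent.H21.FM.nrm bp
    have : lpt (Xs hs j) (Xs hs j) (P.vert 0) =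
      lpt (fun i => 2 * (hs j : ℤ) * i) (fun i => 2 * (hs j : ℤ) * i) (P.vert 0) := rfl
    rw [this, sub_self, mul_zero]
  hold := by
    obtain ⟨C, hC, δ, hδ, h0, hold⟩ := hH
    refine ⟨C, hC, δ / 2, by positivity, ?_⟩
    filter_upwards [hX, hs_top.eventually_ge_atTop h0, (Rs_top hs_top).eventually_gt_atTop 0] with
      j h1 h2 h3 v v' hv hv' hvv
    have h4 := hold (hs j) h2 (X j) h1.1 h1.2.1 (Ht j) h1.2.2 v v' hv hv' (by
      refine hvv.trans (le_of_eq ?_)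
      unfold Rs; ring)
    unfold Pool.Agent.H21.FM.nrm
    rw [← mul_sub, norm_mul, Complex.norm_real, Real.norm_of_nonneg (by positivity)]
    have e1 : Ht j v - Ht j (bp P (hs j)) - (Ht j v' - Ht j (bp P (hs j))) = Ht j v - Ht j v' := by
      ring
    rw [e1]
    have hpos : (0 : ℝ) < 2 * (hs j : ℝ) := h3
    calc (2 * (hs j : ℝ)) ^ (-(2 / 3) : ℝ) * ‖Ht j v - Ht j v'‖
        ≤ (2 * (hs j : ℝ)) ^ (-(2 / 3) : ℝ) * (C * ‖lat v - lat v'‖ ^ (2 / 3 : ℝ)) :=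
          mul_le_mul_of_nonneg_left h4 (by positivity)
      _ = C * (‖lat v - lat v'‖ / Rs hs j) ^ (2 / 3 : ℝ) := by
          unfold Rs
          rw [Real.div_rpow (norm_nonneg _) hpos.le, Real.rpow_neg hpos.le]
          field_simp

/-- The weak Cauchy-Riemann relation of the limit. -/
lemma weak_cr {P : PType} {K : Env → Prop} (hN : N1 K) {hs : ℕ → ℕ}
    (hs_top : Tendsto hs atTop atTop) {X : ℕ → Env} {Ht : ℕ → ℤ × ℤ → ℂ}
    (hX : ∀ᶠ j in atTop, K (X j) ∧ (X j).E = TL P.Q (2 * hs j) ∧ GPrim (X j) (Ht j))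
    {U : Filter ℕ} [U.NeBot] (hU : U ≤ atTop) {g : ℂ → ℂ}
    (hg : ∀ z ∈ Reg P.Q gx gx, IsLim P (Rs hs) (Xs hs) (Xs hs)
      (fun j => Pool.Agent.H21.FM.nrm P (hs j) (Ht j)) U z (g z))
    {L : Set ℂ} (hL : L ⊆ Om P.Q gx gx) (hLc : IsCompact L) {ε : ℝ} (hε : 0 < ε) :
    ∃ t0 > 0, ∀ t : ℝ, 0 < t → t < t0 → ∀ z ∈ L,
      ‖g (z + t * Complex.I * (-Complex.I)) - g z -
        Complex.I * (g (z + t * (-Complex.I)) - g z)‖ ≤ ε * t := by
  obtain ⟨δ, hδ, hth⟩ := hLc.exists_thickening_subset_open (isOpen_Om _ _ _) hL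
  set r : ℝ := δ / 8 with hr
  have hr0 : 0 < r := by positivity
  have hr3 : 0 < r ^ (-(1 / 3) : ℝ) := by positivity
  obtain ⟨ρ0, hρ0, hN⟩ := hN (ε / r ^ (-(1 / 3) : ℝ)) (by positivity)
  refine ⟨min (ρ0 * r) (δ / 2), by positivity, fun t ht htt z hz => ?_⟩
  rw [lt_min_iff] at htt
  obtain ⟨N0, hN0⟩ := hN (t / (4 * r)) (by positivity)
  have hRU : Tendsto (Rs hs) U atTop := (Rs_top hs_top).mono_left hU
  -- points of the domain
  have hball : Metric.ball z δ ⊆ Om P.Q gx gx := by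
    intro w hw
    apply hth
    rw [Metric.mem_thickening_iff]
    exact ⟨z, hz, hw⟩
  have hmem : ∀ a : ℂ, ‖a‖ = 1 → z + t * a ∈ Om P.Q gx gx := by
    intro a ha
    apply hball
    rw [Metric.mem_ball, dist_eq_norm, add_sub_cancel_left, norm_mul, Complex.norm_real,
      Real.norm_of_nonneg ht.le, ha, mul_one]
    linarith [htt.2]
  -- sequences
  set w : ℕ → ℤ × ℤ := fun j => ew (Rs hs) z j with hw
  set n : ℕ → ℕ := fun j => ⌊t / 2 * Rs hs j⌋₊ with hn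
  set N : ℕ → ℕ := fun j => ⌊r * Rs hs j⌋₊ with hNd
  have cw : Tendsto (fun j => lat (tv (w j)) / (Rs hs j : ℂ)) U (𝓝 z) :=
    (ew_tendsto (Rs_top hs_top) z).mono_left hU
  have cn : Tendsto (fun j => ((n j : ℕ) : ℝ) / Rs hs j) U (𝓝 (t / 2)) :=
    nat_floor_tendsto hRU (by positivity)
  have cN : Tendsto (fun j => ((N j : ℕ) : ℝ) / Rs hs j) U (𝓝 r) :=
    nat_floor_tendsto hRU hr0.le
  have cw1 : Tendsto (fun j => lat (tv ((w j).1 + n j, (w j).2 + n j)) / (Rs hs j : ℂ)) U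
      (𝓝 (z + t * Complex.I * (-Complex.I))) := by
    have h1 : Tendsto (fun j => lat (tv (w j)) / (Rs hs j : ℂ) +
        2 * ((((n j : ℕ) : ℝ) / Rs hs j : ℝ) : ℂ)) U (𝓝 (z + 2 * ((t / 2 : ℝ) : ℂ))) :=
      cw.add (((Complex.continuous_ofReal.tendsto _).comp cn).const_mul 2)
    have e : z + 2 * ((t / 2 : ℝ) : ℂ) = z + t * Complex.I * (-Complex.I) := by
      have : Complex.I * Complex.I = -1 := Complex.I_mul_I
      push_cast
      linear_combination (t : ℂ) * this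
    rw [e] at h1
    refine h1.congr fun j => ?_
    rw [lat_tv_add]
    push_cast
    ring
  have cw2 : Tendsto (fun j => lat (tv ((w j).1 + n j, (w j).2 - n j)) / (Rs hs j : ℂ)) U
      (𝓝 (z + t * (-Complex.I))) := by
    have h1 : Tendsto (fun j => lat (tv (w j)) / (Rs hs j : ℂ) -
        2 * ((((n j : ℕ) : ℝ) / Rs hs j : ℝ) : ℂ) * Complex.I) U
        (𝓝 (z - 2 * ((t / 2 : ℝ) : ℂ) * Complex.I)) :=
      cw.sub ((((Complex.continuous_ofReal.tendsto _).comp cn).const_mul 2).mul_const _)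
    have e : z - 2 * ((t / 2 : ℝ) : ℂ) * Complex.I = z + t * (-Complex.I) := by
      push_cast
      ring
    rw [e] at h1
    refine h1.congr fun j => ?_
    rw [lat_tv_sub]
    push_cast
    ring
  have hz1 : z + t * Complex.I * (-Complex.I) ∈ Om P.Q gx gx := by
    have := hmem (Complex.I * (-Complex.I)) (by simp)
    rwa [← mul_assoc] at this
  have hz2 : z + t * (-Complex.I) ∈ Om P.Q gx gx := hmem _ (by simp)
  have hap : ∀ {ζ : ℂ} {v : ℕ → ℤ × ℤ}, ζ ∈ Om P.Q gx gx →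
      Tendsto (fun j => lat (v j) / (Rs hs j : ℂ)) U (𝓝 ζ) →
      Appr P (Rs hs) (Xs hs) (Xs hs) U ζ v := by
    intro ζ v hζ hv
    refine ⟨?_, hv⟩
    obtain ⟨r', hr', h1⟩ := near_inV gx_mono gx_mono (approx_s hs_top) hζ
    filter_upwards [hU h1, near_of_tendsto hv (Metric.mem_ball_self hr')] with j h2 h3
    exact h2 _ h3
  have l0 := hg z (Om_subset _ _ _ (hL hz)) _ (hap (hL hz) cw)
  have l1 := hg _ (Om_subset _ _ _ hz1) _ (hap hz1 cw1)
  have l2 := hg _ (Om_subset _ _ _ hz2) _ (hap hz2 cw2)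
  have hl := ((l1.sub l0).sub ((l2.sub l0).const_mul Complex.I)).norm
  -- the bound
  have hb : Tendsto (fun j => ε / r ^ (-(1 / 3) : ℝ) * (((n j : ℕ) : ℝ) / Rs hs j) *
      (((N j : ℕ) : ℝ) / Rs hs j) ^ (-(1 / 3) : ℝ)) U
      (𝓝 (ε / r ^ (-(1 / 3) : ℝ) * (t / 2) * r ^ (-(1 / 3) : ℝ))) :=
    (cn.const_mul _).mul (cN.rpow_const (Or.inl hr0.ne'))
  have hfin : ε / r ^ (-(1 / 3) : ℝ) * (t / 2) * r ^ (-(1 / 3) : ℝ) ≤ ε * t := by
    have : ε / r ^ (-(1 / 3) : ℝ) * (t / 2) * r ^ (-(1 / 3) : ℝ) = ε * t / 2 := by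
      field_simp
    rw [this]
    have := mul_pos hε ht
    linarith
  refine (le_of_tendsto_of_tendsto hl hb ?_).trans hfin
  have hclose : ∀ᶠ j in U, ‖lat (tv (w j)) / (Rs hs j : ℂ) - z‖ < δ / 4 :=
    near_of_tendsto cw (Metric.mem_ball_self (by positivity))
  have hNr : ∀ᶠ j in U, ((N j : ℕ) : ℝ) / Rs hs j < δ / 6 := cN.eventually_lt_const (by
    rw [hr]; linarith)
  have hNr' : ∀ᶠ j in U, r / 2 < ((N j : ℕ) : ℝ) / Rs hs j := cN.eventually_const_lt (by linarith)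
  have hnlow : ∀ᶠ j in U, t / (4 * r) * (((N j : ℕ) : ℝ) / Rs hs j) < ((n j : ℕ) : ℝ) / Rs hs j := by
    refine (cN.const_mul (t / (4 * r))).eventually_lt cn ?_
    have : t / (4 * r) * r = t / 4 := by field_simp
    rw [this]; linarith
  have hnup : ∀ᶠ j in U, ((n j : ℕ) : ℝ) / Rs hs j < ρ0 * (((N j : ℕ) : ℝ) / Rs hs j) := by
    refine cn.eventually_lt (cN.const_mul ρ0) ?_
    linarith [htt.1]
  filter_upwards [hU hX, hclose, hNr, hNr', hnlow, hnup, hRU.eventually_gt_atTop 0,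
    hRU.eventually_gt_atTop (2 * (N0 : ℝ) / r)] with j hXj h1 h2 h3 h4 h5 h6 h7
  have hspos : 0 < hs j := by
    rcases Nat.eq_zero_or_pos (hs j) with h | h
    · exfalso
      unfold Rs at h6
      rw [h] at h6
      simp at h6
    · exact h
  have hBx : Bx ((w j).1 - N j) ((w j).1 + N j) ((w j).2 - N j) ((w j).2 + N j) ⊆ (X j).E := by
    rw [hXj.2.1]
    refine Bx_sub hspos (z := z) (δ := δ) (hball.trans (Om_subset _ _ _)) ?_
    have e1 : 4 * (N j : ℝ) / (2 * (hs j : ℝ)) = 4 * ((N j : ℝ) / Rs hs j) := by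
      unfold Rs; ring
    rw [e1]
    have e2 : ‖lat (tv (w j)) / ((2 * (hs j : ℝ) : ℝ) : ℂ) - z‖ < δ / 4 := h1
    linarith
  have hNN : N0 ≤ N j := by
    have a1 : (N0 : ℝ) < r / 2 * Rs hs j := by
      rw [div_lt_iff₀ hr0] at h7
      linarith
    have a2 : r / 2 * Rs hs j < N j := by
      rwa [lt_div_iff₀ h6] at h3
    have : (N0 : ℝ) < N j := a1.trans a2
    exact_mod_cast this.le
  have b1 : t / (4 * r) * (N j : ℝ) ≤ n j := by
    rw [← mul_div_assoc, div_lt_div_iff_of_pos_right h6] at h4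
    exact h4.le
  have b2 : ((n j : ℕ) : ℝ) ≤ ρ0 * N j := by
    rw [← mul_div_assoc, div_lt_div_iff_of_pos_right h6] at h5
    exact h5.le
  have key := hN0 (N j) (n j) hNN b1 b2 (X j) hXj.1 (w j).1 (w j).2 hBx _ _
    (prim_of_gprim hXj.2.2 hBx)
  unfold Pool.Agent.H21.FM.nrm
  have e3 : ∀ a b c s B : ℂ, s * (a - B) - s * (b - B) - Complex.I * (s * (c - B) - s * (b - B)) =
      s * ((a - b) - Complex.I * (c - b)) := by intro a b c s B; ring
  rw [e3, norm_mul, Complex.norm_real, Real.norm_of_nonneg (by positivity)]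
  have hNpos : (0 : ℝ) < N j := by
    have := lt_trans (by positivity : (0 : ℝ) < r / 2) h3
    exact (div_pos_iff_of_pos_right h6).1 this
  calc (2 * (hs j : ℝ)) ^ (-(2 / 3) : ℝ) *
        ‖Ht j (tv ((w j).1 + n j, (w j).2 + n j)) - Ht j (tv (w j)) -
          Complex.I * (Ht j (tv ((w j).1 + n j, (w j).2 - n j)) - Ht j (tv (w j)))‖
      ≤ (2 * (hs j : ℝ)) ^ (-(2 / 3) : ℝ) * (ε / r ^ (-(1 / 3) : ℝ) * (n j : ℝ) *
          (N j : ℝ) ^ (-(1 / 3) : ℝ)) := mul_le_mul_of_nonneg_left key (by positivity)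
    _ = ε / r ^ (-(1 / 3) : ℝ) * ((n j : ℝ) / Rs hs j) *
          ((N j : ℝ) / Rs hs j) ^ (-(1 / 3) : ℝ) := by
        have e4 : Rs hs j = 2 * (hs j : ℝ) := rfl
        rw [← e4, Real.div_rpow hNpos.le h6.le]
        have e5 : Rs hs j ^ (-(2 / 3) : ℝ) = (Rs hs j)⁻¹ * (Rs hs j ^ (-(1 / 3) : ℝ))⁻¹ := by
          rw [← Real.rpow_neg h6.le, ← Real.rpow_neg_one, ← Real.rpow_add h6]
          norm_num
        rw [e5]
        field_simp

/-- **The limit passage.** -/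
theorem limOK (P : PType) {K : Env → Prop} (hH : HoldOK P K) (_ : AP K) (hN : N1 K) :
    LimOK P K := by
  classical
  intro hs hs_top X Ht hX U hU
  have D := hd_of hH hs_top hX
  have h0 : ∀ z : ℂ, ∃ a, z ∈ Reg P.Q gx gx → IsLim P (Rs hs) (Xs hs) (Xs hs)
      (fun j => Pool.Agent.H21.FM.nrm P (hs j) (Ht j)) U z a := by
    intro z
    by_cases hz : z ∈ Reg P.Q gx gx
    · obtain ⟨a, ha⟩ := D.exists_isLim gx_mono gx_mono U hU hz
      exact ⟨a, fun _ => ha⟩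
    · exact ⟨0, fun h => absurd h hz⟩
  choose g hg using h0
  obtain ⟨C, hC, r0, hr0, hold⟩ := D.hold_lim gx_mono gx_mono hU hg
  have hcont := continuousOn_of_hold hr0 hold
  refine ⟨g, hcont, ?_, ⟨C, hC, r0, hr0, hold⟩, ?_⟩
  · refine differentiableOn_of_weak (isOpen_Om _ _ _) (hcont.mono (Om_subset _ _ _))
      (u := -Complex.I) (by simp) ?_
    intro L hL hLc ε hε
    exact weak_cr hN hs_top hX hU hg hL hLc hε
  · intro z hz v hv hvz
    exact hg z hz v ⟨hv, hvz⟩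

end Pool.Agent.H87.FM
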