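import Mathlib
import Pool.Agent.H87.FM.LimOK

set_option autoImplicit false
open Set Filter Topology

/-! # The limit passage from `CRA` (chapter E) instead of `N1`

`HolOK P K`: the property `CRA` (approximation by functions with holomorphic limits) of the normalised
primitives on the tile grid; `limOK_of_CRA`: with the Hoelder bound it gives `LimOK`. -/

namespace Pool.Agent.H87.FM

open Pool.Agent.Q1 (Env N1 AP)
open Pool.Agent.Q1.M4
open Pool.Agent.H33.Q1 (TL)
open Pool.Agent.H21.FM (GPrim HoldOK IsLim4 LimOK)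

/-- `CRA` for the normalised primitives on the tile grid, for the class `K`. -/
def HolOK (P : PType) (K : Env → Prop) : Prop :=
  ∀ hs : ℕ → ℕ, Tendsto hs atTop atTop → ∀ (X : ℕ → Env) (Ht : ℕ → ℤ × ℤ → ℂ),
    (∀ᶠ j in atTop, K (X j) ∧ (X j).E = TL P.Q (2 * hs j) ∧ GPrim (X j) (Ht j)) →
    CRA P gx gx (Rs hs) (fun j => Pool.Agent.H21.FM.nrm P (hs j) (Ht j))

/-- The limit passage, for one sequence of environments. -/
theorem exists_lim_of_CRA (P : PType) {K : Env → Prop} (hH : HoldOK P K) {hs : ℕ → ℕ}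
    (hs_top : Tendsto hs atTop atTop) {X : ℕ → Env} {Ht : ℕ → ℤ × ℤ → ℂ}
    (hX : ∀ᶠ j in atTop, K (X j) ∧ (X j).E = TL P.Q (2 * hs j) ∧ GPrim (X j) (Ht j))
    (hC : CRA P gx gx (Rs hs) (fun j => Pool.Agent.H21.FM.nrm P (hs j) (Ht j)))
    (U : Ultrafilter ℕ) (hU : (U : Filter ℕ) ≤ atTop) : ∃ g : ℂ → ℂ, IsLim4 P hs Ht U g := by
  classical
  have D := hd_of hH hs_top hX
  have h0 : ∀ z : ℂ, ∃ a, z ∈ Reg P.Q gx gx → IsLim P (Rs hs) (Xs hs) (Xs hs)
      (fun j => Pool.Agent.H21.FM.nrm P (hs j) (Ht j)) U z a := by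
    intro z
    by_cases hz : z ∈ Reg P.Q gx gx
    · obtain ⟨a, ha⟩ := D.exists_isLim gx_mono gx_mono U hU hz
      exact ⟨a, fun _ => ha⟩
    · exact ⟨0, fun h => absurd h hz⟩
  choose g hg using h0
  obtain ⟨C, hC', r0, hr0, hold⟩ := D.hold_lim gx_mono gx_mono hU hg
  refine ⟨g, continuousOn_of_hold hr0 hold, ?_, ⟨C, hC', r0, hr0, hold⟩, ?_⟩
  · exact holo_of_CRA gx_mono gx_mono (approx_s hs_top) hC U hU hg
  · intro z hz v hv hvz
    exact hg z hz v ⟨hv, hvz⟩

/-- **The limit passage from `CRA`.** -/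
theorem limOK_of_CRA (P : PType) {K : Env → Prop} (hH : HoldOK P K) (hC : HolOK P K) :
    LimOK P K := fun hs hs_top X Ht hX U hU =>
  exists_lim_of_CRA P hH hs_top hX (hC hs hs_top X Ht hX) U hU

end Pool.Agent.H87.FM
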