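import Mathlib

set_option autoImplicit false

/-!
# The four mark boundary value problem in the upper half plane

`x1 < x2 < x3 < x4` are the marks.  The four functions `f12, f23, f34, f14` are the limits of the
parafermionic observables with the outer wirings `12, 23, 34, 14`, multiplied by
`∏ (z - x_k) ^ (1/3)` and with the natural phases divided out.
-/

open Complex Filter Topology Set

namespace H87.FM

/-- open upper half plane -/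
def HP : Set ℂ := {z | 0 < z.im}

/-- closed upper half plane -/
def CH : Set ℂ := {z | 0 ≤ z.im}

/-- `exp (2 π i / 3)` -/
noncomputable def w : ℂ := Complex.exp (2 * Real.pi / 3 * Complex.I)

/-- the marks and the exceptional points (corners) as a set of complex numbers -/
def Sg (x1 x2 x3 x4 : ℝ) (E : Finset ℝ) : Set ℂ :=
  {z | z = x1 ∨ z = x2 ∨ z = x3 ∨ z = x4 ∨ ∃ e ∈ E, z = (e : ℝ)}

/-- A solution of the four mark boundary value problem. -/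
structure Sol4 (x1 x2 x3 x4 : ℝ) (E : Finset ℝ) (f12 f23 f34 f14 : ℂ → ℂ) : Prop where
  h12 : DifferentiableOn ℂ f12 HP
  h23 : DifferentiableOn ℂ f23 HP
  h34 : DifferentiableOn ℂ f34 HP
  h14 : DifferentiableOn ℂ f14 HP
  c12 : ContinuousOn f12 (CH \ Sg x1 x2 x3 x4 E)
  c23 : ContinuousOn f23 (CH \ Sg x1 x2 x3 x4 E)
  c34 : ContinuousOn f34 (CH \ Sg x1 x2 x3 x4 E)
  c14 : ContinuousOn f14 (CH \ Sg x1 x2 x3 x4 E)
  rel : ∀ z ∈ HP, w * f23 z + f34 z + w ^ 2 * f12 z + f14 z = 0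
  /-- `f12` is real to the right of its arc -/
  r12 : ∀ t : ℝ, (t : ℂ) ∉ Sg x1 x2 x3 x4 E → x2 < t → (f12 t).im = 0
  /-- `f12` is in `w ℝ` to the left of its arc -/
  l12 : ∀ t : ℝ, (t : ℂ) ∉ Sg x1 x2 x3 x4 E → t < x1 → (w ^ 2 * f12 t).im = 0
  r23 : ∀ t : ℝ, (t : ℂ) ∉ Sg x1 x2 x3 x4 E → x3 < t → (f23 t).im = 0
  l23 : ∀ t : ℝ, (t : ℂ) ∉ Sg x1 x2 x3 x4 E → t < x2 → (w ^ 2 * f23 t).im = 0
  r34 : ∀ t : ℝ, (t : ℂ) ∉ Sg x1 x2 x3 x4 E → x4 < t → (f34 t).im = 0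
  l34 : ∀ t : ℝ, (t : ℂ) ∉ Sg x1 x2 x3 x4 E → t < x3 → (w ^ 2 * f34 t).im = 0
  /-- `f14` is real on the three arcs `12, 23, 34` -/
  m14 : ∀ t : ℝ, (t : ℂ) ∉ Sg x1 x2 x3 x4 E → x1 < t → t < x4 → (f14 t).im = 0
  /-- removable exceptional points -/
  exc : ∀ e ∈ E, ∀ f ∈ ({f12, f23, f34, f14} : Set (ℂ → ℂ)),
    Tendsto (fun z => (z - (e : ℂ)) * f z) (𝓝[HP] (e : ℂ)) (𝓝 0)
  /-- bounded near the marks -/
  bdd : ∀ x ∈ ({x1, x2, x3, x4} : Set ℝ), ∀ f ∈ ({f12, f23, f34, f14} : Set (ℂ → ℂ)),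
    ∃ C r : ℝ, 0 < r ∧ ∀ z ∈ HP, ‖z - (x : ℂ)‖ < r → ‖f z‖ ≤ C
  /-- growth at infinity -/
  inf : ∀ f ∈ ({f12, f23, f34, f14} : Set (ℂ → ℂ)),
    ∃ C R : ℝ, 0 < R ∧ ∀ z ∈ HP, R < ‖z‖ → ‖f z‖ ≤ C * ‖z‖ ^ (2 / 3 : ℝ)

lemma w_eq : w = -1 / 2 + (Real.sqrt 3 / 2 : ℝ) * Complex.I := by
  unfold w
  have h1 : (2 * (Real.pi : ℂ) / 3 * Complex.I) = ((2 * Real.pi / 3 : ℝ) : ℂ) * Complex.I := by
    push_cast; ring
  rw [h1, Complex.exp_mul_I, ← Complex.ofReal_cos, ← Complex.ofReal_sin]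
  have h2 : (2 * Real.pi / 3 : ℝ) = Real.pi - Real.pi / 3 := by ring
  rw [h2, Real.cos_pi_sub, Real.sin_pi_sub, Real.cos_pi_div_three, Real.sin_pi_div_three]
  push_cast
  ring

lemma w_re : w.re = -1 / 2 := by rw [w_eq]; simp

lemma w_im : w.im = Real.sqrt 3 / 2 := by rw [w_eq]; simp

lemma w_rel : w ^ 2 + w + 1 = 0 := by
  have h3 : ((Real.sqrt 3 : ℝ) : ℂ) ^ 2 = 3 := by
    rw [← Complex.ofReal_pow, Real.sq_sqrt (by norm_num)]; norm_num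
  rw [w_eq]
  push_cast
  linear_combination (1 / 4 * Complex.I ^ 2) * h3 + (3 / 4) * Complex.I_sq

lemma w_sq : w ^ 2 = -1 - w := by linear_combination w_rel

lemma w_cube : w ^ 3 = 1 := by linear_combination (w - 1) * w_rel

lemma w_ne : w ≠ 0 := fun h => by have := w_cube; rw [h] at this; norm_num at this

end H87.FM
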