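import Pool.Agent.H87.FM.Nice

set_option autoImplicit false

/-!
# Abstract uniqueness theorem
-/

open Complex Metric Set Topology Filter
open scoped ComplexConjugate

noncomputable section

namespace H87.FM

/-! ### Infinity -/

lemma tendsto_inv_Inf : Tendsto (fun z : ℂ => z⁻¹) Inf (𝓝 0) := by
  have h1 : Tendsto (fun z : ℂ => z⁻¹) (comap norm atTop) (𝓝 0) := by
    rw [comap_norm_atTop]
    exact tendsto_inv₀_cobounded
  exact h1.mono_left inf_le_left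

lemma tendsto_neg_inv_Inf : Tendsto (fun z : ℂ => -1 / z) Inf (𝓝 0) := by
  have := tendsto_inv_Inf.const_mul (-1)
  rw [mul_zero] at this
  refine this.congr fun z => ?_
  rw [div_eq_mul_inv]

lemma HP_mem_Inf : HP ∈ Inf := mem_Inf.2 ⟨0, fun _ hz _ => hz⟩

lemma ball_mem_Inf {ρ : ℝ} (hρ : 0 < ρ) : ∀ᶠ z in Inf, z ∈ HP ∧ -1 / z ∈ ball (0 : ℂ) ρ :=
  (show ∀ᶠ z in Inf, z ∈ HP from HP_mem_Inf).and
    (tendsto_neg_inv_Inf.eventually (ball_mem_nhds 0 hρ))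

/-- common radius for two solutions at infinity -/
lemma lim_U {ρ : ℝ} (hρ : 0 < ρ) {V : ℂ → ℂ} (hV : DifferentiableOn ℂ V (ball 0 ρ)) :
    Tendsto (fun z => V (-1 / z)) Inf (𝓝 (V 0)) :=
  ((hV.differentiableAt (ball_mem_nhds _ hρ)).continuousAt.tendsto).comp tendsto_neg_inv_Inf

/-- derivative at infinity -/
lemma dv_inf {f : ℂ → Fin 3 → ℂ} {ρ : ℝ} {U : Fin 3 → ℂ → ℂ}
    (hU : ∀ i, DifferentiableOn ℂ (U i) (ball 0 ρ))
    (he : ∀ i, ∀ z ∈ HP, -1 / z ∈ ball (0 : ℂ) ρ → f z i = phi z * U i (-1 / z)) {z : ℂ}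
    (hz : z ∈ HP) (hzb : -1 / z ∈ ball (0 : ℂ) ρ) (i : Fin 3) :
    dv f z i = 2 / 3 * (phi z / z) * U i (-1 / z) + phi z * (1 / z ^ 2) * deriv (U i) (-1 / z) := by
  have h0 := ne_zero_HP hz
  have h1 : HasDerivAt (fun y => U i (-1 / y)) (deriv (U i) (-1 / z) * (1 / z ^ 2)) z :=
    HasDerivAt.comp (h₂ := U i) z
      ((hU i).differentiableAt (isOpen_ball.mem_nhds hzb)).hasDerivAt (hasDerivAt_neg_inv h0)
  have h2 := (hasDerivAt_phi hz).mul h1
  have h3 : (fun y => f y i) =ᶠ[𝓝 z] (phi * fun y => U i (-1 / y)) := by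
    have h4 : ∀ᶠ y in 𝓝 z, -1 / y ∈ ball (0 : ℂ) ρ :=
      (hasDerivAt_neg_inv h0).continuousAt.eventually_mem (isOpen_ball.mem_nhds hzb)
    filter_upwards [HP_open.mem_nhds hz, h4] with y h5 h6
    exact he i y h5 h6
  show deriv (fun y => f y i) z = _
  rw [h3.deriv_eq, h2.deriv]
  ring

lemma D_T1 (p al be : ℂ) (U U1 V : Fin 3 → ℂ) :
    D (p • U) (al • U + be • U1) (p • V) = p * be * p * D U U1 V := by
  simp only [D, Pi.add_apply, Pi.smul_apply, smul_eq_mul]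
  ring

lemma D_T2 (p al be : ℂ) (U U1 V V1 : Fin 3 → ℂ) :
    D (p • U) (al • U + be • U1) (al • V + be • V1) =
      p * be * (al * D U U1 V + be * D U U1 V1) := by
  simp only [D, Pi.add_apply, Pi.smul_apply, smul_eq_mul]
  ring

lemma D_T3 (p a b c d e : ℂ) (V V1 V2 : Fin 3 → ℂ) :
    D (p • V) (a • V + b • V1) (c • V + d • V1 + e • V2) = p * b * e * D V V1 V2 := by
  simp only [D, Pi.add_apply, Pi.smul_apply, smul_eq_mul]
  ring

lemma tendsto_D {l : Filter ℂ} {a b c : ℂ → Fin 3 → ℂ} {u v y : Fin 3 → ℂ}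
    (ha : ∀ i, Tendsto (fun z => a z i) l (𝓝 (u i)))
    (hb : ∀ i, Tendsto (fun z => b z i) l (𝓝 (v i)))
    (hc : ∀ i, Tendsto (fun z => c z i) l (𝓝 (y i))) :
    Tendsto (fun z => D (a z) (b z) (c z)) l (𝓝 (D u v y)) := by
  unfold D
  exact ((((ha 0).mul (((hb 1).mul (hc 2)).sub ((hb 2).mul (hc 1)))).sub
      ((ha 1).mul (((hb 0).mul (hc 2)).sub ((hb 2).mul (hc 0))))).add
      ((ha 2).mul (((hb 0).mul (hc 1)).sub ((hb 1).mul (hc 0)))))

lemma f_inf {f : ℂ → Fin 3 → ℂ} {ρ : ℝ} {U : Fin 3 → ℂ → ℂ}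
    (he : ∀ i, ∀ z ∈ HP, -1 / z ∈ ball (0 : ℂ) ρ → f z i = phi z * U i (-1 / z)) {z : ℂ}
    (hz : z ∈ HP) (hzb : -1 / z ∈ ball (0 : ℂ) ρ) :
    f z = phi z • fun i => U i (-1 / z) := by
  funext i
  rw [he i z hz hzb, Pi.smul_apply, smul_eq_mul]

lemma dv_inf' {f : ℂ → Fin 3 → ℂ} {ρ : ℝ} {U : Fin 3 → ℂ → ℂ}
    (hU : ∀ i, DifferentiableOn ℂ (U i) (ball 0 ρ))
    (he : ∀ i, ∀ z ∈ HP, -1 / z ∈ ball (0 : ℂ) ρ → f z i = phi z * U i (-1 / z)) {z : ℂ}
    (hz : z ∈ HP) (hzb : -1 / z ∈ ball (0 : ℂ) ρ) :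
    dv f z = (2 / 3 * (phi z / z)) • (fun i => U i (-1 / z)) +
      (phi z * (1 / z ^ 2)) • fun i => deriv (U i) (-1 / z) := by
  funext i
  rw [dv_inf hU he hz hzb]
  simp only [Pi.add_apply, Pi.smul_apply, smul_eq_mul]

/-- `T1` at infinity -/
lemma T1_inf {F : Frames} {f h : ℂ → Fin 3 → ℂ} (hf : Nice F f) (hh : Nice F h) :
    ∃ L : ℂ, Tendsto (fun z => D (f z) (dv f z) (h z)) Inf (𝓝 L) := by
  obtain ⟨ρ, hρ, U, hU, he, -⟩ := hf.inf
  obtain ⟨ρ', hρ', V, hV, he', -⟩ := hh.inf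
  have hU1 := fun i => (hU i).deriv isOpen_ball
  refine ⟨_, (tendsto_D (fun i => lim_U hρ (hU i)) (fun i => lim_U hρ (hU1 i))
    (fun i => lim_U hρ' (hV i))).congr' ?_⟩
  filter_upwards [ball_mem_Inf hρ, ball_mem_Inf hρ'] with z hz hz'
  have h0 := ne_zero_HP hz.1
  rw [f_inf he hz.1 hz.2, dv_inf' hU he hz.1 hz.2, f_inf he' hz.1 hz'.2, D_T1]
  have h4 : phi z * (phi z * (1 / z ^ 2)) * phi z = 1 := by
    have h3 := phi_cube hz.1
    have : phi z * (phi z * (1 / z ^ 2)) * phi z = phi z ^ 3 * (1 / z ^ 2) := by ring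
    rw [this, h3]
    field_simp
  rw [h4, one_mul]

/-- `T2` at infinity -/
lemma T2_inf {F : Frames} {f h : ℂ → Fin 3 → ℂ} (hf : Nice F f) (hh : Nice F h) :
    Tendsto (fun z => D (f z) (dv f z) (dv h z)) Inf (𝓝 0) := by
  obtain ⟨ρ, hρ, U, hU, he, -⟩ := hf.inf
  obtain ⟨ρ', hρ', V, hV, he', -⟩ := hh.inf
  have hU1 := fun i => (hU i).deriv isOpen_ball
  have hV1 := fun i => (hV i).deriv isOpen_ball
  have t1 := tendsto_D (fun i => lim_U hρ (hU i)) (fun i => lim_U hρ (hU1 i))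
    (fun i => lim_U hρ' (hV i))
  have t2 := tendsto_D (fun i => lim_U hρ (hU i)) (fun i => lim_U hρ (hU1 i))
    (fun i => lim_U hρ' (hV1 i))
  have t3 := ((tendsto_inv_Inf.const_mul (2 / 3)).mul t1).add
    ((tendsto_inv_Inf.mul tendsto_inv_Inf).mul t2)
  simp only [mul_zero, zero_mul, add_zero] at t3
  refine t3.congr' ?_
  filter_upwards [ball_mem_Inf hρ, ball_mem_Inf hρ'] with z hz hz'
  have h0 := ne_zero_HP hz.1
  rw [f_inf he hz.1 hz.2, dv_inf' hU he hz.1 hz.2, dv_inf' hV he' hz.1 hz'.2, D_T2]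
  have h3 := phi_cube hz.1
  have h4 : phi z * (phi z * (1 / z ^ 2)) * (2 / 3 * (phi z / z)) = 2 / 3 * z⁻¹ := by
    have : phi z * (phi z * (1 / z ^ 2)) * (2 / 3 * (phi z / z)) =
      phi z ^ 3 * (2 / 3 * (1 / z ^ 3)) := by field_simp
    rw [this, h3]
    field_simp
  have h5 : phi z * (phi z * (1 / z ^ 2)) * (phi z * (1 / z ^ 2)) = z⁻¹ * z⁻¹ := by
    have : phi z * (phi z * (1 / z ^ 2)) * (phi z * (1 / z ^ 2)) =
      phi z ^ 3 * (1 / z ^ 4) := by field_simp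
    rw [this, h3]
    field_simp
  rw [mul_add, ← mul_assoc, h4, ← mul_assoc, h5]

/-- `T3` at infinity: if `U 0 = 0` then `z ^ 4 D (f, f', f'') → 0` -/
lemma T3_inf {f : ℂ → Fin 3 → ℂ} {ρ : ℝ} (hρ : 0 < ρ) {U : Fin 3 → ℂ → ℂ}
    (hU : ∀ i, DifferentiableOn ℂ (U i) (ball 0 ρ))
    (he : ∀ i, ∀ z ∈ HP, -1 / z ∈ ball (0 : ℂ) ρ → f z i = phi z * U i (-1 / z))
    (hz : ∀ i, U i 0 = 0) :
    Tendsto (fun z => z ^ 4 * D (f z) (dv f z) (dv (dv f) z)) Inf (𝓝 0) := by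
  set V : Fin 3 → ℂ → ℂ := fun i => dslope (U i) 0 with hV
  have hVd : ∀ i, DifferentiableOn ℂ (V i) (ball 0 ρ) := by
    intro i
    rw [hV]
    simp only
    rw [Complex.differentiableOn_dslope (ball_mem_nhds _ hρ)]
    exact hU i
  have hUV : ∀ i y, U i y = y * V i y := by
    intro i y
    have := sub_smul_dslope (U i) 0 y
    rw [hz i, sub_zero, sub_zero, smul_eq_mul] at this
    exact this.symm
  have hV1 := fun i => (hVd i).deriv isOpen_ball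
  have hV2 := fun i => (hV1 i).deriv isOpen_ball
  -- the scalar
  set ch : ℂ → ℂ := fun z => phi z * (-1 / z) with hch
  have hchd : ∀ z ∈ HP, HasDerivAt ch (-(1 / 3) * (ch z / z)) z := by
    intro z hz
    have h0 := ne_zero_HP hz
    have h1 := (hasDerivAt_phi hz).mul (hasDerivAt_neg_inv h0)
    refine h1.congr_deriv ?_
    simp only [hch]
    field_simp
    ring
  have hchc : ∀ z ∈ HP, ch z ^ 3 = -1 / z := by
    intro z hz
    have h0 := ne_zero_HP hz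
    simp only [hch]
    rw [mul_pow, phi_cube hz]
    field_simp
  have hnear : ∀ z ∈ HP, -1 / z ∈ ball (0 : ℂ) ρ → ∀ᶠ y in 𝓝 z, y ∈ HP ∧ -1 / y ∈ ball (0 : ℂ) ρ := by
    intro z hz hzb
    exact (HP_open.eventually_mem hz).and ((hasDerivAt_neg_inv (ne_zero_HP hz)).continuousAt.eventually_mem
      (isOpen_ball.mem_nhds hzb))
  have hcomp : ∀ {P : ℂ → ℂ}, DifferentiableOn ℂ P (ball 0 ρ) → ∀ z ∈ HP,
      -1 / z ∈ ball (0 : ℂ) ρ → HasDerivAt (fun y => P (-1 / y)) (deriv P (-1 / z) * (1 / z ^ 2)) z := by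
    intro P hP z hz hzb
    exact HasDerivAt.comp (h₂ := P) z
      ((hP).differentiableAt (isOpen_ball.mem_nhds hzb)).hasDerivAt
      (hasDerivAt_neg_inv (ne_zero_HP hz))
  have e0 : ∀ z ∈ HP, -1 / z ∈ ball (0 : ℂ) ρ → ∀ i, f z i = ch z * V i (-1 / z) := by
    intro z hz hzb i
    rw [he i z hz hzb, hUV i]
    simp only [hch]
    ring
  have e1 : ∀ z ∈ HP, -1 / z ∈ ball (0 : ℂ) ρ → ∀ i,
      dv f z i = -(1 / 3) * (ch z / z) * V i (-1 / z) + ch z * (1 / z ^ 2) * deriv (V i) (-1 / z) := by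
    intro z hz hzb i
    have h1 := (hchd z hz).mul (hcomp (hVd i) z hz hzb)
    have h2 : (fun y => f y i) =ᶠ[𝓝 z] (ch * fun y => V i (-1 / y)) := by
      filter_upwards [hnear z hz hzb] with y hy
      exact e0 y hy.1 hy.2 i
    show deriv (fun y => f y i) z = _
    rw [h2.deriv_eq, h1.deriv]
    ring
  have e2 : ∀ z ∈ HP, -1 / z ∈ ball (0 : ℂ) ρ → ∀ i,
      dv (dv f) z i = (4 / 9) * (ch z / z ^ 2) * V i (-1 / z) +
        (-(8 / 3)) * (ch z / z ^ 3) * deriv (V i) (-1 / z) +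
        ch z * (1 / z ^ 4) * deriv (deriv (V i)) (-1 / z) := by
    intro z hz hzb i
    have h0 := ne_zero_HP hz
    have hi1 : HasDerivAt (fun y : ℂ => ch y / y) (-(4 / 3) * (ch z / z ^ 2)) z := by
      refine ((hchd z hz).div (hasDerivAt_id z) h0).congr_deriv ?_
      simp only [id]
      field_simp
      ring
    have hi2 : HasDerivAt (fun y : ℂ => ch y * (1 / y ^ 2)) (-(7 / 3) * (ch z / z ^ 3)) z := by
      have h3 : HasDerivAt (fun y : ℂ => ch y / y ^ 2)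
          ((-(1 / 3) * (ch z / z) * z ^ 2 - ch z * (2 * z)) / (z ^ 2) ^ 2) z := by
        have := (hchd z hz).div ((hasDerivAt_id z).pow 2) (pow_ne_zero 2 h0)
        refine this.congr_deriv ?_
        simp
      have h4 : (fun y : ℂ => ch y * (1 / y ^ 2)) = fun y => ch y / y ^ 2 := by
        funext y; rw [mul_one_div]
      rw [h4]
      refine h3.congr_deriv ?_
      field_simp
      ring
    have h1 := ((hi1.const_mul (-(1 / 3) : ℂ)).mul (hcomp (hVd i) z hz hzb)).add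
      (hi2.mul (hcomp (hV1 i) z hz hzb))
    have h2 : (fun y => dv f y i) =ᶠ[𝓝 z] ((fun y => -(1 / 3) * (ch y / y)) * (fun y => V i (-1 / y)) +
        (fun y => ch y * (1 / y ^ 2)) * fun y => deriv (V i) (-1 / y)) := by
      filter_upwards [hnear z hz hzb] with y hy
      exact e1 y hy.1 hy.2 i
    show deriv (fun y => dv f y i) z = _
    rw [h2.deriv_eq, h1.deriv]
    field_simp
    ring
  have t := tendsto_D (fun i => lim_U hρ (hVd i)) (fun i => lim_U hρ (hV1 i))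
    (fun i => lim_U hρ (hV2 i))
  have t2 := ((tendsto_inv_Inf.pow 3).const_mul (-1)).mul t
  have h0' : (-1 : ℂ) * 0 ^ 3 = 0 := by norm_num
  rw [h0', zero_mul] at t2
  refine t2.congr' ?_
  filter_upwards [ball_mem_Inf hρ] with z hz
  have h0 := ne_zero_HP hz.1
  have a0 : f z = ch z • fun i => V i (-1 / z) := by
    funext i
    rw [e0 z hz.1 hz.2 i, Pi.smul_apply, smul_eq_mul]
  have a1 : dv f z = (-(1 / 3) * (ch z / z)) • (fun i => V i (-1 / z)) +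
      (ch z * (1 / z ^ 2)) • fun i => deriv (V i) (-1 / z) := by
    funext i
    rw [e1 z hz.1 hz.2 i]
    simp only [Pi.add_apply, Pi.smul_apply, smul_eq_mul]
  have a2 : dv (dv f) z = ((4 / 9) * (ch z / z ^ 2)) • (fun i => V i (-1 / z)) +
      ((-(8 / 3)) * (ch z / z ^ 3)) • (fun i => deriv (V i) (-1 / z)) +
      (ch z * (1 / z ^ 4)) • fun i => deriv (deriv (V i)) (-1 / z) := by
    funext i
    rw [e2 z hz.1 hz.2 i]
    simp only [Pi.add_apply, Pi.smul_apply, smul_eq_mul]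
  rw [a1, a2, a0, D_T3]
  have h4 : z ^ 4 * (ch z * (ch z * (1 / z ^ 2)) * (ch z * (1 / z ^ 4))) = -1 * z⁻¹ ^ 3 := by
    have : z ^ 4 * (ch z * (ch z * (1 / z ^ 2)) * (ch z * (1 / z ^ 4))) =
      ch z ^ 3 * (1 / z ^ 2) := by field_simp
    rw [this, hchc z hz.1]
    field_simp
  rw [← mul_assoc, h4]

end H87.FM
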