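import Pool.Agent.H87.FM.Abs

set_option autoImplicit false

/-!
# Abstract uniqueness theorem: conclusion
-/

open Complex Metric Set Topology Filter
open scoped ComplexConjugate

noncomputable section

namespace H87.FM

lemma T1_const {F : Frames} {f h : ℂ → Fin 3 → ℂ} (hf : Nice F f) (hh : Nice F h) :
    ∃ c : ℝ, ∀ z ∈ HP, D (f z) (dv f z) (h z) = c := by
  refine global_const F.S (hf.hol.D hf.hol.dv hh.hol) ?_ ?_ ?_
  · intro t ht
    obtain ⟨d, hd, hN⟩ := F.det_real t ht
    exact D_real hd hN (hf.realLim ht).1 (hf.realLim ht).2.1 (hh.realLim ht).1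
  · intro t ht
    have := D_small (F.det_ne t ht) (hf.markT ht).1 (hf.markT ht).2.1 (hh.markT ht).1
    simpa using this
  · obtain ⟨L, hL⟩ := T1_inf hf hh
    have := hL.mul tendsto_inv_Inf
    rw [mul_zero] at this
    exact this.congr fun z => by rw [div_eq_mul_inv]

lemma T2_zero {F : Frames} {f h : ℂ → Fin 3 → ℂ} (hf : Nice F f) (hh : Nice F h) :
    ∀ z ∈ HP, D (f z) (dv f z) (dv h z) = 0 := by
  refine global_zero F.S (hf.hol.D hf.hol.dv hh.hol.dv) ?_ ?_ (T2_inf hf hh)
  · intro t ht
    obtain ⟨d, hd, hN⟩ := F.det_real t ht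
    exact D_real hd hN (hf.realLim ht).1 (hf.realLim ht).2.1 (hh.realLim ht).2.1
  · intro t ht
    have := D_small (F.det_ne t ht) (hf.markT ht).1 (hf.markT ht).2.1 (hh.markT ht).2.1
    simpa using this

lemma D_self2 (a b : Fin 3 → ℂ) : D a b b = 0 := by unfold D; ring

lemma D_zero_mid (a b : Fin 3 → ℂ) : D a a b = 0 := by unfold D; ring

/-- `D (f, f'', h) = 0` -/
lemma T3'_zero {F : Frames} {f h : ℂ → Fin 3 → ℂ} (hf : Nice F f) (hh : Nice F h) :
    ∀ z ∈ HP, D (f z) (dv (dv f) z) (h z) = 0 := by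
  obtain ⟨c, hc⟩ := T1_const hf hh
  intro z hz
  have h1 := hasDerivAt_D hf.hol hf.hol.dv hh.hol hz
  have h2 : (fun y => D (f y) (dv f y) (h y)) =ᶠ[𝓝 z] fun _ => (c : ℂ) := by
    filter_upwards [HP_open.mem_nhds hz] with y hy
    exact hc y hy
  have h3 := h1.unique ((hasDerivAt_const z (c : ℂ)).congr_of_eventuallyEq h2)
  have h4 : D (dv f z) (dv f z) (h z) = 0 := D_zero_mid _ _
  rw [h4, T2_zero hf hh z hz] at h3
  simpa using h3

/-- `P · D (m, m', m'') = 0` if `m` vanishes at infinity. -/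
lemma T3_zero {F : Frames} {f : ℂ → Fin 3 → ℂ} (hf : Nice F f) {ρ : ℝ} (hρ : 0 < ρ)
    {U : Fin 3 → ℂ → ℂ} (hU : ∀ i, DifferentiableOn ℂ (U i) (ball 0 ρ))
    (he : ∀ i, ∀ z ∈ HP, -1 / z ∈ ball (0 : ℂ) ρ → f z i = phi z * U i (-1 / z))
    (hz : ∀ i, U i 0 = 0) : ∀ z ∈ HP, D (f z) (dv f z) (dv (dv f) z) = 0 := by
  have key : ∀ z ∈ HP, (∏ s ∈ F.S, (z - (s : ℂ))) * D (f z) (dv f z) (dv (dv f) z) = 0 := by
    refine global_zero F.S ?_ ?_ ?_ ?_
    · refine DifferentiableOn.mul ?_ (hf.hol.D hf.hol.dv hf.hol.dv.dv)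
      exact (by fun_prop : Differentiable ℂ fun z : ℂ => ∏ s ∈ F.S, (z - (s : ℂ))).differentiableOn
    · intro t ht
      obtain ⟨d, hd, hN⟩ := F.det_real t ht
      obtain ⟨x, hx⟩ := D_real hd hN (hf.realLim ht).1 (hf.realLim ht).2.1 (hf.realLim ht).2.2
      refine ⟨(∏ s ∈ F.S, (t - s)) * x, ?_⟩
      have h1 : Tendsto (fun z : ℂ => ∏ s ∈ F.S, (z - (s : ℂ))) (𝓝[HP] (t : ℂ))
          (𝓝 (∏ s ∈ F.S, ((t : ℂ) - (s : ℂ)))) := by
        have hc : Continuous fun z : ℂ => ∏ s ∈ F.S, (z - (s : ℂ)) := by fun_prop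
        exact (hc.tendsto _).mono_left nhdsWithin_le_nhds
      have h2 := h1.mul hx
      have h3 : (((∏ s ∈ F.S, (t - s)) * x : ℝ) : ℂ) = (∏ s ∈ F.S, ((t : ℂ) - (s : ℂ))) * x := by
        push_cast
        rfl
      rw [h3]
      exact h2
    · intro t ht
      have h1 := D_small (F.det_ne t ht) (hf.markT ht).1.succ (hf.markT ht).2.1.succ
        (hf.markT ht).2.2
      have hc : Continuous fun z : ℂ => ∏ s ∈ F.S.erase t, (z - (s : ℂ)) := by fun_prop
      have h2 := ((hc.tendsto (t : ℂ)).mono_left (nhdsWithin_le_nhds (s := HP))).mul h1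
      rw [mul_zero] at h2
      refine h2.congr fun z => ?_
      rw [← Finset.mul_prod_erase F.S (fun s : ℝ => z - (s : ℂ)) ht]
      ring
    · have h1 := T3_inf hρ hU he hz
      have h2 : Tendsto (fun z : ℂ => ∏ s ∈ F.S, (1 - (s : ℂ) * z⁻¹)) Inf
          (𝓝 (∏ s ∈ F.S, (1 - (s : ℂ) * 0))) := by
        refine tendsto_finsetProd _ fun s _ => ?_
        exact tendsto_const_nhds.sub (tendsto_inv_Inf.const_mul _)
      have h3 := h2.mul h1
      rw [mul_zero] at h3
      refine h3.congr' ?_
      filter_upwards [HP_mem_Inf] with z hz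
      have h0 := ne_zero_HP hz
      have h4 : ∏ s ∈ F.S, (z - (s : ℂ)) = z ^ 4 * ∏ s ∈ F.S, (1 - (s : ℂ) * z⁻¹) := by
        rw [← F.card, ← Finset.prod_const, ← Finset.prod_mul_distrib]
        refine Finset.prod_congr rfl fun s _ => ?_
        field_simp
      rw [h4]
      ring
  intro z hz
  rcases mul_eq_zero.1 (key z hz) with h1 | h1
  · rw [Finset.prod_eq_zero_iff] at h1
    obtain ⟨s, -, hs⟩ := h1
    exact absurd hs (ne_real_HP hz s)
  · exact h1

/-- A class of solutions closed under real linear combinations, without constants and without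
linear relations, has dimension at most one. -/
theorem abstract_uniq (F : Frames) (C : (ℂ → Fin 3 → ℂ) → Prop) (hC : ∀ f, C f → Nice F f)
    (hadd : ∀ f h, C f → C h → ∀ a b : ℝ, C fun z => (a : ℂ) • f z + (b : ℂ) • h z)
    (hconst : ∀ f, C f → (∀ z ∈ HP, dv f z = 0) → ∀ z ∈ HP, f z = 0)
    (hrel : ∀ f, C f → ∀ ν : Fin 3 → ℂ, ν ≠ 0 → (∀ z ∈ HP, B ν (f z) = 0) → ∀ z ∈ HP, f z = 0)
    (f h : ℂ → Fin 3 → ℂ) (hf : C f) (hh : C h) :
    ∃ a b : ℝ, (a ≠ 0 ∨ b ≠ 0) ∧ ∀ z ∈ HP, (a : ℂ) • f z + (b : ℂ) • h z = 0 := by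
  -- step 1
  have step1 : ∀ f h, C f → C h → ∀ z ∈ HP, D (f z) (dv f z) (h z) = 0 := by
    intro f h hf hh
    have nf := hC f hf
    have nh := hC h hh
    obtain ⟨c1, hc1⟩ := T1_const nf nh
    obtain ⟨c2, hc2⟩ := T1_const nh nf
    by_cases h1 : c1 = 0
    · intro z hz
      rw [hc1 z hz, h1]
      simp
    exfalso
    set e : ℂ → Fin 3 → ℂ := fun z => (c1 : ℂ) • h z + (c2 : ℂ) • f z with he
    have hCe : C e := hadd h f hh hf c1 c2
    have ne := hC e hCe
    have he1 : ∀ z ∈ HP, dv e z = (c1 : ℂ) • dv h z + (c2 : ℂ) • dv f z := fun z hz =>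
      dv_add nh.hol nf.hol _ _ hz
    have he2 : ∀ z ∈ HP, dv (dv e) z = (c1 : ℂ) • dv (dv h) z + (c2 : ℂ) • dv (dv f) z :=
      fun z hz => dv_dv_add nh.hol nf.hol _ _ hz
    -- X f e' = 0, via heart
    have hX : ∀ z ∈ HP, X (f z) (dv e z) = 0 := by
      intro z hz
      have hne : D (f z) (dv f z) (h z) ≠ 0 := by
        rw [hc1 z hz]; exact_mod_cast h1
      refine eq_zero_of_dual hne ?_ ?_ ?_
      · simp only [B, X, Matrix.cons_val_zero, Matrix.cons_val_one, Matrix.cons_val]
        ring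
      · have : B (X (f z) (dv e z)) (dv f z) = -c1 * D (f z) (dv f z) (dv h z) := by
          rw [he1 z hz]
          simp only [B, X, D, Pi.add_apply, Pi.smul_apply, smul_eq_mul, Matrix.cons_val_zero,
            Matrix.cons_val_one, Matrix.cons_val]
          ring
        rw [this, T2_zero nf nh z hz, mul_zero]
      · have : B (X (f z) (dv e z)) (h z) = -c1 * D (h z) (dv h z) (f z) +
            c2 * D (f z) (dv f z) (h z) := by
          rw [he1 z hz]
          simp only [B, X, D, Pi.add_apply, Pi.smul_apply, smul_eq_mul, Matrix.cons_val_zero,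
            Matrix.cons_val_one, Matrix.cons_val]
          ring
        rw [this, hc1 z hz, hc2 z hz]
        ring
    have hX' : ∀ z ∈ HP, X (dv f z) (dv e z) + X (f z) (dv (dv e) z) = 0 := by
      intro z hz
      rw [← dv_X nf.hol ne.hol.dv hz]
      funext i
      have h5 : (fun y => X (f y) (dv e y) i) =ᶠ[𝓝 z] fun _ => 0 := by
        filter_upwards [HP_open.mem_nhds hz] with y hy
        rw [hX y hy]
        rfl
      show deriv (fun y => X (f y) (dv e y) i) z = 0
      rw [h5.deriv_eq, deriv_const]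
    have hzero : ∀ z ∈ HP, dv e z = 0 := by
      intro z hz
      rw [he1 z hz]
      refine heart (f := f z) (f1 := dv f z) (f2 := dv (dv f) z) (h := h z) (h1 := dv h z)
        (h2 := dv (dv h) z) (c1 := c1) (c2 := c2) (by exact_mod_cast h1) (hc1 z hz)
        (T2_zero nf nh z hz) (hc2 z hz) ?_ ?_
      · have := T3'_zero ne nf z hz
        rw [he2 z hz] at this
        exact this
      · intro i
        have := congrFun (hX' z hz) i
        rw [he1 z hz, he2 z hz] at this
        exact this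
    have hez := hconst e hCe hzero
    have hI : (Complex.I) ∈ HP := by simp [HP]
    have h6 := hez _ hI
    have h7 : D (f I) (dv f I) (e I) = c1 * D (f I) (dv f I) (h I) := by
      simp only [he, D, Pi.add_apply, Pi.smul_apply, smul_eq_mul]
      ring
    rw [h6, hc1 _ hI] at h7
    have h8 : D (f I) (dv f I) 0 = 0 := by
      simp [D]
    rw [h8] at h7
    have h9 : (c1 : ℂ) ≠ 0 := by exact_mod_cast h1
    exact (mul_ne_zero h9 h9) h7.symm
  -- step 2: all solutions are parallel
  have step2 : ∀ f h, C f → C h → ∀ z ∈ HP, X (f z) (h z) = 0 := by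
    intro f h hf hh
    have nf := hC f hf
    have nh := hC h hh
    have hXh : Hol fun z => X (f z) (h z) := nf.hol.X nh.hol
    rcases const_dir hXh (by
      intro z hz
      rw [dv_X nf.hol nh.hol hz]
      exact cross_par (step1 f h hf hh z hz) (step1 h f hh hf z hz)) with h1 | h1
    · exact h1
    · obtain ⟨j, ν, hν, ⟨z1, hz1, hz1'⟩, hV⟩ := h1
      have hνne : ν ≠ 0 := by
        rintro rfl
        simp at hν
      have hB : ∀ z ∈ HP, B ν (f z) = 0 := by
        refine eq_zero_of_mul (hXh j) ?_ ?_ ⟨z1, hz1, hz1'⟩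
        · unfold B
          exact (((nf.hol 0).const_mul _).add ((nf.hol 1).const_mul _)).add
            ((nf.hol 2).const_mul _)
        · intro z hz
          have h2 : X (f z) (h z) j * B ν (f z) = B (X (f z) (h z)) (f z) := by
            rw [hV z hz]
            simp only [B, Pi.smul_apply, smul_eq_mul, hν]
            ring
          rw [h2]
          simp only [B, X, Matrix.cons_val_zero, Matrix.cons_val_one, Matrix.cons_val]
          ring
      have hf0 := hrel f hf ν hνne hB
      intro z hz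
      rw [hf0 z hz]
      funext i
      fin_cases i <;> simp [X]
  -- step 3: a combination which vanishes at infinity
  have nf := hC f hf
  have nh := hC h hh
  obtain ⟨ρ, hρ, U, hU, he, hUr⟩ := nf.inf
  obtain ⟨ρ', hρ', V, hV, he', hVr⟩ := nh.inf
  have hUV : ∀ i j, U i 0 * V j 0 = U j 0 * V i 0 := by
    intro i j
    have h1 := (lim_U hρ (hU i)).mul (lim_U hρ' (hV j))
    have h2 := (lim_U hρ (hU j)).mul (lim_U hρ' (hV i))
    have hne : NeBot Inf := by
      rw [← forall_mem_nonempty_iff_neBot]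
      intro s hs
      obtain ⟨R, hR⟩ := mem_Inf.1 hs
      refine ⟨(|R| + 1 : ℝ) * Complex.I, hR _ ?_ ?_⟩
      · show 0 < (((|R| + 1 : ℝ) : ℂ) * Complex.I).im
        simp
        positivity
      · rw [norm_mul, Complex.norm_I, mul_one, Complex.norm_real, Real.norm_eq_abs,
          abs_of_pos (by positivity)]
        linarith [le_abs_self R]
    refine tendsto_nhds_unique (h1.congr' ?_) h2
    filter_upwards [ball_mem_Inf hρ, ball_mem_Inf hρ'] with z hz hz'
    have h3 := step2 f h hf hh z hz.1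
    have hp : phi z ^ 2 ≠ 0 := pow_ne_zero 2 phi_ne
    have a0 := congrFun h3 0
    have a1 := congrFun h3 1
    have a2 := congrFun h3 2
    simp only [X, Matrix.cons_val_zero, Matrix.cons_val_one, Matrix.cons_val, Pi.zero_apply,
      he _ z hz.1 hz.2, he' _ z hz.1 hz'.2] at a0 a1 a2
    refine mul_left_cancel₀ hp ?_
    fin_cases i <;> fin_cases j <;> simp only [Fin.zero_eta, Fin.mk_one, Fin.reduceFinMk]
    · linear_combination a2
    · linear_combination -a1
    · linear_combination -a2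
    · linear_combination a0
    · linear_combination a1
    · linear_combination -a0
  have hUre : ∀ i, U i 0 = ((U i 0).re : ℂ) := by
    intro i
    have := hUr i 0 (by simpa using hρ)
    exact Complex.ext (by simp) (by simpa using this)
  have hVre : ∀ i, V i 0 = ((V i 0).re : ℂ) := by
    intro i
    have := hVr i 0 (by simpa using hρ')
    exact Complex.ext (by simp) (by simpa using this)
  obtain ⟨a, b, hab, hcomb⟩ : ∃ a b : ℝ, (a ≠ 0 ∨ b ≠ 0) ∧
      ∀ i, (a : ℂ) * U i 0 + (b : ℂ) * V i 0 = 0 := by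
    by_cases hall : ∀ i, U i 0 = 0
    · exact ⟨1, 0, Or.inl one_ne_zero, fun i => by rw [hall i]; simp⟩
    · push Not at hall
      obtain ⟨j, hj⟩ := hall
      refine ⟨-(V j 0).re, (U j 0).re, Or.inr ?_, fun i => ?_⟩
      · intro h
        apply hj
        rw [hUre j, h]
        simp
      · push_cast
        rw [← hUre j, ← hVre j]
        linear_combination -(hUV i j)
  refine ⟨a, b, hab, ?_⟩
  set m : ℂ → Fin 3 → ℂ := fun z => (a : ℂ) • f z + (b : ℂ) • h z with hm
  have hCm : C m := hadd f h hf hh a b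
  have nm := hC m hCm
  have hρm : 0 < min ρ ρ' := lt_min hρ hρ'
  have hW := T3_zero nm (ρ := min ρ ρ') hρm
    (U := fun i y => (a : ℂ) * U i y + (b : ℂ) * V i y)
    (fun i => (((hU i).mono (ball_subset_ball (min_le_left _ _))).const_mul _).add
      (((hV i).mono (ball_subset_ball (min_le_right _ _))).const_mul _))
    (by
      intro i z hz hzb
      simp only [hm, Pi.add_apply, Pi.smul_apply, smul_eq_mul]
      rw [he i z hz (ball_subset_ball (min_le_left _ _) hzb),
        he' i z hz (ball_subset_ball (min_le_right _ _) hzb)]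
      ring)
    hcomb
  -- linear dependence
  have hY : Hol fun z => X (m z) (dv m z) := nm.hol.X nm.hol.dv
  rcases const_dir hY (by
    intro z hz
    rw [dv_X nm.hol nm.hol.dv hz]
    exact cross_par' (hW z hz)) with h1 | h1
  · -- m is parallel to m'
    rcases const_dir nm.hol h1 with h2 | h2
    · exact h2
    · obtain ⟨j, μ, hμ, -, hmμ⟩ := h2
      obtain ⟨ν, hν, hB⟩ : ∃ ν : Fin 3 → ℂ, ν ≠ 0 ∧ B ν μ = 0 := by
        by_cases h0 : μ 0 = 0
        · refine ⟨![1, 0, 0], fun h => ?_, ?_⟩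
          · have := congrFun h 0
            simp at this
          · simp [B, h0]
        · refine ⟨![-μ 1, μ 0, 0], fun h => ?_, ?_⟩
          · have := congrFun h 1
            simp [h0] at this
          · simp [B]
            ring
      refine hrel m hCm ν hν fun z hz => ?_
      rw [hmμ z hz]
      have : B ν (m z j • μ) = m z j * B ν μ := by
        simp only [B, Pi.smul_apply, smul_eq_mul]
        ring
      rw [this, hB, mul_zero]
  · obtain ⟨j, ν, hν, ⟨z1, hz1, hz1'⟩, hV'⟩ := h1
    have hνne : ν ≠ 0 := by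
      rintro rfl
      simp at hν
    refine hrel m hCm ν hνne ?_
    refine eq_zero_of_mul (hY j) ?_ ?_ ⟨z1, hz1, hz1'⟩
    · unfold B
      exact (((nm.hol 0).const_mul _).add ((nm.hol 1).const_mul _)).add
        ((nm.hol 2).const_mul _)
    · intro z hz
      have h2 : X (m z) (dv m z) j * B ν (m z) = B (X (m z) (dv m z)) (m z) := by
        rw [hV' z hz]
        simp only [B, Pi.smul_apply, smul_eq_mul, hν]
        ring
      rw [h2]
      simp only [B, X, Matrix.cons_val_zero, Matrix.cons_val_one, Matrix.cons_val]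
      ring

end H87.FM
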