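import Pool.Agent.H87.FM.AbsU

set_option autoImplicit false

/-!
# The concrete boundary value problem: local data
-/

open Complex Metric Set Topology Filter
open scoped ComplexConjugate

noncomputable section

namespace H87.FM

/-! ### real numbers and `w` -/

lemma sqrt3_pos : 0 < Real.sqrt 3 := Real.sqrt_pos.2 (by norm_num)

lemma w2_re : (w ^ 2).re = -1 / 2 := by rw [w_sq]; simp [w_re]; norm_num

lemma w2_im : (w ^ 2).im = -(Real.sqrt 3 / 2) := by rw [w_sq]; simp [w_im]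

lemma real_eq {z : ℂ} (h : z.im = 0) : z = (z.re : ℂ) := Complex.ext (by simp) (by simp [h])

lemma w4 : w ^ 4 = w := by
  have : w ^ 4 = w ^ 3 * w := by ring
  rw [this, w_cube, one_mul]

/-- a real number `r` with `w ^ 2 r` real vanishes -/
lemma zero_of_real_w {z : ℂ} (h : z.im = 0) (h' : (w ^ 2 * z).im = 0) : z = 0 := by
  rw [Complex.mul_im, w2_re, w2_im, h] at h'
  have h1 : z.re = 0 := by
    have := sqrt3_pos
    have h2 : Real.sqrt 3 / 2 * z.re = 0 := by linarith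
    rcases mul_eq_zero.1 h2 with h3 | h3
    · linarith
    · exact h3
  exact Complex.ext h1 h

/-! ### radii -/

lemma exists_radius (T : Finset ℝ) (t : ℝ) :
    ∃ r : ℝ, 0 < r ∧ ∀ s ∈ T, s ≠ t → r ≤ |s - t| := by
  classical
  induction T using Finset.induction_on with
  | empty => exact ⟨1, one_pos, by simp⟩
  | insert a T _ ih =>
    obtain ⟨r, hr, h⟩ := ih
    by_cases hat : a = t
    · refine ⟨r, hr, fun s hs hst => ?_⟩
      rcases Finset.mem_insert.1 hs with h1 | h1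
      · exact absurd (h1.trans hat) hst
      · exact h s h1 hst
    · refine ⟨min r |a - t|, lt_min hr (abs_pos.2 (sub_ne_zero.2 hat)), fun s hs hst => ?_⟩
      rcases Finset.mem_insert.1 hs with h1 | h1
      · rw [h1]; exact min_le_right _ _
      · exact (min_le_left _ _).trans (h s h1 hst)

/-- the special points -/
def Sp (x1 x2 x3 x4 : ℝ) (E : Finset ℝ) : Finset ℝ := insert x1 (insert x2 (insert x3 (insert x4 E)))

lemma mem_Sg {x1 x2 x3 x4 : ℝ} {E : Finset ℝ} {z : ℂ} :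
    z ∈ Sg x1 x2 x3 x4 E ↔ ∃ s ∈ Sp x1 x2 x3 x4 E, z = (s : ℂ) := by
  unfold Sg Sp
  constructor
  · rintro (h | h | h | h | ⟨e, he, h⟩)
    · exact ⟨x1, by simp, h⟩
    · exact ⟨x2, by simp, h⟩
    · exact ⟨x3, by simp, h⟩
    · exact ⟨x4, by simp, h⟩
    · exact ⟨e, by simp [he], h⟩
  · rintro ⟨s, hs, h⟩
    simp only [Finset.mem_insert] at hs
    rcases hs with rfl | rfl | rfl | rfl | hs
    · exact Or.inl h
    · exact Or.inr (Or.inl h)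
    · exact Or.inr (Or.inr (Or.inl h))
    · exact Or.inr (Or.inr (Or.inr (Or.inl h)))
    · exact Or.inr (Or.inr (Or.inr (Or.inr ⟨s, hs, h⟩)))

lemma real_mem_Sg {x1 x2 x3 x4 : ℝ} {E : Finset ℝ} {t : ℝ} :
    (t : ℂ) ∈ Sg x1 x2 x3 x4 E ↔ t ∈ Sp x1 x2 x3 x4 E := by
  rw [mem_Sg]
  constructor
  · rintro ⟨s, hs, h⟩
    have : t = s := by exact_mod_cast h
    rwa [this]
  · intro h
    exact ⟨t, h, rfl⟩

lemma mem_ball_real {s t r : ℝ} : (s : ℂ) ∈ ball (t : ℂ) r ↔ |s - t| < r := by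
  rw [mem_ball, Complex.dist_eq, ← Complex.ofReal_sub, Complex.norm_real, Real.norm_eq_abs]

/-- the data of one of the four functions at a real point -/
structure PD (t r : ℝ) (g : ℂ → ℂ) : Prop where
  c : ContinuousOn g ((ball (t : ℂ) r ∩ CH) \ {(t : ℂ)})
  d : DifferentiableOn ℂ g (ball (t : ℂ) r ∩ HP)
  s : Tendsto (fun z => (z - t) * g z) (𝓝[HP] (t : ℂ)) (𝓝 0)

lemma PD.mul {t r : ℝ} {g : ℂ → ℂ} (h : PD t r g) (c : ℂ) : PD t r fun z => c * g z := by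
  refine ⟨continuousOn_const.mul h.c, h.d.const_mul c, ?_⟩
  have := h.s.const_mul c
  rw [mul_zero] at this
  refine this.congr fun z => ?_
  ring

lemma PD.sub {t r : ℝ} {g k : ℂ → ℂ} (h : PD t r g) (h' : PD t r k) :
    PD t r fun z => g z - k z := by
  refine ⟨h.c.sub h'.c, h.d.sub h'.d, ?_⟩
  have := h.s.sub h'.s
  rw [sub_zero] at this
  refine this.congr fun z => ?_
  ring

/-- data at a non-mark -/
lemma pd_loc {x1 x2 x3 x4 : ℝ} {E : Finset ℝ} {g : ℂ → ℂ} (hd : DifferentiableOn ℂ g HP)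
    (hc : ContinuousOn g (CH \ Sg x1 x2 x3 x4 E)) {t r : ℝ}
    (hr : ∀ s ∈ Sp x1 x2 x3 x4 E, s ≠ t → r ≤ |s - t|)
    (hs : t ∈ Sp x1 x2 x3 x4 E → Tendsto (fun z => (z - t) * g z) (𝓝[HP] (t : ℂ)) (𝓝 0)) :
    PD t r g := by
  refine ⟨?_, hd.mono fun z hz => hz.2, ?_⟩
  · refine hc.mono fun z hz => ⟨hz.1.2, fun hzS => ?_⟩
    obtain ⟨s, hs1, rfl⟩ := mem_Sg.1 hzS
    have h1 : s ≠ t := by
      intro h
      exact hz.2 (by rw [h]; rfl)
    have h2 := mem_ball_real.1 hz.1.1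
    linarith [hr s hs1 h1]
  · by_cases ht : t ∈ Sp x1 x2 x3 x4 E
    · exact hs ht
    · have h1 : (t : ℂ) ∈ CH \ Sg x1 x2 x3 x4 E := ⟨by simp [CH], fun h => ht (real_mem_Sg.1 h)⟩
      have h2 : Tendsto g (𝓝[HP] (t : ℂ)) (𝓝 (g t)) := by
        have h3 : ContinuousWithinAt g (CH \ Sg x1 x2 x3 x4 E) (t : ℂ) := hc _ h1
        refine h3.mono fun z hz => ⟨HP_sub_CH hz, fun hzS => ?_⟩
        obtain ⟨s, -, rfl⟩ := mem_Sg.1 hzS
        simp [HP] at hz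
      have h3 := (sub_tendsto t).mul h2
      rwa [zero_mul] at h3

/-- three functions with real boundary values give a local frame -/
lemma loc_of {t r : ℝ} (hr : 0 < r) {p : Fin 3 → ℂ → ℂ} (hp : ∀ i, PD t r (p i))
    (hre : ∀ i, ∀ s : ℝ, s ≠ t → |s - t| < r → (p i s).im = 0) {N : Matrix (Fin 3) (Fin 3) ℂ}
    {f : ℂ → Fin 3 → ℂ} (hN : ∀ i, ∀ z ∈ HP, N.mulVec (f z) i = p i z) :
    ∃ r : ℝ, 0 < r ∧ ∃ P : Fin 3 → ℂ → ℂ,
    (∀ i, DifferentiableOn ℂ (P i) (ball (t : ℂ) r)) ∧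
    (∀ i, ∀ z ∈ ball (t : ℂ) r, z ∈ HP → N.mulVec (f z) i = P i z) ∧
    (∀ i, ∀ s : ℝ, (s : ℂ) ∈ ball (t : ℂ) r → (P i s).im = 0) := by
  choose P hP1 hP2 hP3 using fun i => ext_punct hr (hp i).c (hp i).d
    (fun s hs hsb => hre i s hs (mem_ball_real.1 hsb)) (hp i).s
  refine ⟨r, hr, P, hP1, fun i z hz hzH => ?_, hP3⟩
  rw [hN i z hzH, hP2 i z hz (HP_sub_CH hzH)]
  intro h
  rw [h] at hzH
  simp [HP] at hzH

/-- the structure at a mark -/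
lemma mark_of {t r : ℝ} (hr : 0 < r) {p0 p1 p2 : ℂ → ℂ} (h0 : PD t r p0) (h1 : PD t r p1)
    (h2 : PD t r p2) (hb : ∃ C : ℝ, ∀ z ∈ HP, ‖z - (t : ℂ)‖ < r → ‖p1 z‖ ≤ C ∧ ‖p2 z‖ ≤ C)
    (hre0 : ∀ s : ℝ, s ≠ t → |s - t| < r → (p0 s).im = 0)
    (hre1 : ∀ s : ℝ, s ≠ t → |s - t| < r → (p1 s).im = 0)
    (hre2 : ∀ s : ℝ, t < s → |s - t| < r → (p2 s).im = 0)
    (hle2 : ∀ s : ℝ, s < t → |s - t| < r → (p2 s).im = Real.sqrt 3 / 2 * (p1 s).re)
    {N : Matrix (Fin 3) (Fin 3) ℂ}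
    {f : ℂ → Fin 3 → ℂ} (hN0 : ∀ z ∈ HP, N.mulVec (f z) 0 = p0 z)
    (hN1 : ∀ z ∈ HP, N.mulVec (f z) 1 = p1 z) (hN2 : ∀ z ∈ HP, N.mulVec (f z) 2 = p2 z) :
    ∃ r : ℝ, 0 < r ∧ ∃ P0 P1 Q : ℂ → ℂ, ∃ κ : ℂ,
    DifferentiableOn ℂ P0 (ball (t : ℂ) r) ∧ DifferentiableOn ℂ P1 (ball (t : ℂ) r) ∧
    DifferentiableOn ℂ Q (ball (t : ℂ) r) ∧ P1 t = 0 ∧
    (∀ z ∈ ball (t : ℂ) r, z ∈ HP → N.mulVec (f z) 0 = P0 z) ∧
    (∀ z ∈ ball (t : ℂ) r, z ∈ HP → N.mulVec (f z) 1 = P1 z) ∧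
    (∀ z ∈ ball (t : ℂ) r, z ∈ HP →
      N.mulVec (f z) 2 = Q z + κ * P1 z * Complex.log (z - t)) := by
  obtain ⟨P0, hP0, hP0e, -⟩ := ext_punct hr h0.c h0.d
    (fun s hs hsb => hre0 s hs (mem_ball_real.1 hsb)) h0.s
  obtain ⟨P1, Q, hP1, hQ, e1, e2, -, -, hz⟩ := ext_log hr (κ := Real.sqrt 3 / 2)
    (by have := sqrt3_pos; positivity) h1.c h1.d h2.c h2.d
    (fun s hs hsb => hre1 s hs (mem_ball_real.1 hsb))
    (fun s hs hsb => hre2 s hs (mem_ball_real.1 hsb))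
    (fun s hs hsb => hle2 s hs (mem_ball_real.1 hsb)) hb
  refine ⟨r, hr, P0, P1, Q, ((Real.sqrt 3 / 2 : ℝ) : ℂ) / Real.pi, hP0, hP1, hQ, hz, ?_, ?_, ?_⟩
  · intro z hz hzH
    rw [hN0 z hzH, hP0e z hz (HP_sub_CH hzH)]
    intro h
    rw [h] at hzH
    simp [HP] at hzH
  · intro z hz hzH
    rw [hN1 z hzH, e1 z hz hzH]
  · intro z hz hzH
    rw [hN2 z hzH, e2 z hz hzH]

/-! ### the frames -/

/-- frame on the arc `34` -/
def N3 : Matrix (Fin 3) (Fin 3) ℂ := !![1, 0, 0; -w, -1, -w ^ 2; 0, 0, 1]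
/-- frame on the arc `23` -/
def N2 : Matrix (Fin 3) (Fin 3) ℂ := !![-w, -1, -w ^ 2; 0, w ^ 2, 0; 0, 0, 1]
/-- frame on the arc `12` -/
def N1 : Matrix (Fin 3) (Fin 3) ℂ := !![w ^ 2, 0, 0; 0, w ^ 2, 0; -w, -1, -w ^ 2]
/-- frame on the left part of the arc `41` -/
def N0 : Matrix (Fin 3) (Fin 3) ℂ := !![w ^ 2, 0, 0; 0, w ^ 2, 0; 0, 0, w ^ 2]
/-- frame at the mark `4` -/
def M4 : Matrix (Fin 3) (Fin 3) ℂ := !![0, 0, 1; -1, 0, 1; 0, 1, 0]
/-- frame at the mark `3` -/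
def M3 : Matrix (Fin 3) (Fin 3) ℂ := !![0, 0, 1; -w, -1, -w ^ 2 - 1; 1, 0, 0]
/-- frame at the mark `2` -/
def M2 : Matrix (Fin 3) (Fin 3) ℂ := !![-w, -1, -w ^ 2; w, w ^ 2 + 1, w ^ 2; 0, 0, 1]
/-- frame at the mark `1` -/
def M1 : Matrix (Fin 3) (Fin 3) ℂ := !![0, w ^ 2, 0; w ^ 2, -w ^ 2, 0; -w, -1, -w ^ 2]

lemma det_N3 : N3.det = -1 := by
  simp [N3, Matrix.det_fin_three]

lemma det_N2 : N2.det = -1 := by
  simp [N2, Matrix.det_fin_three]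
  linear_combination w_cube

lemma det_N1 : N1.det = -1 := by
  simp [N1, Matrix.det_fin_three]
  linear_combination (w ^ 3 + 1) * w_cube

lemma det_N0 : N0.det = 1 := by
  simp [N0, Matrix.det_fin_three]
  linear_combination (w ^ 3 + 1) * w_cube

lemma det_M4 : M4.det = -1 := by
  simp [M4, Matrix.det_fin_three]

lemma det_M3 : M3.det = 1 := by
  simp [M3, Matrix.det_fin_three]

lemma det_M2 : M2.det = -1 := by
  simp [M2, Matrix.det_fin_three]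
  linear_combination -w_cube

lemma det_M1 : M1.det = 1 := by
  simp [M1, Matrix.det_fin_three]
  linear_combination (w ^ 3 + 1) * w_cube

/-- the frames of the four mark problem -/
def NF (x1 x2 x3 x4 t : ℝ) : Matrix (Fin 3) (Fin 3) ℂ :=
  if t = x1 then M1 else if t = x2 then M2 else if t = x3 then M3 else if t = x4 then M4
  else if x4 < t then 1 else if x3 < t then N3 else if x2 < t then N2 else if x1 < t then N1
  else N0

lemma det_NF (x1 x2 x3 x4 t : ℝ) : ∃ d : ℝ, d ≠ 0 ∧ (NF x1 x2 x3 x4 t).det = d := by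
  unfold NF
  split_ifs
  · exact ⟨1, one_ne_zero, by rw [det_M1]; simp⟩
  · exact ⟨-1, by norm_num, by rw [det_M2]; simp⟩
  · exact ⟨1, one_ne_zero, by rw [det_M3]; simp⟩
  · exact ⟨-1, by norm_num, by rw [det_M4]; simp⟩
  · exact ⟨1, one_ne_zero, by simp⟩
  · exact ⟨-1, by norm_num, by rw [det_N3]; simp⟩
  · exact ⟨-1, by norm_num, by rw [det_N2]; simp⟩
  · exact ⟨-1, by norm_num, by rw [det_N1]; simp⟩
  · exact ⟨1, one_ne_zero, by rw [det_N0]; simp⟩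

/-- the frames of the four mark problem -/
def FR (x1 x2 x3 x4 : ℝ) (h12 : x1 < x2) (h23 : x2 < x3) (h34 : x3 < x4) : Frames where
  S := {x1, x2, x3, x4}
  N := NF x1 x2 x3 x4
  card := by
    rw [Finset.card_insert_of_notMem, Finset.card_insert_of_notMem, Finset.card_insert_of_notMem,
      Finset.card_singleton]
    · simp; linarith
    · simp; constructor <;> linarith
    · simp; refine ⟨?_, ?_, ?_⟩ <;> linarith
  det_real := fun t _ => det_NF x1 x2 x3 x4 t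
  det_ne := fun t _ => by
    obtain ⟨d, hd, h⟩ := det_NF x1 x2 x3 x4 t
    rw [h]
    exact_mod_cast hd

end H87.FM
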