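import Pool.Agent.H87.FM.Refl

set_option autoImplicit false

/-!
# Algebra of three dimensional vectors of holomorphic functions
-/

open Complex Metric Set Topology Filter
open scoped ComplexConjugate

noncomputable section

namespace H87.FM

/-- determinant of three vectors -/
def D (a b c : Fin 3 → ℂ) : ℂ :=
  a 0 * (b 1 * c 2 - b 2 * c 1) - a 1 * (b 0 * c 2 - b 2 * c 0) + a 2 * (b 0 * c 1 - b 1 * c 0)

/-- cross product -/
def X (a b : Fin 3 → ℂ) : Fin 3 → ℂ :=
  ![a 1 * b 2 - a 2 * b 1, a 2 * b 0 - a 0 * b 2, a 0 * b 1 - a 1 * b 0]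

/-- bilinear product -/
def B (a b : Fin 3 → ℂ) : ℂ := a 0 * b 0 + a 1 * b 1 + a 2 * b 2

lemma D_mulVec (N : Matrix (Fin 3) (Fin 3) ℂ) (a b c : Fin 3 → ℂ) :
    D (N.mulVec a) (N.mulVec b) (N.mulVec c) = N.det * D a b c := by
  simp only [D, Matrix.mulVec, dotProduct, Fin.sum_univ_three, Matrix.det_fin_three]
  ring

lemma eq_zero_of_dual {a b c v : Fin 3 → ℂ} (h : D a b c ≠ 0) (ha : B v a = 0) (hb : B v b = 0)
    (hc : B v c = 0) : v = 0 := by
  unfold B at ha hb hc
  have h0 : v 0 * D a b c = 0 := by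
    unfold D
    linear_combination (b 1 * c 2 - b 2 * c 1) * ha + (c 1 * a 2 - c 2 * a 1) * hb +
      (a 1 * b 2 - a 2 * b 1) * hc
  have h1 : v 1 * D a b c = 0 := by
    unfold D
    linear_combination (b 2 * c 0 - b 0 * c 2) * ha + (c 2 * a 0 - c 0 * a 2) * hb +
      (a 2 * b 0 - a 0 * b 2) * hc
  have h2 : v 2 * D a b c = 0 := by
    unfold D
    linear_combination (b 0 * c 1 - b 1 * c 0) * ha + (c 0 * a 1 - c 1 * a 0) * hb +
      (a 0 * b 1 - a 1 * b 0) * hc
  funext i
  fin_cases i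
  · exact (mul_eq_zero.1 h0).resolve_right h
  · exact (mul_eq_zero.1 h1).resolve_right h
  · exact (mul_eq_zero.1 h2).resolve_right h

/-- The algebraic heart: `e = c₁ h + c₂ f` has `e' = 0`. -/
lemma heart {f f1 f2 h h1 h2 : Fin 3 → ℂ} {c1 c2 : ℂ} (hc1 : c1 ≠ 0)
    (t1 : D f f1 h = c1) (t2 : D f f1 h1 = 0) (t4 : D h h1 f = c2)
    (t5 : D (c1 • h + c2 • f) (c1 • h2 + c2 • f2) f = 0)
    (t6 : ∀ i, X f1 (c1 • h1 + c2 • f1) i + X f (c1 • h2 + c2 • f2) i = 0) :
    c1 • h1 + c2 • f1 = 0 := by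
  set e1 : Fin 3 → ℂ := c1 • h1 + c2 • f1 with he1
  have hX : X f e1 = 0 := by
    have hne : D f f1 h ≠ 0 := by rw [t1]; exact hc1
    refine eq_zero_of_dual hne ?_ ?_ ?_
    · simp only [B, X, Matrix.cons_val_zero, Matrix.cons_val_one, Matrix.cons_val]
      ring
    · have : B (X f e1) f1 = -c1 * D f f1 h1 := by
        simp only [B, X, D, he1, Pi.add_apply, Pi.smul_apply, smul_eq_mul, Matrix.cons_val_zero,
          Matrix.cons_val_one, Matrix.cons_val]
        ring
      rw [this, t2, mul_zero]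
    · have : B (X f e1) h = -c1 * D h h1 f + c2 * D f f1 h := by
        simp only [B, X, D, he1, Pi.add_apply, Pi.smul_apply, smul_eq_mul, Matrix.cons_val_zero,
          Matrix.cons_val_one, Matrix.cons_val]
        ring
      rw [this, t1, t4]
      ring
  -- D (e, f', e') = 0
  have hD : D (c1 • h + c2 • f) f1 e1 = 0 := by
    have h0 := t6 0
    have h1' := t6 1
    have h2' := t6 2
    simp only [X, Matrix.cons_val_zero, Matrix.cons_val_one, Matrix.cons_val] at h0 h1' h2'
    unfold D at t5 ⊢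
    linear_combination (c1 • h + c2 • f) 0 * h0 + (c1 • h + c2 • f) 1 * h1' +
      (c1 • h + c2 • f) 2 * h2' + t5
  have hpar : ∀ i j, f i * e1 j = f j * e1 i := by
    have h0 := congrFun hX 0
    have h1' := congrFun hX 1
    have h2' := congrFun hX 2
    simp only [X, Matrix.cons_val_zero, Matrix.cons_val_one, Matrix.cons_val, Pi.zero_apply]
      at h0 h1' h2'
    intro i j
    fin_cases i <;> fin_cases j
    · rfl
    · show f 0 * e1 1 = f 1 * e1 0
      linear_combination h2'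
    · show f 0 * e1 2 = f 2 * e1 0
      linear_combination -h1'
    · show f 1 * e1 0 = f 0 * e1 1
      linear_combination -h2'
    · rfl
    · show f 1 * e1 2 = f 2 * e1 1
      linear_combination h0
    · show f 2 * e1 0 = f 0 * e1 2
      linear_combination h1'
    · show f 2 * e1 1 = f 1 * e1 2
      linear_combination -h0
    · rfl
  have hDf : D (c1 • h + c2 • f) f1 f = -(c1 * c1) := by
    have : D (c1 • h + c2 • f) f1 f = -c1 * D f f1 h := by
      simp only [D, Pi.add_apply, Pi.smul_apply, smul_eq_mul]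
      ring
    rw [this, t1]
    ring
  funext j
  have hj : D (c1 • h + c2 • f) f1 f * e1 j = f j * D (c1 • h + c2 • f) f1 e1 := by
    unfold D
    linear_combination
      ((c1 • h + c2 • f) 0 * f1 1 - (c1 • h + c2 • f) 1 * f1 0) * hpar 2 j +
      ((c1 • h + c2 • f) 2 * f1 0 - (c1 • h + c2 • f) 0 * f1 2) * hpar 1 j +
      ((c1 • h + c2 • f) 1 * f1 2 - (c1 • h + c2 • f) 2 * f1 1) * hpar 0 j
  rw [hD, hDf, mul_zero] at hj
  rcases mul_eq_zero.1 hj with h3 | h3
  · exact absurd h3 (neg_ne_zero.2 (mul_ne_zero hc1 hc1))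
  · exact h3

/-- If `D (f, f', h) = D (h, h', f) = 0` then `X (f, h)` is parallel to its derivative. -/
lemma cross_par {f f1 h h1 : Fin 3 → ℂ} (t1 : D f f1 h = 0) (t2 : D h h1 f = 0) :
    X (X f h) (X f1 h + X f h1) = 0 := by
  have key : X (X f h) (X f1 h + X f h1) = D f f1 h • h + D h h1 f • f := by
    funext i
    fin_cases i <;>
    · simp [X, D]
      ring
  rw [key, t1, t2, zero_smul, zero_smul, add_zero]

/-- If `D (m, m', m'') = 0` then `X (m, m')` is parallel to its derivative. -/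
lemma cross_par' {m m1 m2 : Fin 3 → ℂ} (t1 : D m m1 m2 = 0) :
    X (X m m1) (X m1 m1 + X m m2) = 0 := by
  have key : X (X m m1) (X m1 m1 + X m m2) = D m m1 m2 • m := by
    funext i
    fin_cases i <;>
    · simp [X, D]
      ring
  rw [key, t1, zero_smul]

/-! ### Holomorphic vector functions -/

/-- holomorphic in the upper half plane -/
def Hol (f : ℂ → Fin 3 → ℂ) : Prop := ∀ i, DifferentiableOn ℂ (fun z => f z i) HP

/-- derivative -/
def dv (f : ℂ → Fin 3 → ℂ) : ℂ → Fin 3 → ℂ := fun z i => deriv (fun y => f y i) z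

lemma Hol.dv {f : ℂ → Fin 3 → ℂ} (hf : Hol f) : Hol (dv f) := fun i =>
  (hf i).deriv HP_open

lemma Hol.hasDerivAt {f : ℂ → Fin 3 → ℂ} (hf : Hol f) {z : ℂ} (hz : z ∈ HP) (i : Fin 3) :
    HasDerivAt (fun y => f y i) (H87.FM.dv f z i) z :=
  ((hf i).differentiableAt (HP_open.mem_nhds hz)).hasDerivAt

lemma Hol.add {f h : ℂ → Fin 3 → ℂ} (hf : Hol f) (hh : Hol h) (a b : ℂ) :
    Hol (fun z => a • f z + b • h z) := fun i => by
  exact ((hf i).const_mul a).add ((hh i).const_mul b)

lemma dv_add {f h : ℂ → Fin 3 → ℂ} (hf : Hol f) (hh : Hol h) (a b : ℂ) {z : ℂ} (hz : z ∈ HP) :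
    dv (fun z => a • f z + b • h z) z = a • dv f z + b • dv h z := by
  funext i
  have h1 := ((hf.hasDerivAt hz i).const_mul a).add ((hh.hasDerivAt hz i).const_mul b)
  have h2 : (fun y => (a • f y + b • h y) i) = fun y => a * f y i + b * h y i := by
    funext y; simp
  show deriv (fun y => (a • f y + b • h y) i) z = a * dv f z i + b * dv h z i
  rw [h2]
  exact h1.deriv

lemma dv_dv_add {f h : ℂ → Fin 3 → ℂ} (hf : Hol f) (hh : Hol h) (a b : ℂ) {z : ℂ}
    (hz : z ∈ HP) :
    dv (dv (fun z => a • f z + b • h z)) z = a • dv (dv f) z + b • dv (dv h) z := by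
  have h1 : ∀ i, (fun y => dv (fun z => a • f z + b • h z) y i) =ᶠ[𝓝 z]
      fun y => (a • dv f y + b • dv h y) i := by
    intro i
    filter_upwards [HP_open.mem_nhds hz] with y hy
    rw [dv_add hf hh a b hy]
  rw [← dv_add hf.dv hh.dv a b hz]
  funext i
  exact (h1 i).deriv_eq

lemma hasDerivAt_D {a b c : ℂ → Fin 3 → ℂ} (ha : Hol a) (hb : Hol b) (hc : Hol c) {z : ℂ}
    (hz : z ∈ HP) :
    HasDerivAt (fun y => D (a y) (b y) (c y))
      (D (dv a z) (b z) (c z) + D (a z) (dv b z) (c z) + D (a z) (b z) (dv c z)) z := by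
  have ha' := fun i => ha.hasDerivAt hz i
  have hb' := fun i => hb.hasDerivAt hz i
  have hc' := fun i => hc.hasDerivAt hz i
  unfold D
  refine ((((ha' 0).mul (((hb' 1).mul (hc' 2)).sub ((hb' 2).mul (hc' 1)))).sub
    ((ha' 1).mul (((hb' 0).mul (hc' 2)).sub ((hb' 2).mul (hc' 0))))).add
    ((ha' 2).mul (((hb' 0).mul (hc' 1)).sub ((hb' 1).mul (hc' 0))))).congr_deriv ?_
  simp only [Pi.mul_apply, Pi.sub_apply]
  ring

lemma Hol.D {a b c : ℂ → Fin 3 → ℂ} (ha : Hol a) (hb : Hol b) (hc : Hol c) :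
    DifferentiableOn ℂ (fun y => H87.FM.D (a y) (b y) (c y)) HP := fun _ hz =>
  (hasDerivAt_D ha hb hc hz).differentiableAt.differentiableWithinAt

lemma Hol.X {a b : ℂ → Fin 3 → ℂ} (ha : Hol a) (hb : Hol b) :
    Hol (fun y => H87.FM.X (a y) (b y)) := by
  intro i
  fin_cases i
  · show DifferentiableOn ℂ (fun y => a y 1 * b y 2 - a y 2 * b y 1) HP
    exact ((ha 1).mul (hb 2)).sub ((ha 2).mul (hb 1))
  · show DifferentiableOn ℂ (fun y => a y 2 * b y 0 - a y 0 * b y 2) HP
    exact ((ha 2).mul (hb 0)).sub ((ha 0).mul (hb 2))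
  · show DifferentiableOn ℂ (fun y => a y 0 * b y 1 - a y 1 * b y 0) HP
    exact ((ha 0).mul (hb 1)).sub ((ha 1).mul (hb 0))

lemma dv_X {a b : ℂ → Fin 3 → ℂ} (ha : Hol a) (hb : Hol b) {z : ℂ} (hz : z ∈ HP) :
    dv (fun y => X (a y) (b y)) z = X (dv a z) (b z) + X (a z) (dv b z) := by
  have ha' := fun i => ha.hasDerivAt hz i
  have hb' := fun i => hb.hasDerivAt hz i
  funext i
  fin_cases i
  · have := (((ha' 1).mul (hb' 2)).sub ((ha' 2).mul (hb' 1))).deriv
    show deriv (fun y => a y 1 * b y 2 - a y 2 * b y 1) z = _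
    refine this.trans ?_
    simp [X]
    ring
  · have := (((ha' 2).mul (hb' 0)).sub ((ha' 0).mul (hb' 2))).deriv
    show deriv (fun y => a y 2 * b y 0 - a y 0 * b y 2) z = _
    refine this.trans ?_
    simp [X]
    ring
  · have := (((ha' 0).mul (hb' 1)).sub ((ha' 1).mul (hb' 0))).deriv
    show deriv (fun y => a y 0 * b y 1 - a y 1 * b y 0) z = _
    refine this.trans ?_
    simp [X]
    ring

/-- two holomorphic functions with vanishing Wronskian are proportional -/
lemma prop_of_wronskian {g k : ℂ → ℂ} (hg : DifferentiableOn ℂ g HP)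
    (hk : DifferentiableOn ℂ k HP) (hw : ∀ z ∈ HP, g z * deriv k z - k z * deriv g z = 0)
    {z0 : ℂ} (hz0 : z0 ∈ HP) (hg0 : g z0 ≠ 0) : ∃ ν : ℂ, ∀ z ∈ HP, k z = ν * g z := by
  have hgc : ContinuousAt g z0 := (hg.differentiableAt (HP_open.mem_nhds hz0)).continuousAt
  obtain ⟨r, hr, hball⟩ := Metric.mem_nhds_iff.1
    ((hgc.eventually_ne hg0).and (HP_open.mem_nhds hz0))
  have hq : DifferentiableOn ℂ (fun z => k z / g z) (ball z0 r) := by
    intro z hz
    have h1 := hball hz
    exact ((hk.differentiableAt (HP_open.mem_nhds h1.2)).div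
      (hg.differentiableAt (HP_open.mem_nhds h1.2)) h1.1).differentiableWithinAt
  have hconst : ∀ z ∈ ball z0 r, k z / g z = k z0 / g z0 := by
    intro z hz
    refine isOpen_ball.is_const_of_deriv_eq_zero (convex_ball z0 r).isPreconnected hq ?_ hz
      (mem_ball_self hr)
    intro y hy
    have h1 := hball hy
    have h2 := hg.differentiableAt (HP_open.mem_nhds h1.2)
    have h3 := hk.differentiableAt (HP_open.mem_nhds h1.2)
    have h4 := deriv_div h3 h2 h1.1
    show deriv (fun z => k z / g z) y = 0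
    have h5 : (fun z => k z / g z) = k / g := rfl
    rw [h5, h4, div_eq_zero_iff]
    left
    linear_combination hw y h1.2
  refine ⟨k z0 / g z0, ?_⟩
  have hA : AnalyticOnNhd ℂ k HP := hk.analyticOnNhd HP_open
  have hA2 : AnalyticOnNhd ℂ (fun z => k z0 / g z0 * g z) HP :=
    (hg.const_mul _).analyticOnNhd HP_open
  have hev : k =ᶠ[𝓝 z0] fun z => k z0 / g z0 * g z := by
    filter_upwards [ball_mem_nhds z0 hr] with z hz
    rw [← hconst z hz, div_mul_cancel₀ _ (hball hz).1]
  exact hA.eqOn_of_preconnected_of_eventuallyEq hA2 HP_preconn hz0 hev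

/-- A holomorphic vector function which is parallel to its derivative has a constant direction. -/
lemma const_dir {V : ℂ → Fin 3 → ℂ} (hV : Hol V) (hp : ∀ z ∈ HP, X (V z) (dv V z) = 0) :
    (∀ z ∈ HP, V z = 0) ∨ ∃ j : Fin 3, ∃ ν : Fin 3 → ℂ, ν j = 1 ∧ (∃ z ∈ HP, V z j ≠ 0) ∧
      ∀ z ∈ HP, V z = V z j • ν := by
  by_cases hall : ∀ z ∈ HP, V z = 0
  · exact Or.inl hall
  right
  push Not at hall
  obtain ⟨z0, hz0, hne⟩ := hall
  obtain ⟨j, hj⟩ : ∃ j, V z0 j ≠ 0 := by
    by_contra hcon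
    push Not at hcon
    exact hne (funext hcon)
  have hw : ∀ i, ∀ z ∈ HP, V z j * deriv (fun y => V y i) z - V z i * deriv (fun y => V y j) z
      = 0 := by
    intro i z hz
    have h0 := congrFun (hp z hz) 0
    have h1 := congrFun (hp z hz) 1
    have h2 := congrFun (hp z hz) 2
    simp only [X, dv, Matrix.cons_val_zero, Matrix.cons_val_one, Matrix.cons_val, Pi.zero_apply]
      at h0 h1 h2
    fin_cases i <;> fin_cases j <;> simp only [Fin.zero_eta, Fin.mk_one, Fin.reduceFinMk]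
    · ring
    · linear_combination -h2
    · linear_combination h1
    · linear_combination h2
    · ring
    · linear_combination -h0
    · linear_combination -h1
    · linear_combination h0
    · ring
  choose ν hν using fun i => prop_of_wronskian (hV j) (hV i) (hw i) hz0 hj
  refine ⟨j, ν, ?_, ⟨z0, hz0, hj⟩, ?_⟩
  · have := hν j z0 hz0
    have h1 : (ν j - 1) * V z0 j = 0 := by linear_combination -this
    rcases mul_eq_zero.1 h1 with h2 | h2
    · exact sub_eq_zero.1 h2
    · exact absurd h2 hj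
  · intro z hz
    funext i
    rw [Pi.smul_apply, smul_eq_mul, hν i z hz]
    ring

/-- identity theorem: a product which vanishes -/
lemma eq_zero_of_mul {g k : ℂ → ℂ} (hg : DifferentiableOn ℂ g HP) (hk : DifferentiableOn ℂ k HP)
    (h : ∀ z ∈ HP, g z * k z = 0) (hne : ∃ z ∈ HP, g z ≠ 0) : ∀ z ∈ HP, k z = 0 := by
  have h1 := AnalyticOnNhd.eq_zero_or_eq_zero_of_mul_eq_zero (hg.analyticOnNhd HP_open)
    (hk.analyticOnNhd HP_open) h HP_preconn
  rcases h1 with h2 | h2
  · obtain ⟨z, hz, hz'⟩ := hne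
    exact absurd (h2 z hz) hz'
  · exact h2

end H87.FM
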