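import Pool.Agent.H87.FM.Refl

set_option autoImplicit false

/-!
# A function on the upper half plane with real boundary values and weak growth is constant
-/

open Complex Metric Set Topology Filter
open scoped ComplexConjugate

noncomputable section

namespace H87.FM

lemma isLittleO_of_mul {f : ℂ → ℂ} {c : ℂ}
    (h : Tendsto (fun z => (z - c) * f z) (𝓝[≠] c) (𝓝 0)) :
    (fun z => f z - f c) =o[𝓝[≠] c] fun z => (z - c)⁻¹ := by
  rw [Asymptotics.isLittleO_iff_tendsto' ?_]
  · have h1 : Tendsto (fun z => (z - c) * f z - (z - c) * f c) (𝓝[≠] c) (𝓝 (0 - 0)) := by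
      refine h.sub ?_
      have h2 : Continuous fun z : ℂ => (z - c) * f c := by fun_prop
      have h3 := h2.tendsto c
      simp only [sub_self, zero_mul] at h3
      exact h3.mono_left nhdsWithin_le_nhds
    rw [sub_zero] at h1
    refine h1.congr fun z => ?_
    rw [div_inv_eq_mul]
    ring
  · filter_upwards [self_mem_nhdsWithin] with z hz h0
    exact absurd (inv_eq_zero.1 h0) (sub_ne_zero.2 hz)

theorem removable_finset (S : Finset ℂ) : ∀ (G : ℂ → ℂ) (U : Set ℂ), IsOpen U →
    DifferentiableOn ℂ G (U \ S) →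
    (∀ s ∈ S, s ∈ U → Tendsto (fun z => (z - s) * G z) (𝓝[≠] s) (𝓝 0)) →
    ∃ F : ℂ → ℂ, DifferentiableOn ℂ F U ∧ ∀ z, z ∉ S → F z = G z := by
  classical
  refine Finset.induction_on S ?_ ?_
  · intro G U _ hd _
    exact ⟨G, by simpa using hd, fun z _ => rfl⟩
  · intro a S ha ih G U hU hd hs
    by_cases haU : a ∈ U
    · set G1 := Function.update G a (limUnder (𝓝[≠] a) G) with hG1
      have hset : insert a (U \ ((insert a S : Finset ℂ) : Set ℂ)) = U \ (S : Set ℂ) := by
        ext z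
        simp only [Finset.coe_insert, mem_insert_iff, Set.mem_sdiff, Finset.mem_coe, not_or]
        constructor
        · rintro (rfl | ⟨h1, h2, h3⟩)
          · exact ⟨haU, ha⟩
          · exact ⟨h1, h3⟩
        · rintro ⟨h1, h2⟩
          by_cases hz : z = a
          · exact Or.inl hz
          · exact Or.inr ⟨h1, hz, h2⟩
      have hSc : IsClosed (S : Set ℂ) := S.finite_toSet.isClosed
      have hd1 : DifferentiableOn ℂ G1 (U \ S) := by
        rw [← hset]
        refine differentiableOn_update_limUnder_insert_of_isLittleO ?_ hd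
          (isLittleO_of_mul (hs a (Finset.mem_insert_self _ _) haU))
        have h1 : U \ (S : Set ℂ) ∈ 𝓝 a := (hU.sdiff hSc).mem_nhds ⟨haU, ha⟩
        rw [mem_nhdsWithin_iff_exists_mem_nhds_inter]
        refine ⟨_, h1, ?_⟩
        rintro z ⟨⟨h2, h3⟩, h4⟩
        refine ⟨h2, ?_⟩
        simp only [Finset.coe_insert, mem_insert_iff, Finset.mem_coe, not_or]
        exact ⟨h4, h3⟩
      obtain ⟨F, hF, hFe⟩ := ih G1 U hU hd1 (by
        intro s hsS hsU
        have hne : s ≠ a := fun h => ha (h ▸ hsS)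
        have h1 := hs s (Finset.mem_insert_of_mem hsS) hsU
        refine h1.congr' ?_
        have h2 : ∀ᶠ z in 𝓝[≠] s, z ≠ a :=
          nhdsWithin_le_nhds (isOpen_ne.mem_nhds hne)
        filter_upwards [h2] with z hz
        rw [hG1, Function.update_of_ne hz])
      refine ⟨F, hF, fun z hz => ?_⟩
      rw [Finset.mem_insert, not_or] at hz
      rw [hFe z hz.2, hG1, Function.update_of_ne hz.1]
    · have hset : U \ ((insert a S : Finset ℂ) : Set ℂ) = U \ (S : Set ℂ) := by
        ext z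
        simp only [Finset.coe_insert, mem_insert_iff, Set.mem_sdiff, Finset.mem_coe, not_or]
        constructor
        · rintro ⟨h1, h2, h3⟩
          exact ⟨h1, h3⟩
        · rintro ⟨h1, h2⟩
          exact ⟨h1, fun h => haU (h ▸ h1), h2⟩
      rw [hset] at hd
      obtain ⟨F, hF, hFe⟩ := ih G U hU hd (fun s hsS hsU => hs s (Finset.mem_insert_of_mem hsS) hsU)
      refine ⟨F, hF, fun z hz => ?_⟩
      rw [Finset.mem_insert, not_or] at hz
      exact hFe z hz.2

/-- the filter `z → ∞` in the upper half plane -/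
def Inf : Filter ℂ := comap norm atTop ⊓ 𝓟 HP

lemma mem_Inf {s : Set ℂ} : s ∈ Inf ↔ ∃ R : ℝ, ∀ z ∈ HP, R < ‖z‖ → z ∈ s := by
  unfold Inf
  rw [mem_inf_principal, mem_comap]
  constructor
  · rintro ⟨t, ht, hts⟩
    obtain ⟨R, hR⟩ := mem_atTop_sets.1 ht
    exact ⟨R, fun z hz hzR => hts (show ‖z‖ ∈ t from hR _ hzR.le) hz⟩
  · rintro ⟨R, hR⟩
    exact ⟨Ioi R, Ioi_mem_atTop R, fun z hz hzH => hR z hzH hz⟩

/-- A function of growth `o(z)` and real boundary values off finitely many (removable) points is a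
real constant. -/
theorem global_const {T : ℂ → ℂ} (S : Finset ℝ) (hd : DifferentiableOn ℂ T HP)
    (hb : ∀ t : ℝ, t ∉ S → ∃ c : ℝ, Tendsto T (𝓝[HP] (t : ℂ)) (𝓝 (c : ℂ)))
    (hs : ∀ s ∈ S, Tendsto (fun z => (z - (s : ℂ)) * T z) (𝓝[HP] (s : ℂ)) (𝓝 0))
    (hi : Tendsto (fun z => T z / z) Inf (𝓝 0)) :
    ∃ c : ℝ, ∀ z ∈ HP, T z = c := by
  classical
  set SC : Finset ℂ := S.image (fun s : ℝ => (s : ℂ)) with hSC
  have memSC : ∀ t : ℝ, (t : ℂ) ∈ SC ↔ t ∈ S := by
    intro t
    simp [hSC]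
  have imSC : ∀ z ∈ SC, z.im = 0 := by
    intro z hz
    obtain ⟨s, -, rfl⟩ := Finset.mem_image.1 hz
    simp
  have hSCc : IsClosed (SC : Set ℂ) := SC.finite_toSet.isClosed
  set U : Set ℂ := (SC : Set ℂ)ᶜ with hU
  have hUo : IsOpen U := hSCc.isOpen_compl
  have hUs : ∀ z ∈ U, conj z ∈ U := by
    intro z hz hcz
    have h1 := imSC _ hcz
    have h2 : conj z = z := Complex.conj_eq_iff_im.2 (by simpa using h1)
    rw [h2] at hcz
    exact hz hcz
  -- limits
  have hlim : ∀ z ∈ CH, z ∉ SC → ∃ y, Tendsto T (𝓝[HP] z) (𝓝 y) ∧ (z.im = 0 → y.im = 0) := by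
    intro z hz hzS
    by_cases h0 : z.im = 0
    · have h1 : z = ((z.re : ℝ) : ℂ) := Complex.ext (by simp) (by simp [h0])
      have h2 : z.re ∉ S := by
        rw [← memSC, ← h1]; exact hzS
      obtain ⟨c, hc⟩ := hb _ h2
      rw [← h1] at hc
      exact ⟨c, hc, fun _ => by simp⟩
    · have h1 : 0 < z.im := lt_of_le_of_ne hz (Ne.symm h0)
      refine ⟨T z, ?_, fun h => absurd h h0⟩
      exact (hd z h1).continuousWithinAt
  set Tb : ℂ → ℂ := extendFrom HP T with hTb
  have hTbe : ∀ z ∈ CH, ∀ y, Tendsto T (𝓝[HP] z) (𝓝 y) → Tb z = y := fun z hz y hy =>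
    extendFrom_eq (CH_sub_closure hz) hy
  have hTbH : ∀ z ∈ HP, Tb z = T z := fun z hz => hTbe z (HP_sub_CH hz) _ (hd.continuousOn z hz)
  have hTbc : ContinuousOn Tb (U ∩ CH) := by
    refine continuousOn_extendFrom (fun z hz => CH_sub_closure hz.2) ?_
    intro z hz
    obtain ⟨y, hy, -⟩ := hlim z hz.2 hz.1
    exact ⟨y, hy⟩
  obtain ⟨g, hg, hg1, hg2⟩ := reflect_open hUo hUs (h := Tb) hTbc
    (by
      intro z hz h0
      have h1 : DifferentiableAt ℂ T z := (hd z h0).differentiableAt (HP_open.mem_nhds h0)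
      refine h1.congr_of_eventuallyEq ?_
      filter_upwards [HP_open.mem_nhds h0] with y hy
      exact hTbH y hy)
    (by
      intro z hz h0
      have hzC : z ∈ CH := h0.ge
      obtain ⟨y, hy, hy0⟩ := hlim z hzC hz
      rw [hTbe z hzC y hy]
      exact hy0 h0)
  -- bounds pass to the closed half plane and to the reflected one
  have hpass : ∀ (V : Set ℂ) (B : ℂ → ℝ), IsOpen V → (∀ z ∈ V, conj z ∈ V) → Continuous B →
      (∀ z, B (conj z) = B z) → (∀ z ∈ HP, z ∈ V → ‖T z‖ ≤ B z) →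
      ∀ z ∈ V, z ∉ SC → ‖g z‖ ≤ B z := by
    intro V B hV hVs hB hBs hT
    have hup : ∀ z ∈ V, z ∉ SC → 0 ≤ z.im → ‖g z‖ ≤ B z := by
      intro z hz hzS h0
      obtain ⟨y, hy, -⟩ := hlim z h0 hzS
      rw [hg1 z h0, hTbe z h0 y hy]
      have : NeBot (𝓝[HP] z) := mem_closure_iff_nhdsWithin_neBot.1 (CH_sub_closure h0)
      refine le_of_tendsto_of_tendsto hy.norm (hB.continuousWithinAt (s := HP)) ?_
      filter_upwards [self_mem_nhdsWithin, nhdsWithin_le_nhds (hV.mem_nhds hz)] with x h1 h2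
      exact hT x h1 h2
    intro z hz hzS
    rcases le_or_gt 0 z.im with h0 | h0
    · exact hup z hz hzS h0
    · have h1 : 0 ≤ (conj z).im := by simp [h0.le]
      have h2 := hup (conj z) (hVs z hz) (fun h => (hUs (conj z) ·) |> fun k => by
        have := imSC _ h
        simp at this
        linarith) h1
      rw [hg2 z h0, RCLike.norm_conj, ← hg1 (conj z) h1, ← hBs z]
      exact h2
  -- removable singularities
  obtain ⟨F, hF, hFe⟩ := removable_finset SC g univ isOpen_univ
    (by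
      rw [← compl_eq_univ_sdiff]
      exact hg)
    (by
      intro s hsS _
      obtain ⟨s', hs'S, rfl⟩ := Finset.mem_image.1 hsS
      have hT := hs s' hs'S
      rw [tendsto_zero_iff_norm_tendsto_zero]
      rw [tendsto_zero_iff_norm_tendsto_zero] at hT
      rw [Metric.tendsto_nhds] at hT ⊢
      intro ε hε
      have h1 := hT (ε / 2) (by linarith)
      rw [eventually_nhdsWithin_iff, Metric.eventually_nhds_iff_ball] at h1
      obtain ⟨δ, hδ, h2⟩ := h1
      have h4 : ∀ z ∈ ball (s' : ℂ) δ, z ∉ SC → ‖(z - s') * g z‖ ≤ ε / 2 := by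
        intro z hz hzS
        have hup : ∀ z ∈ ball (s' : ℂ) δ, z ∉ SC → 0 ≤ z.im → ‖(z - s') * g z‖ ≤ ε / 2 := by
          intro z hz hzS h0
          obtain ⟨y, hy, -⟩ := hlim z h0 hzS
          rw [hg1 z h0, hTbe z h0 y hy]
          have : NeBot (𝓝[HP] z) := mem_closure_iff_nhdsWithin_neBot.1 (CH_sub_closure h0)
          have hl : Tendsto (fun x => ‖(x - (s' : ℂ)) * T x‖) (𝓝[HP] z)
              (𝓝 ‖(z - s') * y‖) := by
            refine Tendsto.norm (Tendsto.mul ?_ hy)
            exact (continuous_id.sub continuous_const).continuousWithinAt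
          refine le_of_tendsto hl ?_
          filter_upwards [self_mem_nhdsWithin, nhdsWithin_le_nhds (isOpen_ball.mem_nhds hz)]
            with x hx1 hx2
          have := h2 x hx2 hx1
          rw [Real.dist_eq, sub_zero, abs_of_nonneg (norm_nonneg _)] at this
          exact this.le
        rcases le_or_gt 0 z.im with h0 | h0
        · exact hup z hz hzS h0
        · have h1 : 0 ≤ (conj z).im := by simp [h0.le]
          have hzb : conj z ∈ ball (s' : ℂ) δ := by
            rw [mem_ball, Complex.dist_eq] at hz ⊢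
            have : conj z - (s' : ℂ) = conj (z - s') := by simp
            rw [this, RCLike.norm_conj]
            exact hz
          have h5 := hup (conj z) hzb (fun h => by
            have := imSC _ h
            simp at this
            linarith) h1
          rw [norm_mul] at h5 ⊢
          have h6 : conj z - (s' : ℂ) = conj (z - s') := by simp
          rw [h6, RCLike.norm_conj, hg1 (conj z) h1] at h5
          rw [hg2 z h0, RCLike.norm_conj]
          exact h5
      have h5 : ∀ᶠ z in 𝓝[≠] (s' : ℂ), z ∉ SC := by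
        have h6 : ((SC.erase (s' : ℂ) : Finset ℂ) : Set ℂ)ᶜ ∈ 𝓝 (s' : ℂ) :=
          (SC.erase (s' : ℂ)).finite_toSet.isClosed.isOpen_compl.mem_nhds (by simp)
        filter_upwards [nhdsWithin_le_nhds h6, self_mem_nhdsWithin] with z hz1 hz2 hz3
        exact hz1 (Finset.mem_coe.2 (Finset.mem_erase.2 ⟨hz2, hz3⟩))
      filter_upwards [h5, nhdsWithin_le_nhds (ball_mem_nhds (s' : ℂ) hδ)] with z hz1 hz2
      rw [Real.dist_eq, sub_zero, abs_of_nonneg (norm_nonneg _)]
      linarith [h4 z hz2 hz1])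
  have hFd : Differentiable ℂ F := differentiableOn_univ.1 hF
  -- growth at infinity
  have hgrow : ∀ ε > 0, ∃ R : ℝ, 0 < R ∧ ∀ z, R < ‖z‖ → ‖F z‖ ≤ ε * ‖z‖ := by
    intro ε hε
    rw [tendsto_zero_iff_norm_tendsto_zero, Metric.tendsto_nhds] at hi
    have h1 := hi ε hε
    rw [eventually_iff, mem_Inf] at h1
    obtain ⟨R, hR⟩ := h1
    obtain ⟨R1, hR1⟩ : ∃ R1 : ℝ, ∀ z ∈ SC, ‖z‖ ≤ R1 := by
      refine ⟨∑ z ∈ SC, ‖z‖, fun z hz => ?_⟩
      exact Finset.single_le_sum (f := fun z : ℂ => ‖z‖) (fun _ _ => norm_nonneg _) hz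
    refine ⟨max (max R R1) 1, by positivity, fun z hz => ?_⟩
    have hzR : R < ‖z‖ := (le_trans (le_max_left _ _) (le_max_left _ _)).trans_lt hz
    have hzR1 : R1 < ‖z‖ := (le_trans (le_max_right _ _) (le_max_left _ _)).trans_lt hz
    have hzS : z ∉ SC := fun h => absurd (hR1 z h) (not_le.2 hzR1)
    rw [hFe z hzS]
    refine hpass {z | R < ‖z‖} (fun z => ε * ‖z‖) (isOpen_lt continuous_const continuous_norm)
      ?_ (by fun_prop) ?_ ?_ z hzR hzS
    · intro y hy
      simpa [RCLike.norm_conj] using hy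
    · intro y
      simp
    · intro y hy hyR
      have h2 := hR y hy hyR
      simp only [mem_ofPred_eq, norm_div, Real.dist_eq, sub_zero, abs_div, abs_norm] at h2
      have hy0 : 0 < ‖y‖ := by
        rw [norm_pos_iff]
        rintro rfl
        simp [HP] at hy
      rw [div_lt_iff₀ hy0] at h2
      exact h2.le
  -- Liouville
  have hK : Differentiable ℂ (dslope F 0) := by
    rw [← differentiableOn_univ, Complex.differentiableOn_dslope univ_mem]
    exact hF
  have hK0 : Tendsto (dslope F 0) (cocompact ℂ) (𝓝 0) := by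
    rw [tendsto_zero_iff_norm_tendsto_zero, Metric.tendsto_nhds]
    intro ε hε
    obtain ⟨R, hR0, hR⟩ := hgrow (ε / 2) (by linarith)
    rw [← Metric.cobounded_eq_cocompact]
    have h1 : ∀ᶠ z : ℂ in Bornology.cobounded ℂ, max R (4 * ‖F 0‖ / ε) < ‖z‖ :=
      (tendsto_norm_cobounded_atTop (E := ℂ)).eventually (eventually_gt_atTop _)
    filter_upwards [h1] with z hz
    have hz1 : R < ‖z‖ := (le_max_left _ _).trans_lt hz
    have hz2 : 4 * ‖F 0‖ / ε < ‖z‖ := (le_max_right _ _).trans_lt hz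
    have hz0 : 0 < ‖z‖ := hR0.trans hz1
    have hzne : z ≠ 0 := norm_pos_iff.1 hz0
    rw [dslope_of_ne _ hzne, slope_def_field, sub_zero, norm_div, Real.dist_eq, sub_zero,
      abs_div, abs_norm, abs_norm, div_lt_iff₀ hz0]
    rw [div_lt_iff₀ hε] at hz2
    have h3 : ‖F z - F 0‖ ≤ ‖F z‖ + ‖F 0‖ := norm_sub_le _ _
    have h4 := hR z hz1
    nlinarith [norm_nonneg (F 0)]
  have hconst : ∀ z, F z = F 0 := by
    intro z
    have h1 : dslope F 0 z = 0 := hK.apply_eq_of_tendsto_cocompact z hK0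
    by_cases hz : z = 0
    · rw [hz]
    · rw [dslope_of_ne _ hz, slope_def_field, sub_zero] at h1
      rcases div_eq_zero_iff.1 h1 with h2 | h2
      · exact sub_eq_zero.1 h2
      · exact absurd h2 hz
  -- the constant is real
  obtain ⟨t, ht⟩ : ∃ t : ℝ, t ∉ S := S.exists_notMem
  obtain ⟨c, hc⟩ := hb t ht
  have htS : (t : ℂ) ∉ SC := fun h => ht ((memSC t).1 h)
  have htC : (t : ℂ) ∈ CH := by simp [CH]
  have hct : F (t : ℂ) = c := by
    rw [hFe _ htS, hg1 _ (by simp), hTbe _ htC _ hc]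
  refine ⟨c, fun z hz => ?_⟩
  have hzS : z ∉ SC := fun h => by
    have h1 := imSC z h
    have h2 : 0 < z.im := hz
    linarith
  have h0 : (0 : ℝ) ≤ z.im := (show 0 < z.im from hz).le
  rw [← hTbH z hz, ← hg1 z h0, ← hFe z hzS, hconst z, ← hconst (t : ℂ), hct]

/-- The case of growth `o(1)`. -/
theorem global_zero {T : ℂ → ℂ} (S : Finset ℝ) (hd : DifferentiableOn ℂ T HP)
    (hb : ∀ t : ℝ, t ∉ S → ∃ c : ℝ, Tendsto T (𝓝[HP] (t : ℂ)) (𝓝 (c : ℂ)))
    (hs : ∀ s ∈ S, Tendsto (fun z => (z - (s : ℂ)) * T z) (𝓝[HP] (s : ℂ)) (𝓝 0))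
    (hi : Tendsto T Inf (𝓝 0)) : ∀ z ∈ HP, T z = 0 := by
  have hInf : NeBot Inf := by
    rw [← forall_mem_nonempty_iff_neBot]
    intro s hs
    obtain ⟨R, hR⟩ := mem_Inf.1 hs
    refine ⟨(|R| + 1 : ℝ) * Complex.I, hR _ ?_ ?_⟩
    · show 0 < (((|R| + 1 : ℝ) : ℂ) * Complex.I).im
      simp
      positivity
    · rw [norm_mul, Complex.norm_I, mul_one, Complex.norm_real, Real.norm_eq_abs,
        abs_of_pos (by positivity)]
      linarith [le_abs_self R]
  have hInv : Tendsto (fun z : ℂ => z⁻¹) Inf (𝓝 0) := by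
    have h1 : Tendsto (fun z : ℂ => z⁻¹) (comap norm atTop) (𝓝 0) := by
      rw [comap_norm_atTop]
      exact tendsto_inv₀_cobounded
    exact h1.mono_left inf_le_left
  obtain ⟨c, hc⟩ := global_const S hd hb hs (by
    have := hi.mul hInv
    simpa [div_eq_mul_inv] using this)
  have hmem : HP ∈ Inf := mem_Inf.2 ⟨0, fun z hz _ => hz⟩
  have h1 : Tendsto T Inf (𝓝 (c : ℂ)) := by
    refine tendsto_const_nhds.congr' ?_
    filter_upwards [hmem] with z hz
    exact (hc z hz).symm
  have h2 := tendsto_nhds_unique h1 hi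
  intro z hz
  rw [hc z hz, h2]

end H87.FM
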