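import Pool.Agent.H87.FM.Glob

set_option autoImplicit false

/-!
# Local extension across a real point, possibly with a logarithm
-/

open Complex Metric Set Topology Filter
open scoped ComplexConjugate

noncomputable section

namespace H87.FM

/-- Extension across a real point `t` of a function with real boundary values. -/
theorem ext_punct {p : ℂ → ℂ} {t r : ℝ} (hr : 0 < r)
    (hc : ContinuousOn p ((ball (t : ℂ) r ∩ CH) \ {(t : ℂ)}))
    (hd : DifferentiableOn ℂ p (ball (t : ℂ) r ∩ HP))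
    (hre : ∀ s : ℝ, s ≠ t → (s : ℂ) ∈ ball (t : ℂ) r → (p s).im = 0)
    (h0 : Tendsto (fun z => (z - t) * p z) (𝓝[HP] (t : ℂ)) (𝓝 0)) :
    ∃ P : ℂ → ℂ, DifferentiableOn ℂ P (ball (t : ℂ) r) ∧
      (∀ z ∈ ball (t : ℂ) r, 0 ≤ z.im → z ≠ t → P z = p z) ∧
      (∀ s : ℝ, (s : ℂ) ∈ ball (t : ℂ) r → (P s).im = 0) := by
  classical
  set U : Set ℂ := ball (t : ℂ) r \ {(t : ℂ)} with hU
  have hUo : IsOpen U := isOpen_ball.sdiff isClosed_singleton
  have hbs : ∀ z ∈ ball (t : ℂ) r, conj z ∈ ball (t : ℂ) r := by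
    intro z hz
    rw [mem_ball, Complex.dist_eq] at hz ⊢
    have h1 : conj z - (t : ℂ) = conj (z - t) := by simp
    rw [h1, RCLike.norm_conj]
    exact hz
  have hUs : ∀ z ∈ U, conj z ∈ U := by
    intro z hz
    refine ⟨hbs z hz.1, fun h => hz.2 ?_⟩
    have h1 : conj (conj z) = conj (t : ℂ) := by rw [show conj z = (t : ℂ) from h]
    rw [Complex.conj_conj, Complex.conj_ofReal] at h1
    exact h1
  obtain ⟨g, hg, hg1, hg2⟩ := reflect_open hUo hUs (h := p)
    (hc.mono fun z hz => ⟨⟨hz.1.1, hz.2⟩, hz.1.2⟩)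
    (by
      intro z hz hz0
      exact (hd z ⟨hz.1, hz0⟩).differentiableAt
        ((isOpen_ball.inter HP_open).mem_nhds ⟨hz.1, hz0⟩))
    (by
      intro z hz hz0
      have h1 : z = ((z.re : ℝ) : ℂ) := Complex.ext (by simp) (by simp [hz0])
      rw [h1]
      refine hre _ ?_ ?_
      · intro h2
        refine hz.2 ?_
        rw [h1, h2]
        rfl
      · rw [← h1]; exact hz.1)
  have hlimz : Tendsto (fun z => (z - t) * g z) (𝓝[≠] (t : ℂ)) (𝓝 0) := by
    rw [tendsto_zero_iff_norm_tendsto_zero]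
    rw [tendsto_zero_iff_norm_tendsto_zero] at h0
    rw [Metric.tendsto_nhds] at h0 ⊢
    intro ε hε
    have h1 := h0 (ε / 2) (by linarith)
    rw [eventually_nhdsWithin_iff, Metric.eventually_nhds_iff_ball] at h1
    obtain ⟨δ, hδ, h2⟩ := h1
    set δ' := min δ r with hδ'
    have hδ'0 : 0 < δ' := lt_min hδ hr
    have hup : ∀ z ∈ ball (t : ℂ) δ', z ≠ t → 0 ≤ z.im → ‖(z - t) * g z‖ ≤ ε / 2 := by
      intro z hz hzt hz0
      have hzr : z ∈ ball (t : ℂ) r := ball_subset_ball (min_le_right _ _) hz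
      have hzδ : z ∈ ball (t : ℂ) δ := ball_subset_ball (min_le_left _ _) hz
      rw [hg1 z hz0]
      have : NeBot (𝓝[HP ∩ ball (t : ℂ) r] z) := by
        rw [nhdsWithin_inter_of_mem' (nhdsWithin_le_nhds (isOpen_ball.mem_nhds hzr))]
        exact mem_closure_iff_nhdsWithin_neBot.1 (CH_sub_closure hz0)
      have hcz : Tendsto p (𝓝[HP ∩ ball (t : ℂ) r] z) (𝓝 (p z)) := by
        have h3 : ContinuousWithinAt p ((ball (t : ℂ) r ∩ CH) \ {(t : ℂ)}) z :=
          hc z ⟨⟨hzr, hz0⟩, hzt⟩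
        refine h3.mono fun y hy => ⟨⟨hy.2, HP_sub_CH hy.1⟩, fun h4 => ?_⟩
        have h5 : y.im = 0 := by rw [show y = (t : ℂ) from h4]; simp
        have h6 : 0 < y.im := hy.1
        linarith
      have hl : Tendsto (fun x => ‖(x - (t : ℂ)) * p x‖) (𝓝[HP ∩ ball (t : ℂ) r] z)
          (𝓝 ‖(z - t) * p z‖) := by
        refine Tendsto.norm (Tendsto.mul ?_ hcz)
        exact (continuous_id.sub continuous_const).continuousWithinAt
      refine le_of_tendsto hl ?_
      filter_upwards [self_mem_nhdsWithin, nhdsWithin_le_nhds (isOpen_ball.mem_nhds hzδ)]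
        with x hx1 hx2
      have := h2 x hx2 hx1.1
      rw [Real.dist_eq, sub_zero, abs_of_nonneg (norm_nonneg _)] at this
      exact this.le
    have hall : ∀ z ∈ ball (t : ℂ) δ', z ≠ t → ‖(z - t) * g z‖ ≤ ε / 2 := by
      intro z hz hzt
      rcases le_or_gt 0 z.im with h3 | h3
      · exact hup z hz hzt h3
      · have h4 : 0 ≤ (conj z).im := by simp [h3.le]
        have h5 : conj z ∈ ball (t : ℂ) δ' := by
          rw [mem_ball, Complex.dist_eq] at hz ⊢
          have h1 : conj z - (t : ℂ) = conj (z - t) := by simp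
          rw [h1, RCLike.norm_conj]
          exact hz
        have h6 : conj z ≠ t := by
          intro h
          have : (conj z).im = 0 := by rw [h]; simp
          simp at this
          linarith
        have h7 := hup (conj z) h5 h6 h4
        have h8 : conj z - (t : ℂ) = conj (z - t) := by simp
        rw [norm_mul, h8, RCLike.norm_conj, hg1 _ h4] at h7
        rw [norm_mul, hg2 z h3, RCLike.norm_conj]
        exact h7
    filter_upwards [self_mem_nhdsWithin, nhdsWithin_le_nhds (ball_mem_nhds (t : ℂ) hδ'0)]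
      with z hz1 hz2
    rw [Real.dist_eq, sub_zero, abs_of_nonneg (norm_nonneg _)]
    linarith [hall z hz2 hz1]
  obtain ⟨F, hF, hFe⟩ := removable_finset {(t : ℂ)} g (ball (t : ℂ) r) isOpen_ball
    (by simpa using hg)
    (by
      intro s hs _
      rw [Finset.mem_singleton] at hs
      subst hs
      exact hlimz)
  have hne : ∀ s : ℝ, s ≠ t → (s : ℂ) ∈ ball (t : ℂ) r → (F s).im = 0 := by
    intro s hs hsb
    have h1 : (s : ℂ) ∉ ({(t : ℂ)} : Finset ℂ) := by
      rw [Finset.mem_singleton]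
      exact_mod_cast hs
    rw [hFe _ h1, hg1 _ (by simp)]
    exact hre s hs hsb
  refine ⟨F, hF, ?_, ?_⟩
  · intro z _ hz0 hzt
    rw [hFe z (by rwa [Finset.mem_singleton]), hg1 z hz0]
  · intro s hs
    by_cases hst : s = t
    · subst hst
      -- continuity
      have hcF : ContinuousAt F (s : ℂ) := (hF.continuousOn).continuousAt (ball_mem_nhds _ hr)
      have hc2 : Tendsto (fun y : ℝ => (F (y : ℂ)).im) (𝓝[≠] s) (𝓝 (F (s : ℂ)).im) := by
        have h1 : ContinuousAt (fun y : ℝ => (F (y : ℂ)).im) s := by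
          refine Complex.continuous_im.continuousAt.comp ?_
          exact ContinuousAt.comp (g := F) hcF Complex.continuous_ofReal.continuousAt
        exact h1.tendsto.mono_left nhdsWithin_le_nhds
      have hc3 : Tendsto (fun y : ℝ => (F (y : ℂ)).im) (𝓝[≠] s) (𝓝 0) := by
        refine tendsto_const_nhds.congr' ?_
        have h2 : ∀ᶠ y : ℝ in 𝓝 s, (y : ℂ) ∈ ball (s : ℂ) r :=
          Complex.continuous_ofReal.continuousAt.eventually_mem (ball_mem_nhds _ hr)
        filter_upwards [self_mem_nhdsWithin, nhdsWithin_le_nhds h2] with y h3 h4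
        exact (hne y h3 h4).symm
      exact tendsto_nhds_unique hc2 hc3
    · exact hne s hst hs

/-- The derivative of a function which is real on the reals is real on the reals. -/
theorem deriv_real {P : ℂ → ℂ} {t r : ℝ} (hP : DifferentiableOn ℂ P (ball (t : ℂ) r))
    (hre : ∀ s : ℝ, (s : ℂ) ∈ ball (t : ℂ) r → (P s).im = 0) :
    ∀ s : ℝ, (s : ℂ) ∈ ball (t : ℂ) r → (deriv P s).im = 0 := by
  intro s hs
  have h1 : HasDerivAt P (deriv P s) (s : ℂ) :=
    (hP.differentiableAt (isOpen_ball.mem_nhds hs)).hasDerivAt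
  have h2 : HasDerivAt (fun y : ℝ => (P (y : ℂ)).im) ((deriv P s).im) s := by
    have h3 := h1.comp_ofReal
    have := Complex.imCLM.hasFDerivAt.comp_hasDerivAt s h3
    simpa [Function.comp_def] using this
  have h4 : (fun y : ℝ => (P (y : ℂ)).im) =ᶠ[𝓝 s] fun _ => 0 := by
    have h5 : ∀ᶠ y : ℝ in 𝓝 s, (y : ℂ) ∈ ball (t : ℂ) r :=
      Complex.continuous_ofReal.continuousAt.eventually_mem (isOpen_ball.mem_nhds hs)
    filter_upwards [h5] with y hy
    exact hre y hy
  exact h2.unique ((hasDerivAt_const s (0 : ℝ)).congr_of_eventuallyEq h4)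

lemma log_CH {z : ℂ} (hz : z ∈ CH) (h0 : z ≠ 0) : ContinuousWithinAt Complex.log CH z := by
  by_cases hs : z ∈ slitPlane
  · exact (continuousAt_clog hs).continuousWithinAt
  · rw [mem_slitPlane_iff, not_or, not_lt, not_not] at hs
    have hre : z.re < 0 := lt_of_le_of_ne hs.1 (fun h => h0 (Complex.ext h hs.2))
    exact Complex.continuousWithinAt_log_of_re_neg_of_im_zero hre hs.2

/-- Structure near a mark: two components extend, the third one has a logarithm. -/
theorem ext_log {p2 p3 : ℂ → ℂ} {t r : ℝ} (hr : 0 < r) {κ : ℝ} (hκ : κ ≠ 0)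
    (hc2 : ContinuousOn p2 ((ball (t : ℂ) r ∩ CH) \ {(t : ℂ)}))
    (hd2 : DifferentiableOn ℂ p2 (ball (t : ℂ) r ∩ HP))
    (hc3 : ContinuousOn p3 ((ball (t : ℂ) r ∩ CH) \ {(t : ℂ)}))
    (hd3 : DifferentiableOn ℂ p3 (ball (t : ℂ) r ∩ HP))
    (hre2 : ∀ s : ℝ, s ≠ t → (s : ℂ) ∈ ball (t : ℂ) r → (p2 s).im = 0)
    (hre3 : ∀ s : ℝ, t < s → (s : ℂ) ∈ ball (t : ℂ) r → (p3 s).im = 0)
    (hle3 : ∀ s : ℝ, s < t → (s : ℂ) ∈ ball (t : ℂ) r → (p3 s).im = κ * (p2 s).re)
    (hb : ∃ C : ℝ, ∀ z ∈ HP, ‖z - (t : ℂ)‖ < r → ‖p2 z‖ ≤ C ∧ ‖p3 z‖ ≤ C) :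
    ∃ P2 Q : ℂ → ℂ, DifferentiableOn ℂ P2 (ball (t : ℂ) r) ∧
      DifferentiableOn ℂ Q (ball (t : ℂ) r) ∧
      (∀ z ∈ ball (t : ℂ) r, z ∈ HP → P2 z = p2 z) ∧
      (∀ z ∈ ball (t : ℂ) r, z ∈ HP →
        p3 z = Q z + κ / Real.pi * P2 z * Complex.log (z - t)) ∧
      (∀ s : ℝ, (s : ℂ) ∈ ball (t : ℂ) r → (P2 s).im = 0) ∧
      (∀ s : ℝ, (s : ℂ) ∈ ball (t : ℂ) r → (Q s).im = 0) ∧ P2 t = 0 := by
  obtain ⟨C, hC⟩ := hb
  have hpi : (Real.pi : ℂ) ≠ 0 := by exact_mod_cast Real.pi_ne_zero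
  have hsmall : ∀ {f : ℂ → ℂ}, (∀ z ∈ HP, ‖z - (t : ℂ)‖ < r → ‖f z‖ ≤ C) →
      Tendsto (fun z => (z - t) * f z) (𝓝[HP] (t : ℂ)) (𝓝 0) := by
    intro f hf
    have h1 : Tendsto (fun z : ℂ => z - t) (𝓝[HP] (t : ℂ)) (𝓝 0) := by
      have h2 : Continuous fun z : ℂ => z - t := by fun_prop
      have h3 := h2.tendsto (t : ℂ)
      rw [sub_self] at h3
      exact h3.mono_left nhdsWithin_le_nhds
    refine h1.zero_mul_isBoundedUnder_le ⟨C, ?_⟩
    rw [eventually_map]
    filter_upwards [self_mem_nhdsWithin, nhdsWithin_le_nhds (ball_mem_nhds (t : ℂ) hr)]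
      with z hz1 hz2
    rw [mem_ball, Complex.dist_eq] at hz2
    exact hf z hz1 hz2
  obtain ⟨P2, hP2, hP2e, hP2r⟩ := ext_punct hr hc2 hd2 hre2
    (hsmall fun z hz hzr => (hC z hz hzr).1)
  have hne : ∀ z ∈ HP, z ≠ t := by
    intro z hz h
    have h1 : z.im = 0 := by rw [h]; simp
    have h2 : 0 < z.im := hz
    linarith
  have hlogc : ContinuousOn (fun z : ℂ => Complex.log (z - t)) (CH \ {(t : ℂ)}) := by
    intro z hz
    have h1 : z - t ∈ CH := by
      have : 0 ≤ z.im := hz.1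
      simpa [CH] using this
    have h2 : z - (t : ℂ) ≠ 0 := sub_ne_zero.2 hz.2
    have h3 := log_CH h1 h2
    have h4 : ContinuousWithinAt (fun y : ℂ => y - t) (CH \ {(t : ℂ)}) z := by fun_prop
    refine ContinuousWithinAt.comp (g := Complex.log) (f := fun y : ℂ => y - (t : ℂ)) (t := CH)
      (x := z) h3 h4 ?_
    intro y hy
    have : 0 ≤ y.im := hy.1
    simpa [CH] using this
  have hlogd : DifferentiableOn ℂ (fun z : ℂ => Complex.log (z - t)) HP := by
    intro z hz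
    have h1 : z - t ∈ slitPlane := by
      rw [mem_slitPlane_iff]
      right
      have : 0 < z.im := hz
      simp
      exact this.ne'
    exact ((differentiableAt_id.sub_const _).clog h1).differentiableWithinAt
  -- the log tends to infinity, but slowly
  have hlogsmall : Tendsto (fun z : ℂ => (z - t) * Complex.log (z - t)) (𝓝[HP] (t : ℂ)) (𝓝 0) := by
    rw [tendsto_zero_iff_norm_tendsto_zero]
    have h1 : Tendsto (fun z : ℂ => ‖z - t‖) (𝓝[HP] (t : ℂ)) (𝓝[>] 0) := by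
      rw [tendsto_nhdsWithin_iff]
      constructor
      · have h2 : Continuous fun z : ℂ => ‖z - t‖ := by fun_prop
        have h3 := h2.tendsto (t : ℂ)
        rw [sub_self, norm_zero] at h3
        exact h3.mono_left nhdsWithin_le_nhds
      · filter_upwards [self_mem_nhdsWithin] with z hz
        exact norm_pos_iff.2 (sub_ne_zero.2 (hne z hz))
    have h2 : Tendsto (fun x : ℝ => x * (|Real.log x| + Real.pi)) (𝓝[>] 0) (𝓝 0) := by
      have h3 : Tendsto (fun x : ℝ => Real.log x * x ^ (1 : ℝ)) (𝓝[>] 0) (𝓝 0) :=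
        tendsto_log_mul_rpow_nhdsGT_zero one_pos
      have h4 : Tendsto (fun x : ℝ => |Real.log x * x ^ (1 : ℝ)| + x * Real.pi) (𝓝[>] 0)
          (𝓝 (|0| + 0 * Real.pi)) := by
        refine (h3.abs).add ?_
        have h5 : Continuous fun x : ℝ => x * Real.pi := by fun_prop
        exact (h5.tendsto 0).mono_left nhdsWithin_le_nhds
      rw [abs_zero, zero_mul, add_zero] at h4
      refine h4.congr' ?_
      filter_upwards [self_mem_nhdsWithin] with x hx
      have hx' : 0 < x := hx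
      rw [Real.rpow_one, abs_mul, abs_of_pos hx']
      ring
    refine squeeze_zero (fun _ => norm_nonneg _) (fun z => ?_) (h2.comp h1)
    simp only [Function.comp]
    rw [norm_mul]
    refine mul_le_mul_of_nonneg_left ?_ (norm_nonneg _)
    refine (Complex.norm_le_abs_re_add_abs_im _).trans ?_
    rw [Complex.log_re, Complex.log_im]
    exact add_le_add_right (Complex.abs_arg_le_pi _) _
  set q : ℂ → ℂ := fun z => p3 z - κ / Real.pi * p2 z * Complex.log (z - t) with hq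
  obtain ⟨Q, hQ, hQe, hQr⟩ := ext_punct (p := q) hr
    (by
      refine hc3.sub (ContinuousOn.mul (continuousOn_const.mul hc2) ?_)
      exact hlogc.mono fun z hz => ⟨hz.1.2, hz.2⟩)
    (by
      refine hd3.sub (DifferentiableOn.mul (hd2.const_mul _) ?_)
      exact hlogd.mono fun z hz => hz.2)
    (by
      intro s hs hsb
      simp only [hq]
      have h2 := hre2 s hs hsb
      have h2' : p2 s = ((p2 s).re : ℂ) := Complex.ext (by simp) (by simp [h2])
      have h3 : ((κ : ℂ) / Real.pi * p2 s * Complex.log (s - t)).im =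
          κ / Real.pi * (p2 s).re * (Complex.log ((s : ℂ) - t)).im := by
        rw [h2']
        rw [← Complex.ofReal_div, ← Complex.ofReal_mul, Complex.im_ofReal_mul]
        simp
      rw [Complex.sub_im, h3, Complex.log_im]
      have h4 : ((s : ℂ) - t) = ((s - t : ℝ) : ℂ) := by push_cast; ring
      rcases lt_or_gt_of_ne hs with h5 | h5
      · rw [h4, Complex.arg_ofReal_of_neg (by linarith), hle3 s h5 hsb]
        field_simp
        ring
      · rw [h4, Complex.arg_ofReal_of_nonneg (by linarith), hre3 s h5 hsb]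
        ring)
    (by
      have h1 := hsmall (f := p3) fun z hz hzr => (hC z hz hzr).2
      have h2 : Tendsto (fun z => ((κ : ℂ) / Real.pi * P2 z) * ((z - t) * Complex.log (z - t)))
          (𝓝[HP] (t : ℂ)) (𝓝 ((κ / Real.pi * P2 t) * 0)) := by
        refine Tendsto.mul (tendsto_const_nhds.mul ?_) hlogsmall
        exact ((hP2.differentiableAt (ball_mem_nhds _ hr)).continuousAt).tendsto.mono_left
          nhdsWithin_le_nhds
      have h3 := h1.sub h2
      rw [mul_zero, sub_zero] at h3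
      refine h3.congr' ?_
      filter_upwards [self_mem_nhdsWithin, nhdsWithin_le_nhds (ball_mem_nhds (t : ℂ) hr)]
        with z hz1 hz2
      simp only [hq]
      rw [hP2e z hz2 (HP_sub_CH hz1) (hne z hz1)]
      ring)
  have hP2' : ∀ z ∈ ball (t : ℂ) r, z ∈ HP → P2 z = p2 z := fun z hz hzH =>
    hP2e z hz (HP_sub_CH hzH) (hne z hzH)
  have hQ' : ∀ z ∈ ball (t : ℂ) r, z ∈ HP →
      p3 z = Q z + κ / Real.pi * P2 z * Complex.log (z - t) := by
    intro z hz hzH
    rw [hQe z hz (HP_sub_CH hzH) (hne z hzH), hP2' z hz hzH]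
    simp only [hq]
    ring
  refine ⟨P2, Q, hP2, hQ, hP2', hQ', hP2r, hQr, ?_⟩
  -- `P2 t = 0`
  by_contra hcon
  have hlogt : Tendsto (fun z : ℂ => ‖Complex.log (z - t)‖) (𝓝[HP] (t : ℂ)) atTop := by
    have h1 : Tendsto (fun z : ℂ => ‖z - t‖) (𝓝[HP] (t : ℂ)) (𝓝[>] 0) := by
      rw [tendsto_nhdsWithin_iff]
      constructor
      · have h2 : Continuous fun z : ℂ => ‖z - t‖ := by fun_prop
        have h3 := h2.tendsto (t : ℂ)
        rw [sub_self, norm_zero] at h3
        exact h3.mono_left nhdsWithin_le_nhds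
      · filter_upwards [self_mem_nhdsWithin] with z hz
        exact norm_pos_iff.2 (sub_ne_zero.2 (hne z hz))
    have h2 : Tendsto (fun z : ℂ => -Real.log ‖z - t‖) (𝓝[HP] (t : ℂ)) atTop :=
      tendsto_neg_atBot_atTop.comp (Real.tendsto_log_nhdsGT_zero.comp h1)
    refine tendsto_atTop_mono (fun z => ?_) h2
    have h3 := Complex.abs_re_le_norm (Complex.log (z - t))
    rw [Complex.log_re] at h3
    exact (neg_le_abs _).trans h3
  have hcP2 : Tendsto (fun z => ‖P2 z‖) (𝓝[HP] (t : ℂ)) (𝓝 ‖P2 t‖) :=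
    (((hP2.differentiableAt (ball_mem_nhds _ hr)).continuousAt).tendsto.mono_left
      nhdsWithin_le_nhds).norm
  have hcQ : Tendsto (fun z => ‖Q z‖) (𝓝[HP] (t : ℂ)) (𝓝 ‖Q t‖) :=
    (((hQ.differentiableAt (ball_mem_nhds _ hr)).continuousAt).tendsto.mono_left
      nhdsWithin_le_nhds).norm
  have hpos : 0 < ‖P2 t‖ := norm_pos_iff.2 hcon
  have h1 : ∀ᶠ z in 𝓝[HP] (t : ℂ), ‖P2 t‖ / 2 < ‖P2 z‖ :=
    hcP2.eventually (lt_mem_nhds (by linarith))
  have h2 : ∀ᶠ z in 𝓝[HP] (t : ℂ), ‖Q z‖ < ‖Q t‖ + 1 :=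
    hcQ.eventually (gt_mem_nhds (by linarith))
  have h3 := hlogt.eventually (eventually_gt_atTop
    ((C + ‖Q t‖ + 1) / (|κ| / Real.pi * (‖P2 t‖ / 2))))
  have h4' : ∀ᶠ z in 𝓝[HP] (t : ℂ), z ∈ HP := self_mem_nhdsWithin
  have h5' : ∀ᶠ z in 𝓝[HP] (t : ℂ), z ∈ ball (t : ℂ) r :=
    nhdsWithin_le_nhds (ball_mem_nhds (t : ℂ) hr)
  obtain ⟨z, hz1, hz2, hz3, hz4, hz5⟩ := (h1.and (h2.and (h3.and (h4'.and h5')))).exists
  have hκ' : 0 < |κ| / Real.pi := div_pos (abs_pos.2 hκ) Real.pi_pos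
  have hz6 : ‖z - (t : ℂ)‖ < r := by
    have := hz5
    rw [← Complex.dist_eq]
    exact this
  have h4 := (hC z hz4 hz6).2
  rw [hQ' z hz5 hz4] at h4
  have h5 : ‖(κ : ℂ) / Real.pi * P2 z * Complex.log (z - t)‖ =
      |κ| / Real.pi * ‖P2 z‖ * ‖Complex.log (z - t)‖ := by
    rw [norm_mul, norm_mul, norm_div, Complex.norm_real, Complex.norm_real, Real.norm_eq_abs,
      Real.norm_eq_abs, abs_of_pos Real.pi_pos]
  have h6 : ‖(κ : ℂ) / Real.pi * P2 z * Complex.log (z - t)‖ ≤ C + ‖Q z‖ := by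
    have := norm_sub_le (Q z + (κ : ℂ) / Real.pi * P2 z * Complex.log (z - t)) (Q z)
    rw [add_sub_cancel_left] at this
    linarith
  rw [h5] at h6
  rw [div_lt_iff₀ (by positivity)] at hz3
  have h7 : |κ| / Real.pi * (‖P2 t‖ / 2) ≤ |κ| / Real.pi * ‖P2 z‖ :=
    mul_le_mul_of_nonneg_left hz1.le hκ'.le
  have h8 := mul_le_mul_of_nonneg_right h7 (norm_nonneg (Complex.log (z - t)))
  linarith

end H87.FM
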