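import Pool.Agent.H87.FM.Loc
import Pool.Agent.H87.FM.Det

set_option autoImplicit false

/-!
# Abstract boundary value problem: determinants of solutions
-/

open Complex Metric Set Topology Filter
open scoped ComplexConjugate

noncomputable section

namespace H87.FM

/-- the scalar of growth `z ^ (2/3)` -/
def phi (z : ℂ) : ℂ := w * Complex.exp (-(2 / 3) * Complex.log (-1 / z))

lemma neg_inv_HP {z : ℂ} (hz : z ∈ HP) : -1 / z ∈ HP := by
  have h1 : 0 < z.im := hz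
  have h2 : 0 < Complex.normSq z := by
    rw [Complex.normSq_pos]
    rintro rfl
    simp at h1
  show 0 < (-1 / z).im
  have h3 : -1 / z = -(z⁻¹) := by rw [neg_div, one_div]
  rw [h3, Complex.neg_im, Complex.inv_im]
  have : 0 < z.im / Complex.normSq z := by positivity
  have h4 : -(-z.im / Complex.normSq z) = z.im / Complex.normSq z := by ring
  rw [h4]
  exact this

lemma ne_zero_HP {z : ℂ} (hz : z ∈ HP) : z ≠ 0 := by
  rintro rfl
  simp [HP] at hz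

lemma HP_slit {z : ℂ} (hz : z ∈ HP) : z ∈ slitPlane := by
  rw [mem_slitPlane_iff]
  right
  exact (show 0 < z.im from hz).ne'

lemma hasDerivAt_neg_inv {z : ℂ} (hz : z ≠ 0) : HasDerivAt (fun y : ℂ => -1 / y) (1 / z ^ 2) z := by
  have h1 := (hasDerivAt_inv hz).const_mul (-1)
  have h2 : (fun y : ℂ => -1 / y) = fun y => -1 * y⁻¹ := by
    funext y; rw [div_eq_mul_inv]
  rw [h2]
  refine h1.congr_deriv ?_
  rw [one_div]; ring

lemma hasDerivAt_phi {z : ℂ} (hz : z ∈ HP) : HasDerivAt phi (2 / 3 * (phi z / z)) z := by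
  have h0 := ne_zero_HP hz
  have h1 := (hasDerivAt_neg_inv h0).clog (HP_slit (neg_inv_HP hz))
  have h2 := ((h1.const_mul (-(2 / 3) : ℂ)).cexp).const_mul w
  refine h2.congr_deriv ?_
  unfold phi
  field_simp

lemma phi_cube {z : ℂ} (hz : z ∈ HP) : phi z ^ 3 = z ^ 2 := by
  have h0 := ne_zero_HP hz
  have h1 : -1 / z ≠ 0 := ne_zero_HP (neg_inv_HP hz)
  unfold phi
  rw [mul_pow, w_cube, one_mul, ← Complex.exp_nat_mul]
  have h2 : ((3 : ℕ) : ℂ) * (-(2 / 3) * Complex.log (-1 / z)) =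
      ((-2 : ℤ) : ℂ) * Complex.log (-1 / z) := by push_cast; ring
  rw [h2, Complex.exp_int_mul, Complex.exp_log h1]
  have h3 : (-1 / z) ^ (-2 : ℤ) = ((-1 / z) ^ 2)⁻¹ := by
    rw [zpow_neg]; norm_cast
  rw [h3]
  field_simp

lemma phi_ne {z : ℂ} : phi z ≠ 0 := mul_ne_zero w_ne (Complex.exp_ne_zero _)

/-- The local frames of a boundary value problem. -/
structure Frames where
  S : Finset ℝ
  N : ℝ → Matrix (Fin 3) (Fin 3) ℂ
  card : S.card = 4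
  det_real : ∀ t ∉ S, ∃ d : ℝ, d ≠ 0 ∧ (N t).det = d
  det_ne : ∀ t ∈ S, (N t).det ≠ 0

/-- The analytic properties of the solutions. -/
structure Nice (F : Frames) (f : ℂ → Fin 3 → ℂ) : Prop where
  hol : Hol f
  loc : ∀ t ∉ F.S, ∃ r : ℝ, 0 < r ∧ ∃ P : Fin 3 → ℂ → ℂ,
    (∀ i, DifferentiableOn ℂ (P i) (ball (t : ℂ) r)) ∧
    (∀ i, ∀ z ∈ ball (t : ℂ) r, z ∈ HP → (F.N t).mulVec (f z) i = P i z) ∧
    (∀ i, ∀ s : ℝ, (s : ℂ) ∈ ball (t : ℂ) r → (P i s).im = 0)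
  mark : ∀ t ∈ F.S, ∃ r : ℝ, 0 < r ∧ ∃ P0 P1 Q : ℂ → ℂ, ∃ κ : ℂ,
    DifferentiableOn ℂ P0 (ball (t : ℂ) r) ∧ DifferentiableOn ℂ P1 (ball (t : ℂ) r) ∧
    DifferentiableOn ℂ Q (ball (t : ℂ) r) ∧ P1 t = 0 ∧
    (∀ z ∈ ball (t : ℂ) r, z ∈ HP → (F.N t).mulVec (f z) 0 = P0 z) ∧
    (∀ z ∈ ball (t : ℂ) r, z ∈ HP → (F.N t).mulVec (f z) 1 = P1 z) ∧
    (∀ z ∈ ball (t : ℂ) r, z ∈ HP →
      (F.N t).mulVec (f z) 2 = Q z + κ * P1 z * Complex.log (z - t))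
  inf : ∃ ρ : ℝ, 0 < ρ ∧ ∃ U : Fin 3 → ℂ → ℂ,
    (∀ i, DifferentiableOn ℂ (U i) (ball 0 ρ)) ∧
    (∀ i, ∀ z ∈ HP, -1 / z ∈ ball (0 : ℂ) ρ → f z i = phi z * U i (-1 / z)) ∧
    (∀ i, ∀ s : ℝ, (s : ℂ) ∈ ball (0 : ℂ) ρ → (U i s).im = 0)

/-! ### Non-mark points -/

/-- real limit in the frame `N` -/
def RealLim (N : Matrix (Fin 3) (Fin 3) ℂ) (t : ℝ) (a : ℂ → Fin 3 → ℂ) : Prop :=
  ∃ v : Fin 3 → ℝ, ∀ i, Tendsto (fun z => N.mulVec (a z) i) (𝓝[HP] (t : ℂ)) (𝓝 (v i : ℂ))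

lemma D_real {N : Matrix (Fin 3) (Fin 3) ℂ} {t d : ℝ} (hd : d ≠ 0) (hN : N.det = d)
    {a b c : ℂ → Fin 3 → ℂ} (ha : RealLim N t a) (hb : RealLim N t b) (hc : RealLim N t c) :
    ∃ x : ℝ, Tendsto (fun z => D (a z) (b z) (c z)) (𝓝[HP] (t : ℂ)) (𝓝 (x : ℂ)) := by
  obtain ⟨u, hu⟩ := ha
  obtain ⟨v, hv⟩ := hb
  obtain ⟨y, hy⟩ := hc
  refine ⟨d⁻¹ * (u 0 * (v 1 * y 2 - v 2 * y 1) - u 1 * (v 0 * y 2 - v 2 * y 0) +
    u 2 * (v 0 * y 1 - v 1 * y 0)), ?_⟩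
  have h1 : Tendsto (fun z => (d : ℂ)⁻¹ * D (N.mulVec (a z)) (N.mulVec (b z)) (N.mulVec (c z)))
      (𝓝[HP] (t : ℂ)) (𝓝 ((d⁻¹ * (u 0 * (v 1 * y 2 - v 2 * y 1) -
        u 1 * (v 0 * y 2 - v 2 * y 0) + u 2 * (v 0 * y 1 - v 1 * y 0)) : ℝ) : ℂ)) := by
    push_cast
    refine tendsto_const_nhds.mul ?_
    unfold D
    exact ((((hu 0).mul (((hv 1).mul (hy 2)).sub ((hv 2).mul (hy 1)))).sub
      ((hu 1).mul (((hv 0).mul (hy 2)).sub ((hv 2).mul (hy 0))))).add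
      ((hu 2).mul (((hv 0).mul (hy 1)).sub ((hv 1).mul (hy 0)))))
  refine h1.congr fun z => ?_
  rw [D_mulVec, hN, ← mul_assoc, inv_mul_cancel₀ (by exact_mod_cast hd), one_mul]

/-- derivative of `N f` -/
lemma mulVec_dv (N : Matrix (Fin 3) (Fin 3) ℂ) {f : ℂ → Fin 3 → ℂ} (hf : Hol f) {z : ℂ}
    (hz : z ∈ HP) (i : Fin 3) :
    HasDerivAt (fun y => N.mulVec (f y) i) (N.mulVec (dv f z) i) z := by
  have h := fun j => (hf.hasDerivAt hz j).const_mul (N i j)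
  have h1 := ((h 0).add (h 1)).add (h 2)
  have h2 : (fun y => N.mulVec (f y) i) = fun y => N i 0 * f y 0 + N i 1 * f y 1 + N i 2 * f y 2 := by
    funext y
    simp [Matrix.mulVec, dotProduct, Fin.sum_univ_three]
  rw [h2]
  refine HasDerivAt.congr_deriv (f' := N i 0 * dv f z 0 + N i 1 * dv f z 1 + N i 2 * dv f z 2) h1 ?_
  simp [Matrix.mulVec, dotProduct, Fin.sum_univ_three]

lemma mulVec_dv_eq (N : Matrix (Fin 3) (Fin 3) ℂ) {f : ℂ → Fin 3 → ℂ} (hf : Hol f)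
    {t : ℂ} {r : ℝ} {P P' : ℂ → ℂ} {i : Fin 3}
    (hP : ∀ z ∈ ball t r, z ∈ HP → N.mulVec (f z) i = P z)
    (hP' : ∀ z ∈ ball t r, z ∈ HP → HasDerivAt P (P' z) z) :
    ∀ z ∈ ball t r, z ∈ HP → N.mulVec (dv f z) i = P' z := by
  intro z hz hzH
  have h1 := mulVec_dv N hf hzH i
  have h2 : (fun y => N.mulVec (f y) i) =ᶠ[𝓝 z] P := by
    filter_upwards [isOpen_ball.mem_nhds hz, HP_open.mem_nhds hzH] with y h3 h4
    exact hP y h3 h4
  exact (h1.congr_of_eventuallyEq h2.symm).unique (hP' z hz hzH)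

lemma realLim_of {N : Matrix (Fin 3) (Fin 3) ℂ} {t r : ℝ} (hr : 0 < r) {a : ℂ → Fin 3 → ℂ}
    {P : Fin 3 → ℂ → ℂ} (hP : ∀ i, DifferentiableOn ℂ (P i) (ball (t : ℂ) r))
    (he : ∀ i, ∀ z ∈ ball (t : ℂ) r, z ∈ HP → N.mulVec (a z) i = P i z)
    (hre : ∀ i, ∀ s : ℝ, (s : ℂ) ∈ ball (t : ℂ) r → (P i s).im = 0) : RealLim N t a := by
  refine ⟨fun i => (P i t).re, fun i => ?_⟩
  have h1 : P i t = ((P i t).re : ℂ) := Complex.ext (by simp) (by
    simp [hre i t (mem_ball_self hr)])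
  rw [← h1]
  have h2 : Tendsto (P i) (𝓝[HP] (t : ℂ)) (𝓝 (P i t)) :=
    (((hP i).differentiableAt (ball_mem_nhds _ hr)).continuousAt).tendsto.mono_left
      nhdsWithin_le_nhds
  refine h2.congr' ?_
  filter_upwards [self_mem_nhdsWithin, nhdsWithin_le_nhds (ball_mem_nhds (t : ℂ) hr)]
    with z h3 h4
  exact (he i z h4 h3).symm

lemma Nice.realLim {F : Frames} {f : ℂ → Fin 3 → ℂ} (hf : Nice F f) {t : ℝ} (ht : t ∉ F.S) :
    RealLim (F.N t) t f ∧ RealLim (F.N t) t (dv f) ∧ RealLim (F.N t) t (dv (dv f)) := by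
  obtain ⟨r, hr, P, hP, he, hre⟩ := hf.loc t ht
  have hP1 : ∀ i, DifferentiableOn ℂ (deriv (P i)) (ball (t : ℂ) r) := fun i =>
    (hP i).deriv isOpen_ball
  have hP2 : ∀ i, DifferentiableOn ℂ (deriv (deriv (P i))) (ball (t : ℂ) r) := fun i =>
    (hP1 i).deriv isOpen_ball
  have he1 : ∀ i, ∀ z ∈ ball (t : ℂ) r, z ∈ HP → (F.N t).mulVec (dv f z) i = deriv (P i) z :=
    fun i => mulVec_dv_eq _ hf.hol (he i) fun z hz _ =>
      ((hP i).differentiableAt (isOpen_ball.mem_nhds hz)).hasDerivAt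
  have he2 : ∀ i, ∀ z ∈ ball (t : ℂ) r, z ∈ HP →
      (F.N t).mulVec (dv (dv f) z) i = deriv (deriv (P i)) z :=
    fun i => mulVec_dv_eq _ hf.hol.dv (he1 i) fun z hz _ =>
      ((hP1 i).differentiableAt (isOpen_ball.mem_nhds hz)).hasDerivAt
  have hre1 := fun i => deriv_real (hP i) (hre i)
  have hre2 := fun i => deriv_real (hP1 i) (hre1 i)
  exact ⟨realLim_of hr hP he hre, realLim_of hr hP1 he1 hre1, realLim_of hr hP2 he2 hre2⟩

/-! ### Marks -/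

lemma sub_tendsto (t : ℝ) : Tendsto (fun z : ℂ => z - t) (𝓝[HP] (t : ℂ)) (𝓝 0) := by
  have h2 : Continuous fun z : ℂ => z - t := by fun_prop
  have h3 := h2.tendsto (t : ℂ)
  rw [sub_self] at h3
  exact h3.mono_left nhdsWithin_le_nhds

lemma ne_real_HP {z : ℂ} (hz : z ∈ HP) (t : ℝ) : z - t ≠ 0 := by
  intro h
  have h1 : z.im = 0 := by rw [sub_eq_zero.1 h]; simp
  have h2 : 0 < z.im := hz
  linarith

lemma log_small (t : ℝ) :
    Tendsto (fun z : ℂ => (z - t) * Complex.log (z - t)) (𝓝[HP] (t : ℂ)) (𝓝 0) := by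
  rw [tendsto_zero_iff_norm_tendsto_zero]
  have h1 : Tendsto (fun z : ℂ => ‖z - t‖) (𝓝[HP] (t : ℂ)) (𝓝[>] 0) := by
    rw [tendsto_nhdsWithin_iff]
    constructor
    · have := (sub_tendsto t).norm
      rwa [norm_zero] at this
    · filter_upwards [self_mem_nhdsWithin] with z hz
      exact norm_pos_iff.2 (ne_real_HP hz t)
  have h2 : Tendsto (fun x : ℝ => x * (|Real.log x| + Real.pi)) (𝓝[>] 0) (𝓝 0) := by
    have h3 : Tendsto (fun x : ℝ => Real.log x * x ^ (1 : ℝ)) (𝓝[>] 0) (𝓝 0) :=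
      tendsto_log_mul_rpow_nhdsGT_zero one_pos
    have h4 : Tendsto (fun x : ℝ => |Real.log x * x ^ (1 : ℝ)| + x * Real.pi) (𝓝[>] 0)
        (𝓝 (|0| + 0 * Real.pi)) := by
      refine (h3.abs).add ?_
      have h5 : Continuous fun x : ℝ => x * Real.pi := by fun_prop
      exact (h5.tendsto 0).mono_left nhdsWithin_le_nhds
    rw [abs_zero, zero_mul, add_zero] at h4
    refine h4.congr' ?_
    filter_upwards [self_mem_nhdsWithin] with x hx
    have hx' : 0 < x := hx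
    rw [Real.rpow_one, abs_mul, abs_of_pos hx']
    ring
  refine squeeze_zero (fun _ => norm_nonneg _) (fun z => ?_) (h2.comp h1)
  simp only [Function.comp]
  rw [norm_mul]
  refine mul_le_mul_of_nonneg_left ?_ (norm_nonneg _)
  refine (Complex.norm_le_abs_re_add_abs_im _).trans ?_
  rw [Complex.log_re, Complex.log_im]
  exact add_le_add_right (Complex.abs_arg_le_pi _) _

/-- the behaviour at a mark in the frame `N` -/
def MarkT (N : Matrix (Fin 3) (Fin 3) ℂ) (t : ℝ) (j : ℕ) (a : ℂ → Fin 3 → ℂ) : Prop :=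
  (∃ v, Tendsto (fun z => N.mulVec (a z) 0) (𝓝[HP] (t : ℂ)) (𝓝 v)) ∧
  (∃ v, Tendsto (fun z => N.mulVec (a z) 1) (𝓝[HP] (t : ℂ)) (𝓝 v)) ∧
  Tendsto (fun z => (z - t) ^ j * N.mulVec (a z) 2) (𝓝[HP] (t : ℂ)) (𝓝 0)

lemma MarkT.succ {N : Matrix (Fin 3) (Fin 3) ℂ} {t : ℝ} {j : ℕ} {a : ℂ → Fin 3 → ℂ}
    (h : MarkT N t j a) : MarkT N t (j + 1) a := by
  refine ⟨h.1, h.2.1, ?_⟩
  have h1 := (sub_tendsto t).mul h.2.2
  rw [zero_mul] at h1
  refine h1.congr fun z => ?_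
  ring

lemma D_small {N : Matrix (Fin 3) (Fin 3) ℂ} (hN : N.det ≠ 0) {t : ℝ} {j : ℕ}
    {a b c : ℂ → Fin 3 → ℂ} (ha : MarkT N t j a) (hb : MarkT N t j b) (hc : MarkT N t j c) :
    Tendsto (fun z => (z - t) ^ j * D (a z) (b z) (c z)) (𝓝[HP] (t : ℂ)) (𝓝 0) := by
  obtain ⟨⟨u0, hu0⟩, ⟨u1, hu1⟩, hu2⟩ := ha
  obtain ⟨⟨v0, hv0⟩, ⟨v1, hv1⟩, hv2⟩ := hb
  obtain ⟨⟨y0, hy0⟩, ⟨y1, hy1⟩, hy2⟩ := hc
  have h1 : Tendsto (fun z => (N.det)⁻¹ *
      (((z - t) ^ j * N.mulVec (a z) 2) *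
        (N.mulVec (b z) 0 * N.mulVec (c z) 1 - N.mulVec (b z) 1 * N.mulVec (c z) 0) -
      ((z - t) ^ j * N.mulVec (b z) 2) *
        (N.mulVec (a z) 0 * N.mulVec (c z) 1 - N.mulVec (a z) 1 * N.mulVec (c z) 0) +
      ((z - t) ^ j * N.mulVec (c z) 2) *
        (N.mulVec (a z) 0 * N.mulVec (b z) 1 - N.mulVec (a z) 1 * N.mulVec (b z) 0)))
      (𝓝[HP] (t : ℂ)) (𝓝 ((N.det)⁻¹ * (0 * (v0 * y1 - v1 * y0) - 0 * (u0 * y1 - u1 * y0) +
        0 * (u0 * v1 - u1 * v0)))) := by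
    refine tendsto_const_nhds.mul ?_
    exact ((hu2.mul ((hv0.mul hy1).sub (hv1.mul hy0))).sub
      (hv2.mul ((hu0.mul hy1).sub (hu1.mul hy0)))).add
      (hy2.mul ((hu0.mul hv1).sub (hu1.mul hv0)))
  have h2 : (N.det)⁻¹ * (0 * (v0 * y1 - v1 * y0) - 0 * (u0 * y1 - u1 * y0) +
        0 * (u0 * v1 - u1 * v0)) = 0 := by ring
  rw [h2] at h1
  refine h1.congr fun z => ?_
  have h3 := D_mulVec N (a z) (b z) (c z)
  have h4 : D (a z) (b z) (c z) =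
      (N.det)⁻¹ * D (N.mulVec (a z)) (N.mulVec (b z)) (N.mulVec (c z)) := by
    rw [h3, ← mul_assoc, inv_mul_cancel₀ hN, one_mul]
  rw [h4]
  unfold D
  ring

lemma Nice.markT {F : Frames} {f : ℂ → Fin 3 → ℂ} (hf : Nice F f) {t : ℝ} (ht : t ∈ F.S) :
    MarkT (F.N t) t 1 f ∧ MarkT (F.N t) t 1 (dv f) ∧ MarkT (F.N t) t 2 (dv (dv f)) := by
  obtain ⟨r, hr, P0, P1, Q, κ, hP0, hP1, hQ, hz, e0, e1, e2⟩ := hf.mark t ht
  have hlim : ∀ {P : ℂ → ℂ}, DifferentiableOn ℂ P (ball (t : ℂ) r) →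
      Tendsto P (𝓝[HP] (t : ℂ)) (𝓝 (P t)) := fun {P} hP =>
    ((hP.differentiableAt (ball_mem_nhds _ hr)).continuousAt).tendsto.mono_left
      nhdsWithin_le_nhds
  have hder : ∀ {P : ℂ → ℂ}, DifferentiableOn ℂ P (ball (t : ℂ) r) →
      ∀ z ∈ ball (t : ℂ) r, HasDerivAt P (deriv P z) z := fun {P} hP z hz =>
    (hP.differentiableAt (isOpen_ball.mem_nhds hz)).hasDerivAt
  have hev : ∀ {a b : ℂ → ℂ}, (∀ z ∈ ball (t : ℂ) r, z ∈ HP → a z = b z) →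
      b =ᶠ[𝓝[HP] (t : ℂ)] a := by
    intro a b hab
    filter_upwards [self_mem_nhdsWithin, nhdsWithin_le_nhds (ball_mem_nhds (t : ℂ) hr)]
      with z h3 h4
    exact (hab z h4 h3).symm
  have hP0' := hP0.deriv isOpen_ball
  have hP0'' := hP0'.deriv isOpen_ball
  have hP1' := hP1.deriv isOpen_ball
  have hP1'' := hP1'.deriv isOpen_ball
  have hQ' := hQ.deriv isOpen_ball
  have hQ'' := hQ'.deriv isOpen_ball
  -- P1 = (z - t) R
  set R : ℂ → ℂ := dslope P1 t with hR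
  have hRd : DifferentiableOn ℂ R (ball (t : ℂ) r) := by
    rw [hR, Complex.differentiableOn_dslope (ball_mem_nhds _ hr)]
    exact hP1
  have hRe : ∀ z, P1 z = (z - t) * R z := by
    intro z
    have := sub_smul_dslope P1 (t : ℂ) z
    rw [hz, sub_zero, smul_eq_mul] at this
    exact this.symm
  have hlog : ∀ z ∈ HP, HasDerivAt (fun y : ℂ => Complex.log (y - t)) (1 / (z - t)) z := by
    intro z hz
    have h1 : z - t ∈ slitPlane := by
      rw [mem_slitPlane_iff]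
      right
      have : 0 < z.im := hz
      simp
      exact this.ne'
    exact ((hasDerivAt_id z).sub_const _).clog h1
  have f0 := mulVec_dv_eq _ hf.hol e0 fun z hz _ => hder hP0 z hz
  have f1 := mulVec_dv_eq _ hf.hol e1 fun z hz _ => hder hP1 z hz
  have f2 := mulVec_dv_eq _ hf.hol e2 (P' := fun z => deriv Q z +
      (κ * deriv P1 z * Complex.log (z - t) + κ * P1 z * (1 / (z - t)))) fun z hz hzH => by
    exact (hder hQ z hz).add (((hder hP1 z hz).const_mul κ).mul (hlog z hzH))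
  have g0 := mulVec_dv_eq _ hf.hol.dv f0 fun z hz _ => hder hP0' z hz
  have g1 := mulVec_dv_eq _ hf.hol.dv f1 fun z hz _ => hder hP1' z hz
  have hinv : ∀ z ∈ HP, HasDerivAt (fun y : ℂ => 1 / (y - t)) (-(1 / (z - t) ^ 2)) z := by
    intro z hz
    have h1 := ((hasDerivAt_id z).sub_const (t : ℂ)).inv (ne_real_HP hz t)
    have h2 : (fun y : ℂ => 1 / (y - t)) = (fun y : ℂ => id y - (t : ℂ))⁻¹ := by
      funext y
      simp [one_div]
    rw [h2]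
    refine h1.congr_deriv ?_
    simp [neg_div]
  have g2 := mulVec_dv_eq _ hf.hol.dv f2 (P' := fun z => deriv (deriv Q) z +
      ((κ * deriv (deriv P1) z * Complex.log (z - t) + κ * deriv P1 z * (1 / (z - t))) +
        (κ * deriv P1 z * (1 / (z - t)) + κ * P1 z * -(1 / (z - t) ^ 2)))) fun z hz hzH => by
    exact (hder hQ' z hz).add ((((hder hP1' z hz).const_mul κ).mul (hlog z hzH)).add
      (((hder hP1 z hz).const_mul κ).mul (hinv z hzH)))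
  have hs := sub_tendsto t
  have hls := log_small t
  refine ⟨⟨⟨_, (hlim hP0).congr' (hev e0)⟩, ⟨_, (hlim hP1).congr' (hev e1)⟩, ?_⟩,
    ⟨⟨_, (hlim hP0').congr' (hev f0)⟩, ⟨_, (hlim hP1').congr' (hev f1)⟩, ?_⟩,
    ⟨⟨_, (hlim hP0'').congr' (hev g0)⟩, ⟨_, (hlim hP1'').congr' (hev g1)⟩, ?_⟩⟩
  · have h1 : Tendsto (fun z => (z - (t : ℂ)) * Q z +
        κ * P1 z * ((z - t) * Complex.log (z - t))) (𝓝[HP] (t : ℂ))
        (𝓝 (0 * Q t + κ * P1 t * 0)) :=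
      (hs.mul (hlim hQ)).add ((tendsto_const_nhds.mul (hlim hP1)).mul hls)
    have h2 : 0 * Q t + κ * P1 t * 0 = 0 := by ring
    rw [h2] at h1
    refine h1.congr' ?_
    refine hev fun z hz hzH => ?_
    rw [e2 z hz hzH]
    ring
  · have h1 : Tendsto (fun z => (z - (t : ℂ)) * deriv Q z +
        κ * deriv P1 z * ((z - t) * Complex.log (z - t)) + κ * ((z - t) * R z))
        (𝓝[HP] (t : ℂ)) (𝓝 (0 * deriv Q t + κ * deriv P1 t * 0 + κ * (0 * R t))) :=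
      ((hs.mul (hlim hQ')).add ((tendsto_const_nhds.mul (hlim hP1')).mul hls)).add
        (tendsto_const_nhds.mul (hs.mul (hlim hRd)))
    have h2 : 0 * deriv Q t + κ * deriv P1 t * 0 + κ * (0 * R t) = 0 := by ring
    rw [h2] at h1
    refine h1.congr' ?_
    refine hev fun z hz hzH => ?_
    rw [f2 z hz hzH, hRe z]
    have := ne_real_HP hzH t
    field_simp
    ring
  · have h1 : Tendsto (fun z => (z - (t : ℂ)) * ((z - t) * deriv (deriv Q) z) +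
        κ * deriv (deriv P1) z * ((z - t) * ((z - t) * Complex.log (z - t))) +
        2 * κ * deriv P1 z * (z - t) - κ * ((z - t) * R z))
        (𝓝[HP] (t : ℂ)) (𝓝 (0 * (0 * deriv (deriv Q) t) + κ * deriv (deriv P1) t * (0 * 0) +
          2 * κ * deriv P1 t * 0 - κ * (0 * R t))) :=
      (((hs.mul (hs.mul (hlim hQ''))).add
        ((tendsto_const_nhds.mul (hlim hP1'')).mul (hs.mul hls))).add
        ((tendsto_const_nhds.mul (hlim hP1')).mul hs)).sub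
        (tendsto_const_nhds.mul (hs.mul (hlim hRd)))
    have h2 : 0 * (0 * deriv (deriv Q) t) + κ * deriv (deriv P1) t * (0 * 0) +
          2 * κ * deriv P1 t * 0 - κ * (0 * R t) = 0 := by ring
    rw [h2] at h1
    refine h1.congr' ?_
    refine hev fun z hz hzH => ?_
    rw [g2 z hz hzH, hRe z]
    have := ne_real_HP hzH t
    field_simp
    ring

end H87.FM
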