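import Pool.Agent.H87.FM.Defs

set_option autoImplicit false

/-!
# Schwarz reflection with finitely many exceptional points
-/

open Complex Metric Set Topology MeasureTheory Filter
open scoped Interval ComplexConjugate

noncomputable section

namespace H87.FM

lemma HP_open : IsOpen HP := isOpen_lt continuous_const Complex.continuous_im

lemma HP_sub_CH : HP ⊆ CH := fun z (hz : 0 < z.im) => (le_of_lt hz : 0 ≤ z.im)

lemma HP_preconn : IsPreconnected HP := by
  have : Convex ℝ HP := convex_halfSpace_im_gt 0
  exact this.isPreconnected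

/-- every point of the closed half plane is a limit of points of the open one -/
lemma CH_sub_closure : CH ⊆ closure HP := by
  intro z hz
  rw [Metric.mem_closure_iff]
  intro ε hε
  refine ⟨z + (ε / 2 : ℝ) * Complex.I, ?_, ?_⟩
  · have : 0 ≤ z.im := hz
    show 0 < (z + (ε / 2 : ℝ) * Complex.I).im
    simp
    linarith
  · rw [dist_comm, Complex.dist_eq]
    simp [abs_of_pos hε]
    linarith

instance neBot_HP (t : ℝ) : NeBot (𝓝[HP] (t : ℂ)) := by
  rw [← mem_closure_iff_nhdsWithin_neBot]
  exact CH_sub_closure (by simp [CH])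

/-- A function which is continuous on an open set and holomorphic off the real line
is holomorphic. -/
theorem glue_real {U : Set ℂ} (hU : IsOpen U) {g : ℂ → ℂ} (hc : ContinuousOn g U)
    (hd : ∀ z ∈ U, z.im ≠ 0 → DifferentiableAt ℂ g z) : DifferentiableOn ℂ g U := by
  refine (isConservativeOn_and_continuousOn_iff_isDifferentiableOn hU).1 ⟨?_, hc⟩
  intro z w hzw
  have key : ∀ p q : ℝ, p ∈ [[z.im, w.im]] → q ∈ [[z.im, w.im]] →
      (∀ y ∈ Ioo (min p q) (max p q), y ≠ 0) →
      (∫ x : ℝ in z.re..w.re, g (x + p * I)) - (∫ x : ℝ in z.re..w.re, g (x + q * I)) +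
        I • (∫ y : ℝ in p..q, g (w.re + y * I)) - I • (∫ y : ℝ in p..q, g (z.re + y * I)) = 0 := by
    intro p q hp hq hy
    have hsub : [[p, q]] ⊆ [[z.im, w.im]] := uIcc_subset_uIcc hp hq
    have hR : [[z.re, w.re]] ×ℂ [[p, q]] ⊆ U := by
      intro x hx
      exact hzw ⟨hx.1, hsub hx.2⟩
    have h1 := integral_boundary_rect_eq_zero_of_continuousOn_of_differentiableOn g
      (⟨z.re, p⟩ : ℂ) (⟨w.re, q⟩ : ℂ) (hc.mono hR) (by
        intro x hx
        have hxU : x ∈ U := hR ⟨Ioo_subset_Icc_self hx.1, Ioo_subset_Icc_self hx.2⟩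
        exact (hd x hxU (hy _ hx.2)).differentiableWithinAt)
    simpa using h1
  have hall : (∫ x : ℝ in z.re..w.re, g (x + z.im * I)) -
      (∫ x : ℝ in z.re..w.re, g (x + w.im * I)) +
      I • (∫ y : ℝ in z.im..w.im, g (w.re + y * I)) -
      I • (∫ y : ℝ in z.im..w.im, g (z.re + y * I)) = 0 := by
    by_cases ha : (0 : ℝ) ∈ Ioo (min z.im w.im) (max z.im w.im)
    · have ha' : (0 : ℝ) ∈ [[z.im, w.im]] := Ioo_subset_Icc_self ha
      have h1 := key z.im 0 left_mem_uIcc ha' (by
        intro y hy
        rcases le_total z.im w.im with h | h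
        · simp only [min_eq_left h, max_eq_right h, mem_Ioo] at ha
          rw [min_eq_left ha.1.le, max_eq_right ha.1.le] at hy
          exact ne_of_lt hy.2
        · simp only [min_eq_right h, max_eq_left h, mem_Ioo] at ha
          rw [min_eq_right ha.2.le, max_eq_left ha.2.le] at hy
          exact ne_of_gt hy.1)
      have h2 := key 0 w.im ha' right_mem_uIcc (by
        intro y hy
        rcases le_total z.im w.im with h | h
        · simp only [min_eq_left h, max_eq_right h, mem_Ioo] at ha
          rw [min_eq_left ha.2.le, max_eq_right ha.2.le] at hy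
          exact ne_of_gt hy.1
        · simp only [min_eq_right h, max_eq_left h, mem_Ioo] at ha
          rw [min_eq_right ha.1.le, max_eq_left ha.1.le] at hy
          exact ne_of_lt hy.2)
      have hint : ∀ t : ℝ, t ∈ [[z.re, w.re]] → ∀ p q : ℝ, p ∈ [[z.im, w.im]] →
          q ∈ [[z.im, w.im]] → IntervalIntegrable (fun y : ℝ => g (t + y * I)) volume p q := by
        intro t ht p q hp hq
        apply ContinuousOn.intervalIntegrable
        have hsub : [[p, q]] ⊆ [[z.im, w.im]] := uIcc_subset_uIcc hp hq
        refine hc.comp (by fun_prop) ?_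
        intro y hy
        refine hzw ⟨?_, ?_⟩
        · simpa using ht
        · simpa using hsub hy
      have e1 := intervalIntegral.integral_add_adjacent_intervals
        (hint w.re right_mem_uIcc z.im 0 left_mem_uIcc ha')
        (hint w.re right_mem_uIcc 0 w.im ha' right_mem_uIcc)
      have e2 := intervalIntegral.integral_add_adjacent_intervals
        (hint z.re left_mem_uIcc z.im 0 left_mem_uIcc ha')
        (hint z.re left_mem_uIcc 0 w.im ha' right_mem_uIcc)
      rw [← e1, ← e2, smul_add, smul_add]
      linear_combination h1 + h2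
    · exact key z.im w.im left_mem_uIcc right_mem_uIcc (fun y hy h => ha (h ▸ hy))
  have := wedgeIntegral_add_wedgeIntegral_eq z w g
  rw [hall] at this
  exact eq_neg_of_add_eq_zero_left this

/-- Schwarz reflection in a symmetric open set. -/
theorem reflect_open {U : Set ℂ} (hU : IsOpen U) (hsym : ∀ z ∈ U, conj z ∈ U) {h : ℂ → ℂ}
    (hc : ContinuousOn h (U ∩ CH))
    (hd : ∀ z ∈ U, 0 < z.im → DifferentiableAt ℂ h z)
    (hre : ∀ z ∈ U, z.im = 0 → (h z).im = 0) :
    ∃ g : ℂ → ℂ, DifferentiableOn ℂ g U ∧ (∀ z, 0 ≤ z.im → g z = h z) ∧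
      (∀ z, z.im < 0 → g z = conj (h (conj z))) := by
  classical
  set g : ℂ → ℂ := fun z => if 0 ≤ z.im then h z else conj (h (conj z)) with hg
  have g1 : ∀ z : ℂ, 0 ≤ z.im → g z = h z := fun z hz => by simp [hg, hz]
  have g3 : ∀ z : ℂ, z.im < 0 → g z = conj (h (conj z)) := fun z hz => by
    simp [hg, not_le.2 hz]
  have g2 : ∀ z ∈ U, z.im ≤ 0 → g z = conj (h (conj z)) := by
    intro z hz him
    rcases him.lt_or_eq with h1 | h1
    · exact g3 z h1
    · have hcz : conj z = z := Complex.conj_eq_iff_im.2 h1
      rw [g1 z h1.ge, hcz]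
      exact (Complex.conj_eq_iff_im.2 (hre z hz h1)).symm
  have hcont : ContinuousOn g U := by
    have hA : ContinuousOn g (U ∩ CH) := hc.congr fun z hz => g1 z hz.2
    have hB : ContinuousOn g (U ∩ {z | z.im ≤ 0}) := by
      have h3 : ContinuousOn (fun z => conj (h (conj z))) (U ∩ {z | z.im ≤ 0}) := by
        refine Complex.continuous_conj.comp_continuousOn
          (hc.comp Complex.continuous_conj.continuousOn ?_)
        intro z hz
        exact ⟨hsym z hz.1, by simpa [CH] using hz.2⟩
      exact h3.congr fun z hz => g2 z hz.1 hz.2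
    have hU' : U = (U ∩ CH) ∪ (U ∩ {z | z.im ≤ 0}) := by
      ext z
      constructor
      · intro hz
        rcases le_total 0 z.im with h4 | h4
        · exact Or.inl ⟨hz, h4⟩
        · exact Or.inr ⟨hz, h4⟩
      · rintro (h4 | h4) <;> exact h4.1
    intro z hz
    have c1 : ContinuousWithinAt g (U ∩ CH) z := by
      by_cases h4 : 0 ≤ z.im
      · exact hA z ⟨hz, h4⟩
      · refine continuousWithinAt_of_notMem_closure ?_
        have : closure (U ∩ CH) ⊆ {z : ℂ | 0 ≤ z.im} :=
          closure_minimal (fun w hw => hw.2) (isClosed_le continuous_const Complex.continuous_im)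
        exact fun h5 => h4 (this h5)
    have c2 : ContinuousWithinAt g (U ∩ {z | z.im ≤ 0}) z := by
      by_cases h4 : z.im ≤ 0
      · exact hB z ⟨hz, h4⟩
      · refine continuousWithinAt_of_notMem_closure ?_
        have : closure (U ∩ {z | z.im ≤ 0}) ⊆ {z : ℂ | z.im ≤ 0} :=
          closure_minimal (fun w hw => hw.2) (isClosed_le Complex.continuous_im continuous_const)
        exact fun h5 => h4 (this h5)
    have c3 := c1.union c2
    rw [← hU'] at c3
    exact c3
  refine ⟨g, glue_real hU hcont ?_, g1, g3⟩
  intro z hz hne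
  rcases lt_or_gt_of_ne hne with h1 | h1
  · have hz' : 0 < (conj z).im := by simpa using h1
    have hd' := hd (conj z) (hsym z hz) hz'
    have h2 : DifferentiableAt ℂ (fun z => conj (h (conj z))) z := by
      have := hd'.conj_conj
      simpa [Function.comp_def] using this
    refine h2.congr_of_eventuallyEq ?_
    have : {z : ℂ | z.im < 0} ∈ 𝓝 z :=
      (isOpen_lt Complex.continuous_im continuous_const).mem_nhds h1
    filter_upwards [this] with y hy
    exact g3 y hy
  · refine (hd z hz h1).congr_of_eventuallyEq ?_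
    have : {z : ℂ | 0 < z.im} ∈ 𝓝 z :=
      (isOpen_lt continuous_const Complex.continuous_im).mem_nhds h1
    filter_upwards [this] with y hy
    exact g1 y (le_of_lt hy)

end H87.FM
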