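import Pool.Agent.H87.FM.Conc

set_option autoImplicit false

/-!
# Solutions of the four mark problem are `Nice`
-/

open Complex Metric Set Topology Filter
open scoped ComplexConjugate

noncomputable section

namespace H87.FM

variable {x1 x2 x3 x4 : ℝ} {E : Finset ℝ} {f12 f23 f34 f14 : ℂ → ℂ}

/-- the vector of a solution -/
def vec (f12 f23 f34 : ℂ → ℂ) : ℂ → Fin 3 → ℂ := fun z => ![f23 z, f34 z, f12 z]

/-- one of the four functions -/
def Four (f12 f23 f34 f14 g : ℂ → ℂ) : Prop := g ∈ ({f12, f23, f34, f14} : Set (ℂ → ℂ))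

lemma Sol4.hol (h : Sol4 x1 x2 x3 x4 E f12 f23 f34 f14) {g : ℂ → ℂ}
    (hg : Four f12 f23 f34 f14 g) : DifferentiableOn ℂ g HP := by
  rcases hg with rfl | rfl | rfl | rfl
  exacts [h.h12, h.h23, h.h34, h.h14]

lemma Sol4.cont (h : Sol4 x1 x2 x3 x4 E f12 f23 f34 f14) {g : ℂ → ℂ}
    (hg : Four f12 f23 f34 f14 g) : ContinuousOn g (CH \ Sg x1 x2 x3 x4 E) := by
  rcases hg with rfl | rfl | rfl | rfl
  exacts [h.c12, h.c23, h.c34, h.c14]

lemma four12 : Four f12 f23 f34 f14 f12 := Or.inl rfl
lemma four23 : Four f12 f23 f34 f14 f23 := Or.inr (Or.inl rfl)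
lemma four34 : Four f12 f23 f34 f14 f34 := Or.inr (Or.inr (Or.inl rfl))
lemma four14 : Four f12 f23 f34 f14 f14 := Or.inr (Or.inr (Or.inr rfl))

lemma Sol4.bd (h : Sol4 x1 x2 x3 x4 E f12 f23 f34 f14) {x : ℝ}
    (hx : x = x1 ∨ x = x2 ∨ x = x3 ∨ x = x4) :
    ∃ C r : ℝ, 0 < r ∧ ∀ g, Four f12 f23 f34 f14 g → ∀ z ∈ HP, ‖z - (x : ℂ)‖ < r → ‖g z‖ ≤ C := by
  have hx' : x ∈ ({x1, x2, x3, x4} : Set ℝ) := by
    simpa using hx
  obtain ⟨C1, r1, hr1, b1⟩ := h.bdd x hx' f12 four12
  obtain ⟨C2, r2, hr2, b2⟩ := h.bdd x hx' f23 four23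
  obtain ⟨C3, r3, hr3, b3⟩ := h.bdd x hx' f34 four34
  obtain ⟨C4, r4, hr4, b4⟩ := h.bdd x hx' f14 four14
  refine ⟨max (max C1 C2) (max C3 C4), min (min r1 r2) (min r3 r4),
    lt_min (lt_min hr1 hr2) (lt_min hr3 hr4), ?_⟩
  intro g hg z hz hzr
  have l1 : ‖z - (x : ℂ)‖ < min r1 r2 := hzr.trans_le (min_le_left _ _)
  have l2 : ‖z - (x : ℂ)‖ < min r3 r4 := hzr.trans_le (min_le_right _ _)
  rcases hg with rfl | rfl | rfl | rfl
  · exact (b1 z hz (l1.trans_le (min_le_left _ _))).trans
      ((le_max_left _ _).trans (le_max_left _ _))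
  · exact (b2 z hz (l1.trans_le (min_le_right _ _))).trans
      ((le_max_right _ _).trans (le_max_left _ _))
  · exact (b3 z hz (l2.trans_le (min_le_left _ _))).trans
      ((le_max_left _ _).trans (le_max_right _ _))
  · exact (b4 z hz (l2.trans_le (min_le_right _ _))).trans
      ((le_max_right _ _).trans (le_max_right _ _))

/-- `(z - t) g → 0` at every special point -/
lemma Sol4.small (h : Sol4 x1 x2 x3 x4 E f12 f23 f34 f14) {t : ℝ}
    (ht : t ∈ Sp x1 x2 x3 x4 E) {g : ℂ → ℂ} (hg : Four f12 f23 f34 f14 g) :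
    Tendsto (fun z => (z - t) * g z) (𝓝[HP] (t : ℂ)) (𝓝 0) := by
  have hmark : ∀ x : ℝ, (x = x1 ∨ x = x2 ∨ x = x3 ∨ x = x4) →
      Tendsto (fun z => (z - x) * g z) (𝓝[HP] (x : ℂ)) (𝓝 0) := by
    intro x hx
    obtain ⟨C, r, hr, hb⟩ := h.bd hx
    refine (sub_tendsto x).zero_mul_isBoundedUnder_le ⟨C, ?_⟩
    rw [eventually_map]
    filter_upwards [self_mem_nhdsWithin, nhdsWithin_le_nhds (ball_mem_nhds (x : ℂ) hr)]
      with z hz1 hz2
    rw [mem_ball, Complex.dist_eq] at hz2
    exact hb g hg z hz1 hz2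
  unfold Sp at ht
  simp only [Finset.mem_insert] at ht
  rcases ht with h1 | h1 | h1 | h1 | h1
  · exact hmark t (Or.inl h1)
  · exact hmark t (Or.inr (Or.inl h1))
  · exact hmark t (Or.inr (Or.inr (Or.inl h1)))
  · exact hmark t (Or.inr (Or.inr (Or.inr h1)))
  · exact h.exc t h1 g hg

lemma Sol4.pd (h : Sol4 x1 x2 x3 x4 E f12 f23 f34 f14) {t r : ℝ}
    (hr : ∀ s ∈ Sp x1 x2 x3 x4 E, s ≠ t → r ≤ |s - t|) {g : ℂ → ℂ}
    (hg : Four f12 f23 f34 f14 g) : PD t r g :=
  pd_loc (h.hol hg) (h.cont hg) hr fun ht => h.small ht hg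

lemma not_Sg {t r s : ℝ} (hr : ∀ s ∈ Sp x1 x2 x3 x4 E, s ≠ t → r ≤ |s - t|) (hs : s ≠ t)
    (hsr : |s - t| < r) : (s : ℂ) ∉ Sg x1 x2 x3 x4 E := by
  intro h
  rw [real_mem_Sg] at h
  linarith [hr s h hs]

/-- the relation on the boundary -/
lemma Sol4.relB (h : Sol4 x1 x2 x3 x4 E f12 f23 f34 f14) {z : ℂ}
    (hz : z ∈ CH \ Sg x1 x2 x3 x4 E) : w * f23 z + f34 z + w ^ 2 * f12 z + f14 z = 0 := by
  have hm : ∀ {g : ℂ → ℂ}, Four f12 f23 f34 f14 g → Tendsto g (𝓝[HP] z) (𝓝 (g z)) := by
    intro g hg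
    refine (h.cont hg z hz).mono fun y hy => ⟨HP_sub_CH hy, fun hyS => ?_⟩
    obtain ⟨s, -, rfl⟩ := mem_Sg.1 hyS
    simp [HP] at hy
  have : NeBot (𝓝[HP] z) := mem_closure_iff_nhdsWithin_neBot.1 (CH_sub_closure hz.1)
  have h1 := ((((hm four23).const_mul w).add (hm four34)).add
    ((hm four12).const_mul (w ^ 2))).add (hm four14)
  refine tendsto_nhds_unique h1 ?_
  refine tendsto_const_nhds.congr' ?_
  filter_upwards [self_mem_nhdsWithin] with y hy
  exact (h.rel y hy).symm

lemma Sol4.ne_marks {t : ℝ} (ht : t ∉ ({x1, x2, x3, x4} : Finset ℝ)) :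
    t ≠ x1 ∧ t ≠ x2 ∧ t ≠ x3 ∧ t ≠ x4 := by
  simpa using ht

/-- components of `N.mulVec` -/
lemma vec_mul (N : Matrix (Fin 3) (Fin 3) ℂ) (i : Fin 3) (z : ℂ) :
    N.mulVec (vec f12 f23 f34 z) i = N i 0 * f23 z + N i 1 * f34 z + N i 2 * f12 z := by
  simp [vec, Matrix.mulVec, dotProduct, Fin.sum_univ_three]

lemma neg_inv_CH {y : ℂ} (hy : y ∈ CH) : -1 / y ∈ CH := by
  have h1 : 0 ≤ y.im := hy
  show 0 ≤ (-1 / y).im
  have h3 : -1 / y = -(y⁻¹) := by rw [neg_div, one_div]
  rw [h3, Complex.neg_im, Complex.inv_im]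
  have h2 : 0 ≤ Complex.normSq y := Complex.normSq_nonneg y
  have : 0 ≤ y.im / Complex.normSq y := div_nonneg h1 h2
  have h4 : -(-y.im / Complex.normSq y) = y.im / Complex.normSq y := by ring
  rw [h4]
  exact this

/-- behaviour at infinity of one function -/
lemma inf_of {g : ℂ → ℂ} (hd : DifferentiableOn ℂ g HP)
    (hc : ContinuousOn g (CH \ Sg x1 x2 x3 x4 E)) {ρ C : ℝ} (hρ : 0 < ρ)
    (hS : ∀ s ∈ Sp x1 x2 x3 x4 E, |s| < 1 / ρ)
    (hb : ∀ z ∈ HP, 1 / ρ < ‖z‖ → ‖g z‖ ≤ C * ‖z‖ ^ (2 / 3 : ℝ))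
    (hr : ∀ t : ℝ, (t : ℂ) ∉ Sg x1 x2 x3 x4 E → x4 < t → (g t).im = 0)
    (hl : ∀ t : ℝ, (t : ℂ) ∉ Sg x1 x2 x3 x4 E → t < x1 → (w ^ 2 * g t).im = 0) :
    ∃ U : ℂ → ℂ, DifferentiableOn ℂ U (ball 0 ρ) ∧
    (∀ z ∈ HP, -1 / z ∈ ball (0 : ℂ) ρ → g z = phi z * U (-1 / z)) ∧
    (∀ s : ℝ, (s : ℂ) ∈ ball (0 : ℂ) ρ → (U s).im = 0) := by
  set p : ℂ → ℂ := fun y => w ^ 2 * Complex.exp (2 / 3 * Complex.log y) * g (-1 / y) with hp
  have m1 : x1 ∈ Sp x1 x2 x3 x4 E := by simp [Sp]
  have m4 : x4 ∈ Sp x1 x2 x3 x4 E := by simp [Sp]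
  have hbig : ∀ y : ℂ, ‖y‖ < ρ → y ≠ 0 → 1 / ρ < ‖-1 / y‖ := by
    intro y hy hy0
    rw [norm_div, norm_neg, norm_one]
    exact one_div_lt_one_div_of_lt (norm_pos_iff.2 hy0) hy
  have hnS : ∀ y : ℂ, ‖y‖ < ρ → y ≠ 0 → -1 / y ∉ Sg x1 x2 x3 x4 E := by
    intro y hy hy0 h
    obtain ⟨s, hs, hs'⟩ := mem_Sg.1 h
    have h1 := hbig y hy hy0
    rw [hs', Complex.norm_real, Real.norm_eq_abs] at h1
    linarith [hS s hs]
  obtain ⟨U, hU1, hU2, hU3⟩ := ext_punct (p := p) (t := 0) hρ
    (by
      rw [Complex.ofReal_zero]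
      refine ContinuousOn.mul (continuousOn_const.mul ?_) ?_
      · refine ContinuousOn.cexp (continuousOn_const.mul ?_)
        intro y hy
        exact (log_CH hy.1.2 hy.2).mono fun z hz => hz.1.2
      · refine hc.comp ?_ ?_
        · intro y hy
          have h0 : y ≠ 0 := hy.2
          exact ((hasDerivAt_neg_inv h0).continuousAt).continuousWithinAt
        · intro y hy
          have h0 : y ≠ 0 := hy.2
          have h1 : ‖y‖ < ρ := by simpa using hy.1.1
          exact ⟨neg_inv_CH hy.1.2, hnS y h1 h0⟩)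
    (by
      rw [Complex.ofReal_zero]
      intro y hy
      have h0 := ne_zero_HP hy.2
      have h1 : DifferentiableAt ℂ Complex.log y :=
        Complex.differentiableAt_log (HP_slit hy.2)
      have h2 : DifferentiableAt ℂ g (-1 / y) :=
        hd.differentiableAt (HP_open.mem_nhds (neg_inv_HP hy.2))
      have h3 : DifferentiableAt ℂ (fun y => g (-1 / y)) y :=
        DifferentiableAt.comp y h2 (hasDerivAt_neg_inv h0).differentiableAt
      exact (((h1.const_mul _).cexp.const_mul _).mul h3).differentiableWithinAt)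
    (by
      intro s hs hsb
      have hsb' : |s| < ρ := by
        have := mem_ball_real.1 hsb
        simpa using this
      have hs0 : (s : ℂ) ≠ 0 := by exact_mod_cast hs
      have hnorm : ‖(s : ℂ)‖ < ρ := by
        rw [Complex.norm_real, Real.norm_eq_abs]; exact hsb'
      have hcast : (-1 / (s : ℂ)) = ((-1 / s : ℝ) : ℂ) := by push_cast; ring
      have hn := hnS s hnorm hs0
      have hbg := hbig s hnorm hs0
      rw [hcast] at hn hbg
      rw [Complex.norm_real, Real.norm_eq_abs] at hbg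
      simp only [hp]
      rw [hcast]
      rcases lt_or_gt_of_ne hs with h1 | h1
      · -- s < 0
        have h2 : 0 < -1 / s := div_pos_of_neg_of_neg (by norm_num) h1
        rw [abs_of_pos h2] at hbg
        have h3 : x4 < -1 / s := by
          have := (le_abs_self x4).trans_lt (hS x4 m4)
          linarith
        have h4 := hr _ hn h3
        have h5 : Complex.log (s : ℂ) = (Real.log (-s) : ℂ) + Real.pi * Complex.I := by
          apply Complex.ext
          · rw [Complex.log_re, Complex.norm_real, Real.norm_eq_abs, abs_of_neg h1]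
            simp
          · rw [Complex.log_im, Complex.arg_ofReal_of_neg h1]
            simp
        have h6 : Complex.exp (2 / 3 * Complex.log (s : ℂ)) =
            ((Real.exp (2 / 3 * Real.log (-s)) : ℝ) : ℂ) * w := by
          rw [h5, mul_add, Complex.exp_add]
          unfold w
          push_cast
          congr 1
          congr 1
          ring
        rw [h6]
        have h7 : w ^ 2 * (((Real.exp (2 / 3 * Real.log (-s)) : ℝ) : ℂ) * w) *
            g ((-1 / s : ℝ) : ℂ) = ((Real.exp (2 / 3 * Real.log (-s)) : ℝ) : ℂ) *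
            g ((-1 / s : ℝ) : ℂ) := by
          linear_combination (((Real.exp (2 / 3 * Real.log (-s)) : ℝ) : ℂ) *
            g ((-1 / s : ℝ) : ℂ)) * w_cube
        rw [h7, Complex.im_ofReal_mul, h4]
        ring
      · -- s > 0
        have h2 : -1 / s < 0 := div_neg_of_neg_of_pos (by norm_num) h1
        rw [abs_of_neg h2] at hbg
        have h3 : -1 / s < x1 := by
          have := (neg_abs_le x1)
          have := hS x1 m1
          linarith
        have h4 := hl _ hn h3
        have h6 : Complex.exp (2 / 3 * Complex.log (s : ℂ)) =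
            ((Real.exp (2 / 3 * Real.log s) : ℝ) : ℂ) := by
          rw [← Complex.ofReal_log h1.le]
          push_cast
          rfl
        rw [h6]
        have h7 : w ^ 2 * ((Real.exp (2 / 3 * Real.log s) : ℝ) : ℂ) *
            g ((-1 / s : ℝ) : ℂ) = ((Real.exp (2 / 3 * Real.log s) : ℝ) : ℂ) *
            (w ^ 2 * g ((-1 / s : ℝ) : ℂ)) := by ring
        rw [h7, Complex.im_ofReal_mul, h4]
        ring)
    (by
      refine (sub_tendsto 0).zero_mul_isBoundedUnder_le ⟨C, ?_⟩
      rw [eventually_map]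
      filter_upwards [self_mem_nhdsWithin, nhdsWithin_le_nhds (ball_mem_nhds ((0 : ℝ) : ℂ) hρ)]
        with y hy1 hy2
      have h0 := ne_zero_HP hy1
      have hy3 : ‖y‖ < ρ := by simpa using hy2
      have hypos : 0 < ‖y‖ := norm_pos_iff.2 h0
      have h1 := hb _ (neg_inv_HP hy1) (hbig y hy3 h0)
      have h2 : ‖w ^ 2‖ = 1 := by
        have : ‖w‖ = 1 := by
          unfold w
          rw [Complex.norm_exp]
          simp
        rw [norm_pow, this, one_pow]
      have h3 : ‖Complex.exp (2 / 3 * Complex.log y)‖ = ‖y‖ ^ (2 / 3 : ℝ) := by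
        rw [Complex.norm_exp, Real.rpow_def_of_pos hypos]
        congr 1
        have : (2 / 3 : ℂ) = ((2 / 3 : ℝ) : ℂ) := by push_cast; ring
        rw [this, Complex.re_ofReal_mul, Complex.log_re]
        ring
      simp only [Function.comp, hp]
      rw [norm_mul, norm_mul, h2, h3, one_mul]
      calc ‖y‖ ^ (2 / 3 : ℝ) * ‖g (-1 / y)‖ ≤ ‖y‖ ^ (2 / 3 : ℝ) * (C * ‖-1 / y‖ ^ (2 / 3 : ℝ)) :=
            mul_le_mul_of_nonneg_left h1 (by positivity)
        _ = C * (‖y‖ ^ (2 / 3 : ℝ) * ‖-1 / y‖ ^ (2 / 3 : ℝ)) := by ring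
        _ = C := by
            rw [← Real.mul_rpow (norm_nonneg _) (norm_nonneg _), norm_div, norm_neg, norm_one,
              mul_one_div_cancel hypos.ne', Real.one_rpow, mul_one])
  rw [Complex.ofReal_zero] at hU1 hU2 hU3
  refine ⟨U, hU1, ?_, hU3⟩
  intro z hz hzb
  have h1 := neg_inv_HP hz
  have h0 := ne_zero_HP hz
  rw [hU2 _ hzb (HP_sub_CH h1) (by
    intro h
    exact ne_zero_HP h1 h)]
  simp only [hp]
  have h2 : -1 / (-1 / z) = z := by field_simp
  have h3 : Complex.exp (-(2 / 3) * Complex.log (-1 / z)) *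
      Complex.exp (2 / 3 * Complex.log (-1 / z)) = 1 := by
    rw [← Complex.exp_add]
    have : -(2 / 3) * Complex.log (-1 / z) + 2 / 3 * Complex.log (-1 / z) = 0 := by ring
    rw [this, Complex.exp_zero]
  rw [h2]
  unfold phi
  linear_combination (-(w ^ 3) * g z) * h3 - g z * w_cube

theorem Sol4.nice (h : Sol4 x1 x2 x3 x4 E f12 f23 f34 f14) (h12 : x1 < x2) (h23 : x2 < x3)
    (h34 : x3 < x4) : Nice (FR x1 x2 x3 x4 h12 h23 h34) (vec f12 f23 f34) := by
  have hbd := fun (t : ℝ) => exists_radius (Sp x1 x2 x3 x4 E) t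
  have m1 : x1 ∈ Sp x1 x2 x3 x4 E := by simp [Sp]
  have m2 : x2 ∈ Sp x1 x2 x3 x4 E := by simp [Sp]
  have m3 : x3 ∈ Sp x1 x2 x3 x4 E := by simp [Sp]
  have m4 : x4 ∈ Sp x1 x2 x3 x4 E := by simp [Sp]
  refine ⟨?_, ?_, ?_, ?_⟩
  · intro i
    fin_cases i
    exacts [h.h23, h.h34, h.h12]
  · -- arcs
    intro t ht
    obtain ⟨n1, n2, n3, n4⟩ := Sol4.ne_marks ht
    obtain ⟨r, hr, hrr⟩ := hbd t
    have k1 := hrr x1 m1 n1.symm
    have k2 := hrr x2 m2 n2.symm
    have k3 := hrr x3 m3 n3.symm
    have k4 := hrr x4 m4 n4.symm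
    have pd := fun {g : ℂ → ℂ} (hg : Four f12 f23 f34 f14 g) => h.pd hrr hg
    have side : ∀ {x s : ℝ}, r ≤ |x - t| → |s - t| < r → (x < t → x < s) ∧ (t < x → s < x) := by
      intro x s h1 h2
      rw [abs_lt] at h2
      constructor
      · intro h3
        rw [abs_of_neg (by linarith)] at h1
        linarith
      · intro h3
        rw [abs_of_pos (by linarith)] at h1
        linarith
    show ∃ r : ℝ, 0 < r ∧ ∃ P : Fin 3 → ℂ → ℂ, _ ∧ (∀ i, ∀ z ∈ ball (t : ℂ) r, z ∈ HP →
      (NF x1 x2 x3 x4 t).mulVec (vec f12 f23 f34 z) i = P i z) ∧ _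
    unfold NF
    rw [if_neg n1, if_neg n2, if_neg n3, if_neg n4]
    by_cases c4 : x4 < t
    · rw [if_pos c4]
      refine loc_of hr (p := ![f23, f34, f12]) ?_ ?_ ?_
      · intro i; fin_cases i
        exacts [pd four23, pd four34, pd four12]
      · intro i s hs hsr
        have hn := not_Sg hrr hs hsr
        have hs4 := (side k4 hsr).1 c4
        fin_cases i
        exacts [h.r23 s hn (by linarith), h.r34 s hn hs4, h.r12 s hn (by linarith)]
      · intro i z hz
        rw [vec_mul]
        fin_cases i <;> simp [Matrix.one_apply]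
    rw [if_neg c4]
    by_cases c3 : x3 < t
    · rw [if_pos c3]
      have c4' : t < x4 := lt_of_le_of_ne (not_lt.1 c4) n4
      refine loc_of hr (p := ![f23, f14, f12]) ?_ ?_ ?_
      · intro i; fin_cases i
        exacts [pd four23, pd four14, pd four12]
      · intro i s hs hsr
        have hn := not_Sg hrr hs hsr
        have hs3 := (side k3 hsr).1 c3
        have hs4 := (side k4 hsr).2 c4'
        fin_cases i
        exacts [h.r23 s hn hs3, h.m14 s hn (by linarith) hs4, h.r12 s hn (by linarith)]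
      · intro i z hz
        rw [vec_mul]
        have := h.rel z hz
        fin_cases i <;> simp [N3]
        linear_combination -this
    rw [if_neg c3]
    by_cases c2 : x2 < t
    · rw [if_pos c2]
      have c3' : t < x3 := lt_of_le_of_ne (not_lt.1 c3) n3
      refine loc_of hr (p := ![f14, fun z => w ^ 2 * f34 z, f12]) ?_ ?_ ?_
      · intro i; fin_cases i
        exacts [pd four14, (pd four34).mul _, pd four12]
      · intro i s hs hsr
        have hn := not_Sg hrr hs hsr
        have hs2 := (side k2 hsr).1 c2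
        have hs3 := (side k3 hsr).2 c3'
        fin_cases i
        exacts [h.m14 s hn (by linarith) (by linarith), h.l34 s hn hs3, h.r12 s hn hs2]
      · intro i z hz
        rw [vec_mul]
        have := h.rel z hz
        fin_cases i <;> simp [N2]
        linear_combination -this
    rw [if_neg c2]
    by_cases c1 : x1 < t
    · rw [if_pos c1]
      have c2' : t < x2 := lt_of_le_of_ne (not_lt.1 c2) n2
      refine loc_of hr (p := ![fun z => w ^ 2 * f23 z, fun z => w ^ 2 * f34 z, f14]) ?_ ?_ ?_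
      · intro i; fin_cases i
        exacts [(pd four23).mul _, (pd four34).mul _, pd four14]
      · intro i s hs hsr
        have hn := not_Sg hrr hs hsr
        have hs1 := (side k1 hsr).1 c1
        have hs2 := (side k2 hsr).2 c2'
        fin_cases i
        exacts [h.l23 s hn hs2, h.l34 s hn (by linarith), h.m14 s hn hs1 (by linarith)]
      · intro i z hz
        rw [vec_mul]
        have := h.rel z hz
        fin_cases i <;> simp [N1]
        linear_combination -this
    rw [if_neg c1]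
    have c1' : t < x1 := lt_of_le_of_ne (not_lt.1 c1) n1
    refine loc_of hr (p := ![fun z => w ^ 2 * f23 z, fun z => w ^ 2 * f34 z,
      fun z => w ^ 2 * f12 z]) ?_ ?_ ?_
    · intro i; fin_cases i
      exacts [(pd four23).mul _, (pd four34).mul _, (pd four12).mul _]
    · intro i s hs hsr
      have hn := not_Sg hrr hs hsr
      have hs1 := (side k1 hsr).2 c1'
      fin_cases i
      exacts [h.l23 s hn (by linarith), h.l34 s hn (by linarith), h.l12 s hn hs1]
    · intro i z hz
      rw [vec_mul]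
      fin_cases i <;> simp [N0]
  · -- marks
    intro t ht
    have ht' : t = x1 ∨ t = x2 ∨ t = x3 ∨ t = x4 := by
      have : t ∈ ({x1, x2, x3, x4} : Finset ℝ) := ht
      simpa using this
    obtain ⟨r0, hr0, hrr0⟩ := hbd t
    obtain ⟨C, r1, hr1, hb⟩ := h.bd ht'
    set r := min r0 r1 with hr_def
    have hr : 0 < r := lt_min hr0 hr1
    have hrr : ∀ s ∈ Sp x1 x2 x3 x4 E, s ≠ t → r ≤ |s - t| := fun s hs hst =>
      (min_le_left _ _).trans (hrr0 s hs hst)
    have pd := fun {g : ℂ → ℂ} (hg : Four f12 f23 f34 f14 g) => h.pd hrr hg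
    have side : ∀ {x s : ℝ}, x ∈ Sp x1 x2 x3 x4 E → x ≠ t → |s - t| < r →
        (x < t → x < s) ∧ (t < x → s < x) := by
      intro x s hx hxt h2
      have h1 := hrr x hx hxt
      rw [abs_lt] at h2
      constructor
      · intro h3
        rw [abs_of_neg (by linarith)] at h1
        linarith
      · intro h3
        rw [abs_of_pos (by linarith)] at h1
        linarith
    have hbb : ∀ {g k : ℂ → ℂ}, Four f12 f23 f34 f14 g → Four f12 f23 f34 f14 k →
        ∀ a b : ℂ, ∀ z ∈ HP, ‖z - (t : ℂ)‖ < r → ‖a * g z - b * k z‖ ≤ (‖a‖ + ‖b‖) * C := by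
      intro g k hg hk a b z hz hzr
      have h1 := hb g hg z hz (hzr.trans_le (min_le_right _ _))
      have h2 := hb k hk z hz (hzr.trans_le (min_le_right _ _))
      calc ‖a * g z - b * k z‖ ≤ ‖a * g z‖ + ‖b * k z‖ := norm_sub_le _ _
        _ = ‖a‖ * ‖g z‖ + ‖b‖ * ‖k z‖ := by rw [norm_mul, norm_mul]
        _ ≤ ‖a‖ * C + ‖b‖ * C := add_le_add (mul_le_mul_of_nonneg_left h1 (norm_nonneg _))
            (mul_le_mul_of_nonneg_left h2 (norm_nonneg _))
        _ = (‖a‖ + ‖b‖) * C := by ring
    have hbb' : ∀ {g k l : ℂ → ℂ}, Four f12 f23 f34 f14 g → Four f12 f23 f34 f14 k →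
        Four f12 f23 f34 f14 l → ∀ a b : ℂ, ∃ C : ℝ, ∀ z ∈ HP, ‖z - (t : ℂ)‖ < r →
        ‖a * g z - b * k z‖ ≤ C ∧ ‖l z‖ ≤ C := by
      intro g k l hg hk hl a b
      refine ⟨max ((‖a‖ + ‖b‖) * C) C, fun z hz hzr => ⟨(hbb hg hk a b z hz hzr).trans
        (le_max_left _ _), (hb l hl z hz (hzr.trans_le (min_le_right _ _))).trans
        (le_max_right _ _)⟩⟩
    show ∃ r : ℝ, 0 < r ∧ ∃ P0 P1 Q : ℂ → ℂ, ∃ κ : ℂ, _ ∧ _ ∧ _ ∧ _ ∧
      (∀ z ∈ ball (t : ℂ) r, z ∈ HP → (NF x1 x2 x3 x4 t).mulVec (vec f12 f23 f34 z) 0 = P0 z) ∧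
      (∀ z ∈ ball (t : ℂ) r, z ∈ HP → (NF x1 x2 x3 x4 t).mulVec (vec f12 f23 f34 z) 1 = P1 z) ∧
      (∀ z ∈ ball (t : ℂ) r, z ∈ HP → (NF x1 x2 x3 x4 t).mulVec (vec f12 f23 f34 z) 2 =
        Q z + κ * P1 z * Complex.log (z - t))
    have hw2re : ∀ u : ℂ, u.im = 0 → (w ^ 2 * u).im = -(Real.sqrt 3 / 2) * u.re := by
      intro u hu
      rw [Complex.mul_im, w2_re, w2_im, hu]
      ring
    have hwre : ∀ u : ℂ, u.im = 0 → (w * u).im = Real.sqrt 3 / 2 * u.re := by
      intro u hu
      rw [Complex.mul_im, w_re, w_im, hu]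
      ring
    rcases ht' with ht1 | ht2 | ht3 | ht4
    · -- mark 1
      have hN : NF x1 x2 x3 x4 t = M1 := by unfold NF; rw [if_pos ht1]
      rw [hN]
      have hn2 : x2 ≠ t := by rw [ht1]; exact h12.ne'
      have hn4 : x4 ≠ t := by rw [ht1]; exact (h12.trans (h23.trans h34)).ne'
      refine mark_of hr (p0 := fun z => w ^ 2 * f34 z)
        (p1 := fun z => w ^ 2 * f23 z - w ^ 2 * f34 z) (p2 := f14) ((pd four34).mul _)
        (((pd four23).mul _).sub ((pd four34).mul _)) (pd four14)
        (hbb' four23 four34 four14 (w ^ 2) (w ^ 2)) ?_ ?_ ?_ ?_ ?_ ?_ ?_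
      · intro s hs hsr
        have hn := not_Sg hrr hs hsr
        have s2 := (side m2 hn2 hsr).2 (by linarith)
        exact h.l34 s hn (by linarith)
      · intro s hs hsr
        have hn := not_Sg hrr hs hsr
        have s2 := (side m2 hn2 hsr).2 (by linarith)
        rw [Complex.sub_im, h.l23 s hn (by linarith), h.l34 s hn (by linarith), sub_zero]
      · intro s hs hsr
        have hn := not_Sg hrr hs.ne' hsr
        have s2 := (side m2 hn2 hsr).2 (by linarith)
        exact h.m14 s hn (by linarith) (by linarith)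
      · intro s hs hsr
        have hn := not_Sg hrr hs.ne hsr
        have hrel := h.relB (z := (s : ℂ)) ⟨by simp [CH], hn⟩
        have a12 := h.l12 s hn (by linarith)
        have a23 := h.l23 s hn (by linarith)
        have a34 := h.l34 s hn (by linarith)
        -- f14 = -(w² g23 + w g34 + g12)
        have e : f14 s = -(w ^ 2 * (w ^ 2 * f23 s)) - w * (w ^ 2 * f34 s) - w ^ 2 * f12 s := by
          linear_combination hrel + (w * f23 s + f34 s) * w_cube
        rw [e, Complex.sub_im, Complex.sub_im, Complex.neg_im, hw2re _ a23, hwre _ a34, a12,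
          Complex.sub_re]
        ring
      · intro z hz
        rw [vec_mul]
        simp [M1]
      · intro z hz
        rw [vec_mul]
        simp [M1]
        ring
      · intro z hz
        rw [vec_mul]
        have := h.rel z hz
        simp [M1]
        linear_combination -this
    · -- mark 2
      have hN : NF x1 x2 x3 x4 t = M2 := by
        unfold NF; rw [if_neg (by rw [ht2]; exact h12.ne'), if_pos ht2]
      rw [hN]
      have hn1 : x1 ≠ t := by rw [ht2]; exact h12.ne
      have hn3 : x3 ≠ t := by rw [ht2]; exact h23.ne'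
      refine mark_of hr (p0 := f14)
        (p1 := fun z => w ^ 2 * f34 z - 1 * f14 z) (p2 := f12) (pd four14)
        (((pd four34).mul _).sub ((pd four14).mul _)) (pd four12)
        (hbb' four34 four14 four12 (w ^ 2) 1) ?_ ?_ ?_ ?_ ?_ ?_ ?_
      · intro s hs hsr
        have hn := not_Sg hrr hs hsr
        have s1 := (side m1 hn1 hsr).1 (by linarith)
        have s3 := (side m3 hn3 hsr).2 (by linarith)
        exact h.m14 s hn s1 (by linarith)
      · intro s hs hsr
        have hn := not_Sg hrr hs hsr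
        have s1 := (side m1 hn1 hsr).1 (by linarith)
        have s3 := (side m3 hn3 hsr).2 (by linarith)
        rw [one_mul, Complex.sub_im, h.l34 s hn s3, h.m14 s hn s1 (by linarith), sub_zero]
      · intro s hs hsr
        have hn := not_Sg hrr hs.ne' hsr
        exact h.r12 s hn (by linarith)
      · intro s hs hsr
        have hn := not_Sg hrr hs.ne hsr
        have hrel := h.relB (z := (s : ℂ)) ⟨by simp [CH], hn⟩
        have s1 := (side m1 hn1 hsr).1 (by linarith)
        have a23 := h.l23 s hn (by linarith)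
        have a34 := h.l34 s hn (by linarith)
        have a14 := h.m14 s hn s1 (by linarith)
        -- w² f12 ... : f12 = -(w² (w² f34) ... )
        have e : f12 s = -(w ^ 2 * f23 s) - w ^ 2 * (w ^ 2 * f34 s) - w * f14 s := by
          linear_combination w * hrel + (w * f34 s - f12 s) * w_cube
        rw [e, Complex.sub_im, Complex.sub_im, Complex.neg_im, hw2re _ a34, hwre _ a14, a23,
          Complex.sub_re, one_mul]
        ring
      · intro z hz
        rw [vec_mul]
        have := h.rel z hz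
        simp [M2]
        linear_combination -this
      · intro z hz
        rw [vec_mul]
        have := h.rel z hz
        simp [M2]
        linear_combination this
      · intro z hz
        rw [vec_mul]
        simp [M2]
    · -- mark 3
      have hN : NF x1 x2 x3 x4 t = M3 := by
        unfold NF; rw [if_neg (by rw [ht3]; exact (h12.trans h23).ne'),
          if_neg (by rw [ht3]; exact h23.ne'), if_pos ht3]
      rw [hN]
      have hn2 : x2 ≠ t := by rw [ht3]; exact h23.ne
      have hn4 : x4 ≠ t := by rw [ht3]; exact h34.ne'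
      refine mark_of hr (p0 := f12)
        (p1 := fun z => 1 * f14 z - 1 * f12 z) (p2 := f23) (pd four12)
        (((pd four14).mul _).sub ((pd four12).mul _)) (pd four23)
        (hbb' four14 four12 four23 1 1) ?_ ?_ ?_ ?_ ?_ ?_ ?_
      · intro s hs hsr
        have hn := not_Sg hrr hs hsr
        have s2 := (side m2 hn2 hsr).1 (by linarith)
        exact h.r12 s hn s2
      · intro s hs hsr
        have hn := not_Sg hrr hs hsr
        have s2 := (side m2 hn2 hsr).1 (by linarith)
        have s4 := (side m4 hn4 hsr).2 (by linarith)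
        rw [one_mul, one_mul, Complex.sub_im, h.r12 s hn s2, h.m14 s hn (by linarith) s4, sub_zero]
      · intro s hs hsr
        have hn := not_Sg hrr hs.ne' hsr
        exact h.r23 s hn (by linarith)
      · intro s hs hsr
        have hn := not_Sg hrr hs.ne hsr
        have hrel := h.relB (z := (s : ℂ)) ⟨by simp [CH], hn⟩
        have s2 := (side m2 hn2 hsr).1 (by linarith)
        have a12 := h.r12 s hn s2
        have a34 := h.l34 s hn (by linarith)
        have a14 := h.m14 s hn (by linarith) (by linarith)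
        have e : f23 s = -(w ^ 2 * f34 s) - w * f12 s - w ^ 2 * f14 s := by
          linear_combination w ^ 2 * hrel - (f23 s + w * f12 s) * w_cube
        rw [e, Complex.sub_im, Complex.sub_im, Complex.neg_im, hw2re _ a14, hwre _ a12, a34,
          Complex.sub_re, one_mul, one_mul]
        ring
      · intro z hz
        rw [vec_mul]
        simp [M3]
      · intro z hz
        rw [vec_mul]
        have := h.rel z hz
        simp [M3]
        linear_combination -this
      · intro z hz
        rw [vec_mul]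
        simp [M3]
    · -- mark 4
      have hN : NF x1 x2 x3 x4 t = M4 := by
        unfold NF; rw [if_neg (by rw [ht4]; exact (h12.trans (h23.trans h34)).ne'),
          if_neg (by rw [ht4]; exact (h23.trans h34).ne'), if_neg (by rw [ht4]; exact h34.ne'),
          if_pos ht4]
      rw [hN]
      have hn3 : x3 ≠ t := by rw [ht4]; exact h34.ne
      refine mark_of hr (p0 := f12)
        (p1 := fun z => 1 * f12 z - 1 * f23 z) (p2 := f34) (pd four12)
        (((pd four12).mul _).sub ((pd four23).mul _)) (pd four34)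
        (hbb' four12 four23 four34 1 1) ?_ ?_ ?_ ?_ ?_ ?_ ?_
      · intro s hs hsr
        have hn := not_Sg hrr hs hsr
        have s3 := (side m3 hn3 hsr).1 (by linarith)
        exact h.r12 s hn (by linarith)
      · intro s hs hsr
        have hn := not_Sg hrr hs hsr
        have s3 := (side m3 hn3 hsr).1 (by linarith)
        rw [one_mul, one_mul, Complex.sub_im, h.r12 s hn (by linarith), h.r23 s hn s3, sub_zero]
      · intro s hs hsr
        have hn := not_Sg hrr hs.ne' hsr
        exact h.r34 s hn (by linarith)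
      · intro s hs hsr
        have hn := not_Sg hrr hs.ne hsr
        have hrel := h.relB (z := (s : ℂ)) ⟨by simp [CH], hn⟩
        have s3 := (side m3 hn3 hsr).1 (by linarith)
        have a12 := h.r12 s hn (by linarith)
        have a23 := h.r23 s hn s3
        have a14 := h.m14 s hn (by linarith) (by linarith)
        have e : f34 s = -(w * f23 s) - w ^ 2 * f12 s - f14 s := by
          linear_combination hrel
        rw [e, Complex.sub_im, Complex.sub_im, Complex.neg_im, hw2re _ a12, hwre _ a23, a14,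
          Complex.sub_re, one_mul, one_mul]
        ring
      · intro z hz
        rw [vec_mul]
        simp [M4]
      · intro z hz
        rw [vec_mul]
        simp [M4]
        ring
      · intro z hz
        rw [vec_mul]
        simp [M4]
  · -- infinity
    obtain ⟨C1, R1, hR1, b1⟩ := h.inf f12 four12
    obtain ⟨C2, R2, hR2, b2⟩ := h.inf f23 four23
    obtain ⟨C3, R3, hR3, b3⟩ := h.inf f34 four34
    set R := max (max R1 R2) (max R3 (∑ s ∈ Sp x1 x2 x3 x4 E, |s| + 1)) with hR
    have hRpos : 0 < R := lt_max_of_lt_left (lt_max_of_lt_left hR1)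
    have hS : ∀ s ∈ Sp x1 x2 x3 x4 E, |s| < 1 / (1 / R) := by
      intro s hs
      rw [one_div_one_div]
      have h1 : |s| ≤ ∑ s ∈ Sp x1 x2 x3 x4 E, |s| :=
        Finset.single_le_sum (f := fun s : ℝ => |s|) (fun _ _ => abs_nonneg _) hs
      have h2 : ∑ s ∈ Sp x1 x2 x3 x4 E, |s| + 1 ≤ R :=
        (le_max_right _ _).trans (le_max_right _ _)
      linarith
    have hρ : 0 < 1 / R := by positivity
    obtain ⟨U1, a1, a2, a3⟩ := inf_of h.h12 h.c12 (C := C1) hρ hS
      (by
        intro z hz hzR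
        rw [one_div_one_div] at hzR
        exact b1 z hz (((le_max_left _ _).trans (le_max_left _ _)).trans_lt hzR))
      (fun t ht htx => h.r12 t ht (by linarith)) (fun t ht htx => h.l12 t ht htx)
    obtain ⟨U2, c1, c2, c3⟩ := inf_of h.h23 h.c23 (C := C2) hρ hS
      (by
        intro z hz hzR
        rw [one_div_one_div] at hzR
        exact b2 z hz (((le_max_right _ _).trans (le_max_left _ _)).trans_lt hzR))
      (fun t ht htx => h.r23 t ht (by linarith)) (fun t ht htx => h.l23 t ht (by linarith))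
    obtain ⟨U3, d1, d2, d3⟩ := inf_of h.h34 h.c34 (C := C3) hρ hS
      (by
        intro z hz hzR
        rw [one_div_one_div] at hzR
        exact b3 z hz (((le_max_left _ _).trans (le_max_right _ _)).trans_lt hzR))
      (fun t ht htx => h.r34 t ht htx) (fun t ht htx => h.l34 t ht (by linarith))
    refine ⟨1 / R, hρ, ![U2, U3, U1], ?_, ?_, ?_⟩
    · intro i
      fin_cases i
      exacts [c1, d1, a1]
    · intro i z hz hzb
      fin_cases i
      exacts [c2 z hz hzb, d2 z hz hzb, a2 z hz hzb]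
    · intro i s hs
      fin_cases i
      exacts [c3 s hs, d3 s hs, a3 s hs]

end H87.FM
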