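import Pool.Agent.H87.FM.SolN

set_option autoImplicit false

/-!
# Uniqueness for the four mark problem
-/

open Complex Metric Set Topology Filter
open scoped ComplexConjugate

noncomputable section

namespace H87.FM

variable {x1 x2 x3 x4 : ℝ} {E : Finset ℝ} {f12 f23 f34 f14 : ℂ → ℂ}

/-- there is a free point in every interval -/
lemma exists_free (T : Finset ℝ) {a b : ℝ} (hab : a < b) : ∃ t, a < t ∧ t < b ∧ t ∉ T := by
  have h1 : (Ioo a b).Infinite := Ioo_infinite hab
  obtain ⟨t, ht, htT⟩ := (h1.sdiff T.finite_toSet).nonempty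
  exact ⟨t, ht.1, ht.2, htT⟩

/-- a holomorphic function which vanishes on an arc vanishes -/
lemma zero_of_arc {g : ℂ → ℂ} (hd : DifferentiableOn ℂ g HP)
    (hc : ContinuousOn g (CH \ Sg x1 x2 x3 x4 E)) {a b : ℝ} (hab : a < b)
    (hz : ∀ t : ℝ, a < t → t < b → (t : ℂ) ∉ Sg x1 x2 x3 x4 E → g t = 0) :
    ∀ z ∈ HP, g z = 0 := by
  obtain ⟨t, hat, htb, htT⟩ := exists_free (Sp x1 x2 x3 x4 E) hab
  obtain ⟨r0, hr0, hrr0⟩ := exists_radius (Sp x1 x2 x3 x4 E) t
  set r := min r0 (min (t - a) (b - t)) with hr_def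
  have hr : 0 < r := lt_min hr0 (lt_min (by linarith) (by linarith))
  have hrr : ∀ s ∈ Sp x1 x2 x3 x4 E, s ≠ t → r ≤ |s - t| := fun s hs hst =>
    (min_le_left _ _).trans (hrr0 s hs hst)
  have pd : PD t r g := pd_loc hd hc hrr fun h => absurd h htT
  have hzero : ∀ s : ℝ, |s - t| < r → g s = 0 := by
    intro s hs
    have h1 : |s - t| < t - a := hs.trans_le ((min_le_right _ _).trans (min_le_left _ _))
    have h2 : |s - t| < b - t := hs.trans_le ((min_le_right _ _).trans (min_le_right _ _))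
    rw [abs_lt] at h1 h2
    refine hz s (by linarith) (by linarith) ?_
    by_cases hst : s = t
    · rw [hst, real_mem_Sg]; exact htT
    · exact not_Sg hrr hst hs
  obtain ⟨P, hP, hPe, -⟩ := ext_punct hr pd.c pd.d
    (fun s _ hsb => by rw [hzero s (mem_ball_real.1 hsb)]; simp) pd.s
  -- P vanishes on the reals near t
  have hPz : ∀ s : ℝ, s ≠ t → |s - t| < r → P s = 0 := by
    intro s hst hs
    rw [hPe s (mem_ball_real.2 hs) (by simp) (by exact_mod_cast hst), hzero s hs]
  have hfr : ∃ᶠ z in 𝓝[≠] (t : ℂ), P z = 0 := by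
    have h1 : Tendsto (fun s : ℝ => (s : ℂ)) (𝓝[≠] t) (𝓝[≠] (t : ℂ)) := by
      rw [tendsto_nhdsWithin_iff]
      constructor
      · exact (Complex.continuous_ofReal.tendsto t).mono_left nhdsWithin_le_nhds
      · filter_upwards [self_mem_nhdsWithin] with s hs
        intro h
        have h1 : (s : ℂ) = (t : ℂ) := h
        have h2 : s = t := by exact_mod_cast h1
        exact hs h2
    refine h1.frequently ?_
    apply Eventually.frequently
    have h2 : ∀ᶠ s in 𝓝 t, |s - t| < r := by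
      have : ball t r ∈ 𝓝 t := ball_mem_nhds t hr
      filter_upwards [this] with s hs
      rwa [mem_ball, Real.dist_eq] at hs
    filter_upwards [self_mem_nhdsWithin, nhdsWithin_le_nhds h2] with s h3 h4
    exact hPz s h3 h4
  have hPA : AnalyticOnNhd ℂ P (ball (t : ℂ) r) := hP.analyticOnNhd isOpen_ball
  have hP0 := hPA.eqOn_zero_of_preconnected_of_frequently_eq_zero
    (convex_ball _ _).isPreconnected (mem_ball_self hr) hfr
  -- hence g vanishes on a small ball in HP
  have hgA : AnalyticOnNhd ℂ g HP := hd.analyticOnNhd HP_open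
  set z0 : ℂ := t + (r / 2 : ℝ) * Complex.I with hz0
  have hz0H : z0 ∈ HP := by
    show 0 < z0.im
    simp [hz0]
    exact hr
  have hz0b : z0 ∈ ball (t : ℂ) r := by
    rw [mem_ball, Complex.dist_eq, hz0, add_sub_cancel_left, norm_mul, Complex.norm_I, mul_one,
      Complex.norm_real, Real.norm_eq_abs, abs_of_pos (by linarith)]
    linarith
  have hev : g =ᶠ[𝓝 z0] 0 := by
    filter_upwards [HP_open.mem_nhds hz0H, isOpen_ball.mem_nhds hz0b] with z h1 h2
    rw [← hPe z h2 (HP_sub_CH h1) (by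
      intro h
      rw [h] at h1
      simp [HP] at h1)]
    exact hP0 h2
  exact hgA.eqOn_zero_of_preconnected_of_eventuallyEq_zero HP_preconn hz0H hev

/-- a linear combination of the three functions -/
lemma Sol4.lin_hol (h : Sol4 x1 x2 x3 x4 E f12 f23 f34 f14) (a b c : ℂ) :
    DifferentiableOn ℂ (fun z => a * f23 z + b * f34 z + c * f12 z) HP :=
  ((h.h23.const_mul a).add (h.h34.const_mul b)).add (h.h12.const_mul c)

lemma Sol4.lin_cont (h : Sol4 x1 x2 x3 x4 E f12 f23 f34 f14) (a b c : ℂ) :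
    ContinuousOn (fun z => a * f23 z + b * f34 z + c * f12 z) (CH \ Sg x1 x2 x3 x4 E) :=
  ((continuousOn_const.mul h.c23).add (continuousOn_const.mul h.c34)).add
    (continuousOn_const.mul h.c12)

/-- a relation on `HP` holds on the boundary -/
lemma Sol4.lin_bd (h : Sol4 x1 x2 x3 x4 E f12 f23 f34 f14) {a b c : ℂ}
    (hz : ∀ z ∈ HP, a * f23 z + b * f34 z + c * f12 z = 0) {z : ℂ}
    (hzS : z ∈ CH \ Sg x1 x2 x3 x4 E) : a * f23 z + b * f34 z + c * f12 z = 0 := by
  have h1 : Tendsto (fun z => a * f23 z + b * f34 z + c * f12 z) (𝓝[HP] z)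
      (𝓝 (a * f23 z + b * f34 z + c * f12 z)) := by
    refine (h.lin_cont a b c z hzS).mono fun y hy => ⟨HP_sub_CH hy, fun hyS => ?_⟩
    obtain ⟨s, -, rfl⟩ := mem_Sg.1 hyS
    simp [HP] at hy
  have : NeBot (𝓝[HP] z) := mem_closure_iff_nhdsWithin_neBot.1 (CH_sub_closure hzS.1)
  refine tendsto_nhds_unique h1 ?_
  refine tendsto_const_nhds.congr' ?_
  filter_upwards [self_mem_nhdsWithin] with y hy
  exact (hz y hy).symm

/-- linear relation on an arc gives a relation on `HP` -/
lemma Sol4.lin_arc (h : Sol4 x1 x2 x3 x4 E f12 f23 f34 f14) {a b c : ℂ} {s t : ℝ} (hst : s < t)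
    (hz : ∀ y : ℝ, s < y → y < t → (y : ℂ) ∉ Sg x1 x2 x3 x4 E →
      a * f23 y + b * f34 y + c * f12 y = 0) :
    ∀ z ∈ HP, a * f23 z + b * f34 z + c * f12 z = 0 :=
  zero_of_arc (h.lin_hol a b c) (h.lin_cont a b c) hst hz

lemma im_w_mul {u : ℂ} (hu : u.im = 0) : (w * u).im = Real.sqrt 3 / 2 * u.re := by
  rw [Complex.mul_im, w_re, w_im, hu]; ring

lemma im_w2_mul {u : ℂ} (hu : u.im = 0) : (w ^ 2 * u).im = -(Real.sqrt 3 / 2) * u.re := by
  rw [Complex.mul_im, w2_re, w2_im, hu]; ring

lemma eq_of_sqrt {a b : ℝ} (h : Real.sqrt 3 / 2 * a = Real.sqrt 3 / 2 * b) : a = b := by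
  have := sqrt3_pos
  have h1 : Real.sqrt 3 / 2 ≠ 0 := by positivity
  exact mul_left_cancel₀ h1 h

lemma ext_re {u v : ℂ} (hu : u.im = 0) (hv : v.im = 0) (h : u.re = v.re) : u = v :=
  Complex.ext h (by rw [hu, hv])

/-- all three functions vanish -/
def AllZero (f12 f23 f34 : ℂ → ℂ) : Prop := ∀ z ∈ HP, f12 z = 0 ∧ f23 z = 0 ∧ f34 z = 0

/-- Case A: `f12 = f23`. -/
lemma Sol4.caseA (h : Sol4 x1 x2 x3 x4 E f12 f23 f34 f14) (h12 : x1 < x2) (h23 : x2 < x3)
    (h34 : x3 < x4) (hA : ∀ z ∈ HP, f12 z = f23 z) : AllZero f12 f23 f34 := by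
  have hA' : ∀ z ∈ HP, 1 * f23 z + 0 * f34 z + -1 * f12 z = 0 := by
    intro z hz; rw [hA z hz]; ring
  -- f34 = 0 on II
  have h1 : ∀ z ∈ HP, 0 * f23 z + 1 * f34 z + 0 * f12 z = 0 := by
    refine h.lin_arc h23 fun y hy1 hy2 hyS => ?_
    have hyC : (y : ℂ) ∈ CH \ Sg x1 x2 x3 x4 E := ⟨by simp [CH], hyS⟩
    have e1 := h.lin_bd hA' hyC
    have e2 := h.relB hyC
    have a12 := h.r12 y hyS hy1
    have a14 := h.m14 y hyS (by linarith) (by linarith)
    have a34 := h.l34 y hyS hy2
    have e3 : f34 y = f12 y - f14 y := by linear_combination e2 - w * e1 - f12 y * w_rel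
    have e4 : (f34 y).im = 0 := by rw [e3, Complex.sub_im, a12, a14, sub_zero]
    rw [zero_of_real_w e4 a34]
    ring
  have h1' : ∀ z ∈ HP, f34 z = 0 := fun z hz => by simpa using h1 z hz
  -- f12 = 0 on I
  have h2 : ∀ z ∈ HP, 0 * f23 z + 0 * f34 z + 1 * f12 z = 0 := by
    refine h.lin_arc h12 fun y hy1 hy2 hyS => ?_
    have hyC : (y : ℂ) ∈ CH \ Sg x1 x2 x3 x4 E := ⟨by simp [CH], hyS⟩
    have e0 := h.lin_bd h1 hyC
    have e1 := h.lin_bd hA' hyC
    have e2 := h.relB hyC
    have a14 := h.m14 y hyS hy1 (by linarith)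
    have a23 := h.l23 y hyS hy2
    have e3 : f23 y = f14 y := by
      linear_combination -e2 + e0 - w ^ 2 * e1 + f23 y * w_rel
    have e4 : (f23 y).im = 0 := by rw [e3, a14]
    have e5 := zero_of_real_w e4 a23
    linear_combination -e1 + e5
  intro z hz
  have e1 := h2 z hz
  have e2 : f12 z = 0 := by simpa using e1
  exact ⟨e2, by rw [← hA z hz, e2], h1' z hz⟩

/-- Real relations. -/
lemma Sol4.real_rel (h : Sol4 x1 x2 x3 x4 E f12 f23 f34 f14) (h12 : x1 < x2) (h23 : x2 < x3)
    (h34 : x3 < x4) {a b c : ℝ} (hne : a ≠ 0 ∨ b ≠ 0 ∨ c ≠ 0)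
    (hr : ∀ z ∈ HP, (a : ℂ) * f23 z + (b : ℂ) * f34 z + (c : ℂ) * f12 z = 0) :
    AllZero f12 f23 f34 := by
  by_cases hb : b = 0
  · -- a f23 + c f12 = 0
    subst hb
    by_cases ha : a = 0
    · subst ha
      have hc : c ≠ 0 := by
        rcases hne with h1 | h1 | h1
        · exact absurd rfl h1
        · exact absurd rfl h1
        · exact h1
      have hcC : (c : ℂ) ≠ 0 := by exact_mod_cast hc
      have z12 : ∀ z ∈ HP, f12 z = 0 := by
        intro z hz
        have := hr z hz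
        simp only [Complex.ofReal_zero, zero_mul, zero_add] at this
        exact (mul_eq_zero.1 this).resolve_left hcC
      have z12' : ∀ z ∈ HP, 0 * f23 z + 0 * f34 z + 1 * f12 z = 0 := by
        intro z hz; rw [z12 z hz]; ring
      -- f23 = f34 on I
      have h1 : ∀ z ∈ HP, 1 * f23 z + -1 * f34 z + 0 * f12 z = 0 := by
        refine h.lin_arc h12 fun y hy1 hy2 hyS => ?_
        have hyC : (y : ℂ) ∈ CH \ Sg x1 x2 x3 x4 E := ⟨by simp [CH], hyS⟩
        have e0 := h.lin_bd z12' hyC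
        have e2 := h.relB hyC
        have a14 := h.m14 y hyS hy1 (by linarith)
        have a23 := h.l23 y hyS hy2
        have a34 := h.l34 y hyS (by linarith)
        have e3 : f14 y = -(w ^ 2 * (w ^ 2 * f23 y)) - w * (w ^ 2 * f34 y) := by
          linear_combination e2 - w ^ 2 * e0 + (w * f23 y + f34 y) * w_cube
        have e4 : (f14 y).im = Real.sqrt 3 / 2 * (w ^ 2 * f23 y).re -
            Real.sqrt 3 / 2 * (w ^ 2 * f34 y).re := by
          rw [e3, Complex.sub_im, Complex.neg_im, im_w2_mul a23, im_w_mul a34]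
          ring
        have e5 : w ^ 2 * f23 y = w ^ 2 * f34 y := by
          refine ext_re a23 a34 (eq_of_sqrt ?_)
          rw [a14] at e4
          linarith
        have e6 := mul_left_cancel₀ (pow_ne_zero 2 w_ne) e5
        rw [e6]; ring
      -- f23 = 0 on III
      have h2 : ∀ z ∈ HP, 1 * f23 z + 0 * f34 z + 0 * f12 z = 0 := by
        refine h.lin_arc h34 fun y hy1 hy2 hyS => ?_
        have hyC : (y : ℂ) ∈ CH \ Sg x1 x2 x3 x4 E := ⟨by simp [CH], hyS⟩
        have e0 := h.lin_bd z12' hyC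
        have e1 := h.lin_bd h1 hyC
        have e2 := h.relB hyC
        have a14 := h.m14 y hyS (by linarith) hy2
        have a23 := h.r23 y hyS hy1
        have e3 : f14 y = -(w * f23 y) - f23 y := by
          linear_combination e2 - w ^ 2 * e0 + e1
        have e4 : (f14 y).im = -(Real.sqrt 3 / 2 * (f23 y).re) := by
          rw [e3, Complex.sub_im, Complex.neg_im, im_w_mul a23, a23, sub_zero]
        have e5 : f23 y = 0 := by
          refine ext_re a23 (by simp) (eq_of_sqrt ?_)
          rw [a14] at e4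
          simp
          have := sqrt3_pos
          have h6 : Real.sqrt 3 / 2 * (f23 y).re = 0 := by linarith
          rcases mul_eq_zero.1 h6 with h7 | h7
          · linarith
          · exact h7
        rw [e5]; ring
      intro z hz
      have e1 := h1 z hz
      have e2 := h2 z hz
      have e3 : f23 z = 0 := by simpa using e2
      refine ⟨z12 z hz, e3, ?_⟩
      linear_combination -e1 + e3
    · have haC : (a : ℂ) ≠ 0 := by exact_mod_cast ha
      set ρ : ℝ := -c / a with hρ
      have hρC : (ρ : ℂ) = -c / a := by rw [hρ]; push_cast; ring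
      have z23 : ∀ z ∈ HP, f23 z = ρ * f12 z := by
        intro z hz
        have := hr z hz
        rw [hρC]
        field_simp
        simp only [Complex.ofReal_zero, zero_mul, add_zero] at this
        linear_combination this
      have z23' : ∀ z ∈ HP, 1 * f23 z + 0 * f34 z + -(ρ : ℂ) * f12 z = 0 := by
        intro z hz; rw [z23 z hz]; ring
      -- f34 = w (1 - ρ) f12 on II
      have h1 : ∀ z ∈ HP, 0 * f23 z + 1 * f34 z + -(w * (1 - ρ)) * f12 z = 0 := by
        refine h.lin_arc h23 fun y hy1 hy2 hyS => ?_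
        have hyC : (y : ℂ) ∈ CH \ Sg x1 x2 x3 x4 E := ⟨by simp [CH], hyS⟩
        have e1 := h.lin_bd z23' hyC
        have e2 := h.relB hyC
        have a12 := h.r12 y hyS hy1
        have a14 := h.m14 y hyS (by linarith) (by linarith)
        have a34 := h.l34 y hyS hy2
        have e3 : w ^ 2 * f34 y = -(w ^ 2 * f14 y) - ρ * f12 y - w * f12 y := by
          linear_combination w ^ 2 * e2 - e1 - (f23 y + w * f12 y) * w_cube
        have e4 : (w ^ 2 * f34 y).im = Real.sqrt 3 / 2 * (f14 y).re -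
            Real.sqrt 3 / 2 * (f12 y).re := by
          rw [e3, Complex.sub_im, Complex.sub_im, Complex.neg_im, im_w2_mul a14, im_w_mul a12,
            Complex.im_ofReal_mul, a12]
          ring
        have e5 : f14 y = f12 y := by
          refine ext_re a14 a12 (eq_of_sqrt ?_)
          rw [a34] at e4
          linarith
        linear_combination e2 - w * e1 - e5 - f12 y * w_rel
      by_cases hρ1 : ρ = 1
      · refine h.caseA h12 h23 h34 fun z hz => ?_
        rw [z23 z hz, hρ1]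
        simp
      · -- f12 = 0 on IV right
        have h2 : ∀ z ∈ HP, 0 * f23 z + 0 * f34 z + 1 * f12 z = 0 := by
          refine h.lin_arc (lt_add_one x4) fun y hy1 _ hyS => ?_
          have hyC : (y : ℂ) ∈ CH \ Sg x1 x2 x3 x4 E := ⟨by simp [CH], hyS⟩
          have e1 := h.lin_bd h1 hyC
          have a12 := h.r12 y hyS (by linarith)
          have a34 := h.r34 y hyS hy1
          have e2 : f34 y = (1 - ρ : ℝ) * (w * f12 y) := by
            push_cast
            linear_combination e1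
          have e3 : (f34 y).im = (1 - ρ) * (Real.sqrt 3 / 2 * (f12 y).re) := by
            rw [e2, Complex.im_ofReal_mul, im_w_mul a12]
          rw [a34] at e3
          have e4 : (f12 y).re = 0 := by
            rcases mul_eq_zero.1 e3.symm with h7 | h7
            · exact absurd (by linarith) hρ1
            · rcases mul_eq_zero.1 h7 with h8 | h8
              · have := sqrt3_pos; linarith
              · exact h8
          have e5 : f12 y = 0 := Complex.ext e4 a12
          rw [e5]; ring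
        intro z hz
        have e1 : f12 z = 0 := by simpa using h2 z hz
        have e2 := h1 z hz
        refine ⟨e1, by rw [z23 z hz, e1, mul_zero], ?_⟩
        rw [e1] at e2
        simpa using e2
  · -- f12 = f23 on III
    refine h.caseA h12 h23 h34 fun z hz => ?_
    have h1 : ∀ z ∈ HP, -1 * f23 z + 0 * f34 z + 1 * f12 z = 0 := by
      refine h.lin_arc h34 fun y hy1 hy2 hyS => ?_
      have hyC : (y : ℂ) ∈ CH \ Sg x1 x2 x3 x4 E := ⟨by simp [CH], hyS⟩
      have e1 := h.lin_bd hr hyC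
      have e2 := h.relB hyC
      have a12 := h.r12 y hyS (by linarith)
      have a23 := h.r23 y hyS hy1
      have a14 := h.m14 y hyS (by linarith) hy2
      have e3 : (f34 y).im = 0 := by
        have e4 := congrArg Complex.im e1
        simp only [Complex.add_im, Complex.im_ofReal_mul, a12, a23, mul_zero, zero_add, add_zero,
          Complex.zero_im] at e4
        exact (mul_eq_zero.1 e4).resolve_left hb
      have e5 : f34 y = -(w * f23 y) - w ^ 2 * f12 y - f14 y := by linear_combination e2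
      have e6 : (f34 y).im = -(Real.sqrt 3 / 2 * (f23 y).re) + Real.sqrt 3 / 2 * (f12 y).re := by
        rw [e5, Complex.sub_im, Complex.sub_im, Complex.neg_im, im_w_mul a23, im_w2_mul a12, a14]
        ring
      have e7 : f12 y = f23 y := by
        refine ext_re a12 a23 (eq_of_sqrt ?_)
        rw [e3] at e6
        linarith
      rw [e7]; ring
    linear_combination h1 z hz

/-- **No linear relations.** -/
theorem Sol4.no_rel (h : Sol4 x1 x2 x3 x4 E f12 f23 f34 f14) (h12 : x1 < x2) (h23 : x2 < x3)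
    (h34 : x3 < x4) {a b c : ℂ} (hne : a ≠ 0 ∨ b ≠ 0 ∨ c ≠ 0)
    (hr : ∀ z ∈ HP, a * f23 z + b * f34 z + c * f12 z = 0) : AllZero f12 f23 f34 := by
  have key : ∀ y : ℝ, x4 < y → (y : ℂ) ∉ Sg x1 x2 x3 x4 E →
      (a.re : ℂ) * f23 y + (b.re : ℂ) * f34 y + (c.re : ℂ) * f12 y = 0 ∧
      (a.im : ℂ) * f23 y + (b.im : ℂ) * f34 y + (c.im : ℂ) * f12 y = 0 := by
    intro y hy hyS
    have hyC : (y : ℂ) ∈ CH \ Sg x1 x2 x3 x4 E := ⟨by simp [CH], hyS⟩
    have e1 := h.lin_bd hr hyC
    have a12 := h.r12 y hyS (by linarith)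
    have a23 := h.r23 y hyS (by linarith)
    have a34 := h.r34 y hyS hy
    have e2 := congrArg Complex.re e1
    have e3 := congrArg Complex.im e1
    simp only [Complex.add_re, Complex.add_im, Complex.mul_re, Complex.mul_im, a12, a23, a34,
      mul_zero, sub_zero, zero_add, Complex.zero_re, Complex.zero_im] at e2 e3
    constructor
    · apply Complex.ext
      · simp only [Complex.add_re, Complex.re_ofReal_mul, Complex.zero_re]
        linarith
      · simp only [Complex.add_im, Complex.im_ofReal_mul, a12, a23, a34, Complex.zero_im]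
        ring
    · apply Complex.ext
      · simp only [Complex.add_re, Complex.re_ofReal_mul, Complex.zero_re]
        linarith
      · simp only [Complex.add_im, Complex.im_ofReal_mul, a12, a23, a34, Complex.zero_im]
        ring
  have hre := h.lin_arc (a := (a.re : ℂ)) (b := (b.re : ℂ)) (c := (c.re : ℂ)) (lt_add_one x4)
    fun y hy1 _ hyS => (key y hy1 hyS).1
  have him := h.lin_arc (a := (a.im : ℂ)) (b := (b.im : ℂ)) (c := (c.im : ℂ)) (lt_add_one x4)
    fun y hy1 _ hyS => (key y hy1 hyS).2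
  by_cases h1 : a.re ≠ 0 ∨ b.re ≠ 0 ∨ c.re ≠ 0
  · exact h.real_rel h12 h23 h34 h1 hre
  · push Not at h1
    refine h.real_rel h12 h23 h34 ?_ him
    by_contra hcon
    push Not at hcon
    have ha : a = 0 := Complex.ext h1.1 hcon.1
    have hb : b = 0 := Complex.ext h1.2.1 hcon.2.1
    have hc : c = 0 := Complex.ext h1.2.2 hcon.2.2
    rcases hne with h2 | h2 | h2
    · exact h2 ha
    · exact h2 hb
    · exact h2 hc

/-- constants are no solutions -/
lemma Sol4.const_zero (h : Sol4 x1 x2 x3 x4 E f12 f23 f34 f14) (h12 : x1 < x2) (h23 : x2 < x3)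
    (h34 : x3 < x4) {g : ℂ → ℂ} (hg : g = f12 ∨ g = f23 ∨ g = f34)
    (hz : ∀ z ∈ HP, deriv g z = 0) : ∀ z ∈ HP, g z = 0 := by
  have hF : Four f12 f23 f34 f14 g := by
    rcases hg with rfl | rfl | rfl
    exacts [four12, four23, four34]
  have hI : Complex.I ∈ HP := by simp [HP]
  have hconst : ∀ z ∈ HP, g z = g Complex.I := fun z hz' =>
    HP_open.is_const_of_deriv_eq_zero HP_preconn (h.hol hF) hz hz' hI
  have hbd : ∀ y : ℝ, (y : ℂ) ∉ Sg x1 x2 x3 x4 E → g y = g Complex.I := by
    intro y hy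
    have hyC : (y : ℂ) ∈ CH \ Sg x1 x2 x3 x4 E := ⟨by simp [CH], hy⟩
    have h1 : Tendsto g (𝓝[HP] (y : ℂ)) (𝓝 (g y)) := by
      refine (h.cont hF _ hyC).mono fun z hz => ⟨HP_sub_CH hz, fun hzS => ?_⟩
      obtain ⟨s, -, rfl⟩ := mem_Sg.1 hzS
      simp [HP] at hz
    refine tendsto_nhds_unique h1 ?_
    refine tendsto_const_nhds.congr' ?_
    filter_upwards [self_mem_nhdsWithin] with z hz
    exact (hconst z hz).symm
  obtain ⟨s, hs1, -, hs3⟩ := exists_free (Sp x1 x2 x3 x4 E) (lt_add_one x4)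
  obtain ⟨t, -, ht2, ht3⟩ := exists_free (Sp x1 x2 x3 x4 E) (sub_one_lt x1)
  have hsS : (s : ℂ) ∉ Sg x1 x2 x3 x4 E := fun h => hs3 (real_mem_Sg.1 h)
  have htS : (t : ℂ) ∉ Sg x1 x2 x3 x4 E := fun h => ht3 (real_mem_Sg.1 h)
  have e1 : (g Complex.I).im = 0 := by
    rw [← hbd s hsS]
    rcases hg with rfl | rfl | rfl
    exacts [h.r12 s hsS (by linarith), h.r23 s hsS (by linarith), h.r34 s hsS hs1]
  have e2 : (w ^ 2 * g Complex.I).im = 0 := by
    rw [← hbd t htS]
    rcases hg with rfl | rfl | rfl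
    exacts [h.l12 t htS ht2, h.l23 t htS (by linarith), h.l34 t htS (by linarith)]
  intro z hz'
  rw [hconst z hz']
  exact zero_of_real_w e1 e2

/-- real linear combinations of solutions -/
lemma Sol4.add {g12 g23 g34 g14 : ℂ → ℂ} (h : Sol4 x1 x2 x3 x4 E f12 f23 f34 f14)
    (k : Sol4 x1 x2 x3 x4 E g12 g23 g34 g14) (a b : ℝ) :
    Sol4 x1 x2 x3 x4 E (fun z => a * f12 z + b * g12 z) (fun z => a * f23 z + b * g23 z)
      (fun z => a * f34 z + b * g34 z) (fun z => a * f14 z + b * g14 z) := by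
  have mem_elim : ∀ {P : (ℂ → ℂ) → Prop},
      P (fun z => a * f12 z + b * g12 z) → P (fun z => a * f23 z + b * g23 z) →
      P (fun z => a * f34 z + b * g34 z) → P (fun z => a * f14 z + b * g14 z) →
      ∀ f ∈ ({fun z => a * f12 z + b * g12 z, fun z => a * f23 z + b * g23 z,
        fun z => a * f34 z + b * g34 z, fun z => a * f14 z + b * g14 z} : Set (ℂ → ℂ)), P f := by
    intro P p1 p2 p3 p4 f hf
    rcases hf with rfl | rfl | rfl | rfl
    exacts [p1, p2, p3, p4]
  have re1 : ∀ {u v : ℂ}, u.im = 0 → v.im = 0 → ((a : ℂ) * u + (b : ℂ) * v).im = 0 := by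
    intro u v hu hv
    rw [Complex.add_im, Complex.im_ofReal_mul, Complex.im_ofReal_mul, hu, hv]; ring
  have re2 : ∀ {u v : ℂ}, (w ^ 2 * u).im = 0 → (w ^ 2 * v).im = 0 →
      (w ^ 2 * ((a : ℂ) * u + (b : ℂ) * v)).im = 0 := by
    intro u v hu hv
    have : w ^ 2 * ((a : ℂ) * u + (b : ℂ) * v) = a * (w ^ 2 * u) + b * (w ^ 2 * v) := by ring
    rw [this]
    exact re1 hu hv
  refine ⟨(h.h12.const_mul _).add (k.h12.const_mul _), (h.h23.const_mul _).add (k.h23.const_mul _),
    (h.h34.const_mul _).add (k.h34.const_mul _), (h.h14.const_mul _).add (k.h14.const_mul _),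
    (continuousOn_const.mul h.c12).add (continuousOn_const.mul k.c12),
    (continuousOn_const.mul h.c23).add (continuousOn_const.mul k.c23),
    (continuousOn_const.mul h.c34).add (continuousOn_const.mul k.c34),
    (continuousOn_const.mul h.c14).add (continuousOn_const.mul k.c14), ?_,
    fun t ht hx => re1 (h.r12 t ht hx) (k.r12 t ht hx),
    fun t ht hx => re2 (h.l12 t ht hx) (k.l12 t ht hx),
    fun t ht hx => re1 (h.r23 t ht hx) (k.r23 t ht hx),
    fun t ht hx => re2 (h.l23 t ht hx) (k.l23 t ht hx),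
    fun t ht hx => re1 (h.r34 t ht hx) (k.r34 t ht hx),
    fun t ht hx => re2 (h.l34 t ht hx) (k.l34 t ht hx),
    fun t ht hx hx' => re1 (h.m14 t ht hx hx') (k.m14 t ht hx hx'), ?_, ?_, ?_⟩
  · intro z hz
    linear_combination a * h.rel z hz + b * k.rel z hz
  · intro e he
    have lim : ∀ {f g : ℂ → ℂ}, Four f12 f23 f34 f14 f → Four g12 g23 g34 g14 g →
        Tendsto (fun z => (z - (e : ℂ)) * (a * f z + b * g z)) (𝓝[HP] (e : ℂ)) (𝓝 0) := by
      intro f g hf hg
      have h1 := ((h.exc e he f hf).const_mul (a : ℂ)).add ((k.exc e he g hg).const_mul (b : ℂ))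
      rw [mul_zero, mul_zero, add_zero] at h1
      refine h1.congr fun z => ?_
      ring
    exact mem_elim (P := fun f => Tendsto (fun z => (z - (e : ℂ)) * f z) (𝓝[HP] (e : ℂ)) (𝓝 0))
      (lim four12 four12) (lim four23 four23) (lim four34 four34) (lim four14 four14)
  · intro x hx
    have bd : ∀ {f g : ℂ → ℂ}, Four f12 f23 f34 f14 f → Four g12 g23 g34 g14 g →
        ∃ C r : ℝ, 0 < r ∧ ∀ z ∈ HP, ‖z - (x : ℂ)‖ < r → ‖(a : ℂ) * f z + b * g z‖ ≤ C := by
      intro f g hf hg
      obtain ⟨C1, r1, hr1, b1⟩ := h.bdd x hx f hf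
      obtain ⟨C2, r2, hr2, b2⟩ := k.bdd x hx g hg
      refine ⟨|a| * C1 + |b| * C2, min r1 r2, lt_min hr1 hr2, fun z hz hzr => ?_⟩
      refine (norm_add_le _ _).trans ?_
      rw [norm_mul, norm_mul, Complex.norm_real, Complex.norm_real, Real.norm_eq_abs,
        Real.norm_eq_abs]
      exact add_le_add
        (mul_le_mul_of_nonneg_left (b1 z hz (hzr.trans_le (min_le_left _ _))) (abs_nonneg _))
        (mul_le_mul_of_nonneg_left (b2 z hz (hzr.trans_le (min_le_right _ _))) (abs_nonneg _))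
    exact mem_elim (P := fun f => ∃ C r : ℝ, 0 < r ∧ ∀ z ∈ HP, ‖z - (x : ℂ)‖ < r → ‖f z‖ ≤ C)
      (bd four12 four12) (bd four23 four23) (bd four34 four34) (bd four14 four14)
  · have bd : ∀ {f g : ℂ → ℂ}, Four f12 f23 f34 f14 f → Four g12 g23 g34 g14 g →
        ∃ C R : ℝ, 0 < R ∧ ∀ z ∈ HP, R < ‖z‖ →
          ‖(a : ℂ) * f z + b * g z‖ ≤ C * ‖z‖ ^ (2 / 3 : ℝ) := by
      intro f g hf hg
      obtain ⟨C1, r1, hr1, b1⟩ := h.inf f hf
      obtain ⟨C2, r2, hr2, b2⟩ := k.inf g hg
      refine ⟨|a| * C1 + |b| * C2, max r1 r2, lt_max_of_lt_left hr1, fun z hz hzr => ?_⟩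
      refine (norm_add_le _ _).trans ?_
      rw [norm_mul, norm_mul, Complex.norm_real, Complex.norm_real, Real.norm_eq_abs,
        Real.norm_eq_abs]
      have e1 := mul_le_mul_of_nonneg_left (b1 z hz ((le_max_left _ _).trans_lt hzr))
        (abs_nonneg a)
      have e2 := mul_le_mul_of_nonneg_left (b2 z hz ((le_max_right _ _).trans_lt hzr))
        (abs_nonneg b)
      linarith
    exact mem_elim (P := fun f => ∃ C R : ℝ, 0 < R ∧ ∀ z ∈ HP, R < ‖z‖ →
        ‖f z‖ ≤ C * ‖z‖ ^ (2 / 3 : ℝ))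
      (bd four12 four12) (bd four23 four23) (bd four34 four34) (bd four14 four14)

/-- **Uniqueness for the four mark problem** (same exceptional set): two solutions are linearly
dependent over the reals. -/
theorem Sol4.uniq_same {g12 g23 g34 g14 : ℂ → ℂ} (h12 : x1 < x2) (h23 : x2 < x3) (h34 : x3 < x4)
    (h : Sol4 x1 x2 x3 x4 E f12 f23 f34 f14) (k : Sol4 x1 x2 x3 x4 E g12 g23 g34 g14) :
    ∃ a b : ℝ, (a ≠ 0 ∨ b ≠ 0) ∧ ∀ z ∈ HP, a * f12 z + b * g12 z = 0 ∧
      a * f23 z + b * g23 z = 0 ∧ a * f34 z + b * g34 z = 0 ∧ a * f14 z + b * g14 z = 0 := by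
  obtain ⟨a, b, hab, hz⟩ := abstract_uniq (FR x1 x2 x3 x4 h12 h23 h34)
    (fun f => ∃ g, Sol4 x1 x2 x3 x4 E (fun z => f z 2) (fun z => f z 0) (fun z => f z 1) g)
    (by
      rintro f ⟨g, hf⟩
      have := hf.nice h12 h23 h34
      have e : vec (fun z => f z 2) (fun z => f z 0) (fun z => f z 1) = f := by
        funext z i
        fin_cases i <;> rfl
      rwa [e] at this)
    (by
      rintro f u ⟨g, hf⟩ ⟨v, hu⟩ a b
      exact ⟨_, hf.add hu a b⟩)
    (by
      rintro f ⟨g, hf⟩ hz
      have c2 := hf.const_zero h12 h23 h34 (g := fun z => f z 2) (Or.inl rfl)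
        fun z hz' => congrFun (hz z hz') 2
      have c0 := hf.const_zero h12 h23 h34 (g := fun z => f z 0) (Or.inr (Or.inl rfl))
        fun z hz' => congrFun (hz z hz') 0
      have c1 := hf.const_zero h12 h23 h34 (g := fun z => f z 1) (Or.inr (Or.inr rfl))
        fun z hz' => congrFun (hz z hz') 1
      intro z hz'
      funext i
      fin_cases i
      exacts [c0 z hz', c1 z hz', c2 z hz'])
    (by
      rintro f ⟨g, hf⟩ ν hν hB
      have hne : ν 0 ≠ 0 ∨ ν 1 ≠ 0 ∨ ν 2 ≠ 0 := by
        by_contra hcon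
        push Not at hcon
        apply hν
        funext i
        fin_cases i
        exacts [hcon.1, hcon.2.1, hcon.2.2]
      have := hf.no_rel h12 h23 h34 hne (fun z hz => hB z hz)
      intro z hz
      obtain ⟨e2, e0, e1⟩ := this z hz
      funext i
      fin_cases i
      exacts [e0, e1, e2])
    (vec f12 f23 f34) (vec g12 g23 g34) ⟨f14, h⟩ ⟨g14, k⟩
  refine ⟨a, b, hab, fun z hz' => ?_⟩
  have h0 := congrFun (hz z hz') 0
  have h1 := congrFun (hz z hz') 1
  have h2 := congrFun (hz z hz') 2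
  simp [vec] at h0 h1 h2
  refine ⟨h2, h0, h1, ?_⟩
  linear_combination a * h.rel z hz' + b * k.rel z hz' - w * h0 - h1 - w ^ 2 * h2

end H87.FM
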